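import Mathlib

/-!
Objects of the problem: nearest-neighbour edges of `ℤ^(d+1)`, dynamical conductances refreshed
at unit-rate exponential clocks run at speed `μ`, and the biased walk built by thinning.
-/

open MeasureTheory ProbabilityTheory

namespace Pool.Agent.Helper90.SlowRefresh

/-- Sites of the lattice of dimension `d + 1`. Coordinate `0` is the direction `e_1`. -/
abbrev Site (d : ℕ) := Fin (d + 1) → ℤ

/-- The unoriented nearest-neighbour edge `{x, x + e_i}` is the pair `(x, i)`. -/
abbrev Edge (d : ℕ) := Site d × Fin (d + 1)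

/-- The `2 (d + 1)` directions: `(i, true)` is `+ e_i` and `(i, false)` is `- e_i`. -/
abbrev Dir (d : ℕ) := Fin (d + 1) × Bool

/-- The vector of a direction. -/
def stepVec {d : ℕ} (δ : Dir d) : Site d := Pi.single δ.1 (if δ.2 then 1 else -1)

/-- The edge between `x` and `x + stepVec δ`. -/
def edgeAt {d : ℕ} (x : Site d) (δ : Dir d) : Edge d :=
  (if δ.2 then x else x - Pi.single δ.1 1, δ.1)

/-- The rate of the Poisson clock of one direction used in the thinning construction; it is
at least the jump rate in any direction as long as all conductances are at most `κ`. -/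
noncomputable def clockRate (κ lam : ℝ) : ℝ := 2 * κ * Real.exp lam

/-- One ring of the walk's clock, at a time when the conductances are `ω`, with direction `δ` and
uniform mark `u`: the walk at `x` jumps along `δ` when `clockRate * u` is below the jump rate
`e^{lam (δ . e_1)} ω(x, x + δ)`. -/
noncomputable def ringStep {d : ℕ} (κ lam : ℝ) (ω : Edge d → ℝ) (x : Site d) (δ : Dir d) (u : ℝ) :
    Site d :=
  open Classical in
  if clockRate κ lam * u < Real.exp (lam * (stepVec δ 0 : ℤ)) * ω (edgeAt x δ) then x + stepVec δ
  else x

/-- Randomness of the walk: for the `n`-th ring, the waiting time, the direction, the mark. -/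
abbrev WalkNoise (d : ℕ) := ℕ → ℝ × Dir d × ℝ

/-- The time of the `n`-th ring, `ringTime w 0 = 0`. -/
noncomputable def ringTime {d : ℕ} (w : WalkNoise d) (n : ℕ) : ℝ :=
  ∑ k ∈ Finset.range n, (w k).1

/-- The position after `n` rings in the space-time environment `env`. -/
noncomputable def ringPos {d : ℕ} (κ lam : ℝ) (env : ℝ → Edge d → ℝ) (w : WalkNoise d) :
    ℕ → Site d
  | 0 => 0
  | n + 1 => ringStep κ lam (env (ringTime w (n + 1))) (ringPos κ lam env w n)
      (w n).2.1 (w n).2.2

/-- The number of points `s 0 + ... + s k` (`k ≥ 0`) in `[0, t]`. -/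
noncomputable def countUpTo (s : ℕ → ℝ) (t : ℝ) : ℕ :=
  Set.ncard {k : ℕ | ∑ i ∈ Finset.range (k + 1), s i ≤ t}

/-- The continuous-time walk in the space-time environment `env`, started at `0`. -/
noncomputable def walkAt {d : ℕ} (κ lam : ℝ) (env : ℝ → Edge d → ℝ) (w : WalkNoise d) (t : ℝ) :
    Site d :=
  ringPos κ lam env w (countUpTo (fun k => (w k).1) t)

/-- Randomness of the environment: for every edge, the gaps of a unit-rate Poisson process and
the successive conductances of the edge. -/
abbrev EnvNoise (d : ℕ) := Edge d → ℕ → ℝ × ℝ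

/-- Dynamical conductances with refresh rate `μ`: the refresh times of edge `e` are the points of
its unit-rate Poisson process divided by `μ`, and the conductance at time `t` is the value of
index `number of refreshes of e up to time t`. -/
noncomputable def dynEnv {d : ℕ} (μ : ℝ) (a : EnvNoise d) (t : ℝ) (e : Edge d) : ℝ :=
  (a e (countUpTo (fun k => (a e k).1) (μ * t))).2

/-- The static environment: no refreshing. -/
def staticEnv {d : ℕ} (a : EnvNoise d) (_t : ℝ) (e : Edge d) : ℝ := (a e 0).2

/-- Law of the environment noise: all gaps are exponential of rate one, all conductances have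
law `q`, everything is independent. -/
noncomputable def envLaw (d : ℕ) (q : Measure ℝ) : Measure (EnvNoise d) :=
  Measure.infinitePi fun _ : Edge d => Measure.infinitePi fun _ : ℕ => (expMeasure 1).prod q

/-- Law of one ring: waiting time exponential with rate `2 (d + 1) clockRate`, uniform
direction, uniform mark in `[0, 1]`, independent. -/
noncomputable def ringLaw (d : ℕ) (κ lam : ℝ) : Measure (ℝ × Dir d × ℝ) :=
  (expMeasure (2 * (d + 1) * clockRate κ lam)).prod
    ((uniformOn (Set.univ : Set (Dir d))).prod (volume.restrict (Set.Icc (0 : ℝ) 1)))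

/-- Law of the walk's noise: independent rings. -/
noncomputable def walkLaw (d : ℕ) (κ lam : ℝ) : Measure (WalkNoise d) :=
  Measure.infinitePi fun _ : ℕ => ringLaw d κ lam

/-- The joint (annealed) law. -/
noncomputable def jointLaw (d : ℕ) (q : Measure ℝ) (κ lam : ℝ) :
    Measure (EnvNoise d × WalkNoise d) :=
  (envLaw d q).prod (walkLaw d κ lam)

/-- `v` is the speed of the biased walk in dynamical conductances of refresh rate `μ`. -/
def IsDynamicSpeed (d : ℕ) (q : Measure ℝ) (κ lam μ v : ℝ) : Prop :=
  ∀ᵐ p ∂jointLaw d q κ lam, Filter.Tendsto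
    (fun t : ℝ => (walkAt κ lam (dynEnv μ p.1) p.2 t 0 : ℝ) / t) Filter.atTop (nhds v)

/-- `v` is the speed of the biased walk in the static environment. -/
def IsStaticSpeed (d : ℕ) (q : Measure ℝ) (κ lam v : ℝ) : Prop :=
  ∀ᵐ p ∂jointLaw d q κ lam, Filter.Tendsto
    (fun t : ℝ => (walkAt κ lam (staticEnv p.1) p.2 t 0 : ℝ) / t) Filter.atTop (nhds v)

end Pool.Agent.Helper90.SlowRefresh
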