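import Mathlib
import Pool.Agent.Helper90.SlowRefresh.Defs

open MeasureTheory ProbabilityTheory Filter
open scoped ENNReal Topology

namespace Pool.Agent.Helper90.SlowRefresh

/-- A stationary dynamics on one edge with an observable in `[c, κ]`. -/
structure Dyn (A : Type) [MeasurableSpace A] where
  PA : Measure A
  prob : IsProbabilityMeasure PA
  Th : ℝ → A → A
  hTh : Measurable (fun p : ℝ × A => Th p.1 p.2)
  hinv : ∀ s, MeasurePreserving (Th s) PA PA
  ph : A → ℝ
  hph : Measurable ph
  c : ℝ
  κ : ℝ
  lam : ℝ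
  hc : 0 < c
  hlo : ∀ x, c ≤ ph x
  hhi : ∀ x, ph x ≤ κ
  hlam : 0 < lam
  xi : Measure ℝ
  hxi : IsProbabilityMeasure xi

attribute [instance] Dyn.prob Dyn.hxi

abbrev Cfg (d : ℕ) (A : Type) := Edge d → A

variable {d : ℕ} {A : Type} [MeasurableSpace A]

def disp : Option (Dir d) → Site d
  | none => 0
  | some δ => stepVec δ

lemma stepVec_zero (δ : Dir d) : stepVec δ 0 = if δ.1 = 0 then (if δ.2 then 1 else -1) else 0 := by
  unfold stepVec
  by_cases h : δ.1 = 0
  · rw [h]; simp
  · rw [Pi.single_eq_of_ne (Ne.symm h)]; simp [h]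

lemma abs_stepVec_zero_le (δ : Dir d) : |stepVec δ 0| ≤ 1 := by
  rw [stepVec_zero]; split_ifs <;> simp

lemma abs_stepVec_le (δ : Dir d) (i : Fin (d + 1)) : |stepVec δ i| ≤ 1 := by
  unfold stepVec
  by_cases h : i = δ.1
  · subst h; simp; split_ifs <;> simp
  · rw [Pi.single_eq_of_ne h]; simp

lemma abs_disp_le (j : Option (Dir d)) (i : Fin (d + 1)) : |disp j i| ≤ 1 := by
  cases j with
  | none => simp [disp]
  | some δ => exact abs_stepVec_le δ i

namespace Dyn

variable (D : Dyn A)

include D in
lemma nonemptyA : Nonempty A := by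
  by_contra h
  rw [not_nonempty_iff] at h
  have h1 : D.PA Set.univ = 1 := measure_univ
  rw [Set.univ_eq_empty_iff.2 h, measure_empty] at h1
  exact zero_ne_one h1

lemma c_le_κ : D.c ≤ D.κ := by
  obtain ⟨x⟩ := D.nonemptyA
  exact (D.hlo x).trans (D.hhi x)

lemma κ_pos : 0 < D.κ := D.hc.trans_le D.c_le_κ

lemma clock_pos : 0 < clockRate D.κ D.lam := by
  unfold clockRate
  have := D.κ_pos
  positivity

/-- shift of all coordinates -/
def sh (s : ℝ) (a : Cfg d A) : Cfg d A := fun e => D.Th s (a e)

/-- product law -/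
noncomputable def PE : Measure (Cfg d A) := Measure.infinitePi fun _ : Edge d => D.PA

instance : IsProbabilityMeasure (D.PE (d := d)) := by
  unfold PE; infer_instance

lemma sh_measurable : Measurable (fun p : ℝ × Cfg d A => D.sh p.1 p.2) := by
  refine measurable_pi_lambda _ fun e => ?_
  exact D.hTh.comp (measurable_fst.prodMk ((measurable_pi_apply e).comp measurable_snd))

lemma sh_measurable' (s : ℝ) : Measurable (fun a : Cfg d A => D.sh s a) :=
  D.sh_measurable.comp (measurable_const.prodMk measurable_id)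

lemma sh_mp (s : ℝ) : MeasurePreserving (fun a : Cfg d A => D.sh s a) D.PE D.PE := by
  refine ⟨D.sh_measurable' s, ?_⟩
  have := Measure.infinitePi_map_pi (fun _ : Edge d => D.PA) (f := fun _ => D.Th s)
    (fun _ => (D.hinv s).measurable)
  unfold PE
  change Measure.map (fun (x : Edge d → A) i => D.Th s (x i)) _ = _
  rw [this]
  congr 1
  funext i
  exact (D.hinv s).map_eq

/-- acceptance probability -/
noncomputable def acc (δ : Dir d) (u : ℝ) : ℝ :=
  Real.exp (D.lam * (stepVec δ 0 : ℤ)) * u / clockRate D.κ D.lam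

lemma acc_nonneg (δ : Dir d) {u : ℝ} (hu : D.c ≤ u) : 0 ≤ D.acc δ u := by
  unfold acc
  have := D.clock_pos
  have := D.hc
  have : 0 ≤ u := by linarith
  positivity

lemma acc_mono (δ : Dir d) {u v : ℝ} (huv : u ≤ v) : D.acc δ u ≤ D.acc δ v := by
  unfold acc
  have := D.clock_pos
  gcongr

lemma acc_le_half (δ : Dir d) {u : ℝ} (hu : u ≤ D.κ) : D.acc δ u ≤ 1 / 2 := by
  refine (D.acc_mono δ hu).trans ?_
  unfold acc clockRate
  have hk := D.κ_pos
  rw [div_le_iff₀ (by positivity)]
  have h1 : Real.exp (D.lam * (stepVec δ 0 : ℤ)) ≤ Real.exp D.lam := by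
    apply Real.exp_le_exp.2
    have h2 : ((stepVec δ 0 : ℤ) : ℝ) ≤ 1 := by
      exact_mod_cast (abs_le.1 (abs_stepVec_zero_le δ)).2
    nlinarith [D.hlam]
  nlinarith

/-- number of directions as a real number -/
noncomputable def nd (d : ℕ) : ℝ := 2 * (d + 1)

lemma nd_pos (d : ℕ) : 0 < nd d := by unfold nd; positivity

lemma card_dir (d : ℕ) : (Fintype.card (Dir d) : ℝ) = nd d := by
  unfold nd
  simp [Fintype.card_prod]
  ring

/-- acceptance probability at a site -/
noncomputable def pr (a : Cfg d A) (x : Site d) (δ : Dir d) : ℝ :=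
  D.acc δ (D.ph (a (edgeAt x δ)))

lemma pr_nonneg (a : Cfg d A) (x : Site d) (δ : Dir d) : 0 ≤ D.pr a x δ :=
  D.acc_nonneg δ (D.hlo _)

lemma pr_le_half (a : Cfg d A) (x : Site d) (δ : Dir d) : D.pr a x δ ≤ 1 / 2 :=
  D.acc_le_half δ (D.hhi _)

lemma pr_measurable (x : Site d) (δ : Dir d) : Measurable (fun a : Cfg d A => D.pr a x δ) := by
  unfold pr acc
  have : Measurable (fun a : Cfg d A => D.ph (a (edgeAt x δ))) :=
    D.hph.comp (measurable_pi_apply _)
  fun_prop

/-- the downward direction -/
def dn : Dir d := (0, false)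
/-- the upward direction -/
def up : Dir d := (0, true)

lemma stepVec_dn : stepVec (dn : Dir d) 0 = -1 := by simp [stepVec_zero, dn]
lemma stepVec_up : stepVec (up : Dir d) 0 = 1 := by simp [stepVec_zero, up]
lemma stepVec_ne (δ : Dir d) (h : δ ≠ dn) : 0 ≤ stepVec δ 0 := by
  rw [stepVec_zero]
  split_ifs with h1 h2
  · norm_num
  · exfalso; apply h
    ext
    · rw [h1]; rfl
    · simp only [dn]; simpa using h2
  · norm_num

/-- the largest acceptance probability in the downward direction -/
noncomputable def am (d : ℕ) : ℝ := D.acc (dn : Dir d) D.κ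

lemma am_nonneg : 0 ≤ D.am d := D.acc_nonneg _ D.c_le_κ
lemma am_le_half : D.am d ≤ 1 / 2 := D.acc_le_half _ le_rfl
lemma pr_dn_le (a : Cfg d A) (x : Site d) : D.pr a x dn ≤ D.am d := D.acc_mono _ (D.hhi _)

/-- coefficients of the transition kernel -/
noncomputable def coK : Option (Dir d) → Cfg d A → Site d → ℝ≥0∞
  | some δ, a, x => ENNReal.ofReal (D.pr a x δ / nd d)
  | none, a, x => ENNReal.ofReal (∑ δ, (1 - D.pr a x δ) / nd d)

/-- coefficients of the bad part at level `0` -/
noncomputable def coB : Option (Dir d) → Cfg d A → Site d → ℝ≥0∞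
  | some δ, a, x => if x 0 = 0 ∧ δ = dn then ENNReal.ofReal (D.pr a x δ / nd d) else 0
  | none, a, x => if x 0 = 0 then ENNReal.ofReal ((D.am d - D.pr a x dn) / nd d) else 0

/-- coefficients of the good part -/
noncomputable def coG : Option (Dir d) → Cfg d A → Site d → ℝ≥0∞
  | some δ, a, x => if x 0 = 0 ∧ δ = dn then 0 else ENNReal.ofReal (D.pr a x δ / nd d)
  | none, a, x => if x 0 = 0 then
      ENNReal.ofReal (∑ δ, (if δ = dn then 1 - D.am d else 1 - D.pr a x δ) / nd d)
      else ENNReal.ofReal (∑ δ, (1 - D.pr a x δ) / nd d)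

lemma coK_eq (j : Option (Dir d)) (a : Cfg d A) (x : Site d) :
    D.coK j a x = D.coG j a x + D.coB j a x := by
  cases j with
  | some δ =>
    simp only [coK, coG, coB]
    split_ifs <;> simp
  | none =>
    simp only [coK, coG, coB]
    split_ifs with h
    · rw [← ENNReal.ofReal_add]
      · congr 1
        have h1 : ∀ δ : Dir d, (1 - D.pr a x δ) / nd d =
            (if δ = dn then 1 - D.am d else 1 - D.pr a x δ) / nd d +
              (if δ = dn then (D.am d - D.pr a x dn) / nd d else 0) := by
          intro δ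
          split_ifs with h2
          · subst h2; ring
          · ring
        rw [Finset.sum_congr rfl fun δ _ => h1 δ, Finset.sum_add_distrib]
        congr 1
        rw [Finset.sum_ite_eq' Finset.univ dn]
        simp
      · refine Finset.sum_nonneg fun δ _ => div_nonneg ?_ (nd_pos d).le
        split_ifs
        · have := D.am_le_half (d := d); linarith
        · have := D.pr_le_half a x δ; linarith
      · exact div_nonneg (by have := D.pr_dn_le a x; linarith) (nd_pos d).le
    · simp

lemma coK_sum (a : Cfg d A) (x : Site d) : ∑ j, D.coK j a x = 1 := by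
  rw [Fintype.sum_option]
  simp only [coK]
  rw [← ENNReal.ofReal_sum_of_nonneg (fun δ _ => div_nonneg (D.pr_nonneg a x δ) (nd_pos d).le),
    ← ENNReal.ofReal_add, ← Finset.sum_add_distrib]
  · have : ∀ δ : Dir d, (1 - D.pr a x δ) / nd d + D.pr a x δ / nd d = 1 / nd d := by
      intro δ; ring
    simp only [this, Finset.sum_const, Finset.card_univ, nsmul_eq_mul, card_dir]
    rw [mul_one_div, div_self (nd_pos d).ne']
    simp
  · exact Finset.sum_nonneg fun δ _ => div_nonneg (by have := D.pr_le_half a x δ; linarith)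
      (nd_pos d).le
  · exact Finset.sum_nonneg fun δ _ => div_nonneg (D.pr_nonneg a x δ) (nd_pos d).le

/-- total mass of the bad part -/
noncomputable def b0 (x : Site d) : ℝ≥0∞ := if x 0 = 0 then ENNReal.ofReal (D.am d / nd d) else 0

lemma coB_sum (a : Cfg d A) (x : Site d) : ∑ j, D.coB j a x = D.b0 x := by
  rw [Fintype.sum_option]
  simp only [coB, b0]
  by_cases h : x 0 = 0
  · simp only [h, true_and, if_true]
    rw [Finset.sum_ite_eq' Finset.univ dn]
    simp only [Finset.mem_univ, if_true]
    rw [← ENNReal.ofReal_add]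
    · congr 1; ring
    · exact div_nonneg (by have := D.pr_dn_le a x; linarith) (nd_pos d).le
    · exact div_nonneg (D.pr_nonneg a x dn) (nd_pos d).le
  · simp [h]

lemma coK_meas (j : Option (Dir d)) (x : Site d) : Measurable (fun a => D.coK j a x) := by
  cases j with
  | some δ =>
    simp only [coK]
    exact ENNReal.measurable_ofReal.comp ((D.pr_measurable x δ).div_const _)
  | none =>
    simp only [coK]
    refine ENNReal.measurable_ofReal.comp (Finset.measurable_sum _ fun δ _ => ?_)
    exact (measurable_const.sub (D.pr_measurable x δ)).div_const _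

lemma coB_meas (j : Option (Dir d)) (x : Site d) : Measurable (fun a => D.coB j a x) := by
  cases j with
  | some δ =>
    simp only [coB]
    split_ifs
    · exact ENNReal.measurable_ofReal.comp ((D.pr_measurable x δ).div_const _)
    · exact measurable_const
  | none =>
    simp only [coB]
    split_ifs
    · exact ENNReal.measurable_ofReal.comp
        ((measurable_const.sub (D.pr_measurable x dn)).div_const _)
    · exact measurable_const

lemma coG_meas (j : Option (Dir d)) (x : Site d) : Measurable (fun a => D.coG j a x) := by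
  cases j with
  | some δ =>
    simp only [coG]
    split_ifs
    · exact measurable_const
    · exact ENNReal.measurable_ofReal.comp ((D.pr_measurable x δ).div_const _)
  | none =>
    simp only [coG]
    split_ifs
    · refine ENNReal.measurable_ofReal.comp (Finset.measurable_sum _ fun δ _ => ?_)
      split_ifs
      · exact measurable_const
      · exact (measurable_const.sub (D.pr_measurable x δ)).div_const _
    · refine ENNReal.measurable_ofReal.comp (Finset.measurable_sum _ fun δ _ => ?_)
      exact (measurable_const.sub (D.pr_measurable x δ)).div_const _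

/-- the operator with given coefficients -/
noncomputable def op (co : Option (Dir d) → Cfg d A → Site d → ℝ≥0∞)
    (f : Cfg d A → Site d → ℝ≥0∞) : Cfg d A → Site d → ℝ≥0∞ :=
  fun a x => ∫⁻ s, ∑ j, co j (D.sh s a) x * f (D.sh s a) (x + disp j) ∂D.xi

/-- measurability in the configuration -/
def MF (f : Cfg d A → Site d → ℝ≥0∞) : Prop := ∀ x, Measurable (fun a => f a x)

def MC (co : Option (Dir d) → Cfg d A → Site d → ℝ≥0∞) : Prop :=
  ∀ j x, Measurable (fun a => co j a x)

lemma op_integrand_meas {co : Option (Dir d) → Cfg d A → Site d → ℝ≥0∞} (hco : MC co)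
    {f : Cfg d A → Site d → ℝ≥0∞} (hf : MF f) (x : Site d) :
    Measurable (fun p : ℝ × Cfg d A => ∑ j, co j (D.sh p.1 p.2) x *
      f (D.sh p.1 p.2) (x + disp j)) := by
  refine Finset.measurable_sum _ fun j _ => ?_
  exact ((hco j x).comp D.sh_measurable).mul ((hf _).comp D.sh_measurable)

lemma op_integrand_meas' {co : Option (Dir d) → Cfg d A → Site d → ℝ≥0∞} (hco : MC co)
    {f : Cfg d A → Site d → ℝ≥0∞} (hf : MF f) (a : Cfg d A) (x : Site d) :
    Measurable (fun s : ℝ => ∑ j, co j (D.sh s a) x * f (D.sh s a) (x + disp j)) :=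
  (D.op_integrand_meas hco hf x).comp (measurable_id.prodMk measurable_const)

lemma op_MF {co : Option (Dir d) → Cfg d A → Site d → ℝ≥0∞} (hco : MC co)
    {f : Cfg d A → Site d → ℝ≥0∞} (hf : MF f) : MF (D.op co f) := by
  intro x
  exact (D.op_integrand_meas hco hf x).lintegral_prod_left'

lemma op_mono (co : Option (Dir d) → Cfg d A → Site d → ℝ≥0∞)
    {f g : Cfg d A → Site d → ℝ≥0∞} (h : ∀ a x, f a x ≤ g a x) (a : Cfg d A) (x : Site d) :
    D.op co f a x ≤ D.op co g a x := by
  unfold op
  refine lintegral_mono fun s => Finset.sum_le_sum fun j _ => ?_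
  exact mul_le_mul_right (h _ _) _

/-- monotonicity when only neighbours matter -/
lemma op_mono' (co : Option (Dir d) → Cfg d A → Site d → ℝ≥0∞)
    {f g : Cfg d A → Site d → ℝ≥0∞} (a : Cfg d A) (x : Site d)
    (h : ∀ a j, co j a x ≠ 0 → f a (x + disp j) ≤ g a (x + disp j)) :
    D.op co f a x ≤ D.op co g a x := by
  unfold op
  refine lintegral_mono fun s => Finset.sum_le_sum fun j _ => ?_
  by_cases h0 : co j (D.sh s a) x = 0
  · rw [h0]; simp
  · exact mul_le_mul_right (h _ _ h0) _

lemma op_congr' (co : Option (Dir d) → Cfg d A → Site d → ℝ≥0∞)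
    {f g : Cfg d A → Site d → ℝ≥0∞} (a : Cfg d A) (x : Site d)
    (h : ∀ a j, co j a x ≠ 0 → f a (x + disp j) = g a (x + disp j)) :
    D.op co f a x = D.op co g a x :=
  le_antisymm (D.op_mono' co a x fun a j hj => (h a j hj).le)
    (D.op_mono' co a x fun a j hj => (h a j hj).ge)

lemma op_add {co : Option (Dir d) → Cfg d A → Site d → ℝ≥0∞} (hco : MC co)
    {f : Cfg d A → Site d → ℝ≥0∞} (hf : MF f) (g : Cfg d A → Site d → ℝ≥0∞)
    (a : Cfg d A) (x : Site d) :
    D.op co (fun a x => f a x + g a x) a x = D.op co f a x + D.op co g a x := by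
  unfold op
  rw [← lintegral_add_left (D.op_integrand_meas' hco hf a x)]
  refine lintegral_congr fun s => ?_
  rw [← Finset.sum_add_distrib]
  exact Finset.sum_congr rfl fun j _ => mul_add _ _ _

lemma op_const_mul {co : Option (Dir d) → Cfg d A → Site d → ℝ≥0∞} (hco : MC co)
    {f : Cfg d A → Site d → ℝ≥0∞} (hf : MF f) (r : ℝ≥0∞)
    (a : Cfg d A) (x : Site d) :
    D.op co (fun a x => r * f a x) a x = r * D.op co f a x := by
  unfold op
  rw [← lintegral_const_mul _ (D.op_integrand_meas' hco hf a x)]
  refine lintegral_congr fun s => ?_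
  rw [Finset.mul_sum]
  exact Finset.sum_congr rfl fun j _ => by ring

lemma op_coK {f : Cfg d A → Site d → ℝ≥0∞} (hf : MF f) (a : Cfg d A) (x : Site d) :
    D.op D.coK f a x = D.op D.coG f a x + D.op D.coB f a x := by
  unfold op
  rw [← lintegral_add_left (D.op_integrand_meas' (fun j x => D.coG_meas j x) hf a x)]
  refine lintegral_congr fun s => ?_
  rw [← Finset.sum_add_distrib]
  exact Finset.sum_congr rfl fun j _ => by rw [coK_eq]; ring

lemma op_coK_const (r : ℝ≥0∞) (a : Cfg d A) (x : Site d) :
    D.op D.coK (fun _ _ => r) a x = r := by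
  unfold op
  have : ∀ s, ∑ j, D.coK j (D.sh s a) x * r = r := by
    intro s
    rw [← Finset.sum_mul, coK_sum, one_mul]
  simp [this]

lemma op_coB_const (r : ℝ≥0∞) (a : Cfg d A) (x : Site d) :
    D.op D.coB (fun _ _ => r) a x = D.b0 x * r := by
  unfold op
  have : ∀ s, ∑ j, D.coB j (D.sh s a) x * r = D.b0 x * r := by
    intro s
    rw [← Finset.sum_mul, coB_sum]
  simp [this]

lemma op_coG_le (f : Cfg d A → Site d → ℝ≥0∞) (a : Cfg d A) (x : Site d) :
    D.op D.coG f a x ≤ D.op D.coK f a x := by
  unfold op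
  refine lintegral_mono fun s => Finset.sum_le_sum fun j _ => ?_
  rw [coK_eq]
  exact mul_le_mul_left le_self_add _

lemma op_iSup {co : Option (Dir d) → Cfg d A → Site d → ℝ≥0∞} (hco : MC co)
    {f : ℕ → Cfg d A → Site d → ℝ≥0∞} (hf : ∀ n, MF (f n)) (hm : ∀ a x, Monotone fun n => f n a x)
    (a : Cfg d A) (x : Site d) :
    D.op co (fun a x => ⨆ n, f n a x) a x = ⨆ n, D.op co (f n) a x := by
  unfold op
  rw [← lintegral_iSup (fun n => D.op_integrand_meas' hco (hf n) a x)]
  · refine lintegral_congr fun s => ?_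
    simp only [ENNReal.mul_iSup]
    rw [ENNReal.finsetSum_iSup_of_monotone]
    intro j n m hnm
    exact mul_le_mul_right (hm _ _ hnm) _
  · intro n m hnm s
    exact Finset.sum_le_sum fun j _ => mul_le_mul_right (hm _ _ hnm) _

end Dyn

end Pool.Agent.Helper90.SlowRefresh
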