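import Mathlib
import Pool.Agent.Helper90.SlowRefresh.Kernel

open MeasureTheory ProbabilityTheory Filter
open scoped ENNReal Topology

namespace Pool.Agent.Helper90.SlowRefresh

variable {d : ℕ} {A : Type} [MeasurableSpace A]

def negDir (δ : Dir d) : Dir d := (δ.1, !δ.2)

lemma negDir_negDir (δ : Dir d) : negDir (negDir δ) = δ := by simp [negDir]

lemma stepVec_negDir (δ : Dir d) : stepVec (negDir δ) = - stepVec δ := by
  unfold stepVec negDir
  rw [← Pi.single_neg]
  congr 1
  cases δ.2 <;> simp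

lemma edgeAt_negDir (x : Site d) (δ : Dir d) : edgeAt (x + stepVec δ) (negDir δ) = edgeAt x δ := by
  obtain ⟨i, b⟩ := δ
  cases b
  · simp only [edgeAt, negDir, stepVec, Bool.not_false, if_true, Bool.false_eq_true, if_false]
    congr 1
    rw [sub_eq_add_neg, Pi.single_neg]
  · simp [edgeAt, negDir, stepVec]

def negOpt : Option (Dir d) → Option (Dir d)
  | none => none
  | some δ => some (negDir δ)

lemma negOpt_negOpt (j : Option (Dir d)) : negOpt (negOpt j) = j := by
  cases j with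
  | none => rfl
  | some δ => simp [negOpt, negDir_negDir]

def negEquiv : Option (Dir d) ≃ Option (Dir d) := ⟨negOpt, negOpt, negOpt_negOpt, negOpt_negOpt⟩

lemma disp_negOpt (j : Option (Dir d)) : disp (negOpt j) = - disp j := by
  cases j with
  | none => simp [negOpt, disp]
  | some δ => exact stepVec_negDir δ

namespace Dyn

variable (D : Dyn A)

/-- the reversible weight -/
noncomputable def wt (x : Site d) : ℝ≥0∞ := ENNReal.ofReal (Real.exp (2 * D.lam * (x 0 : ℤ)))

lemma wt_ne_zero (x : Site d) : D.wt x ≠ 0 := by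
  unfold wt; simp [Real.exp_pos]
lemma wt_ne_top (x : Site d) : D.wt x ≠ ⊤ := ENNReal.ofReal_ne_top

lemma reversible (j : Option (Dir d)) (a : Cfg d A) (x : Site d) :
    D.wt x * D.coK j a x = D.wt (x + disp j) * D.coK (negOpt j) a (x + disp j) := by
  cases j with
  | none => simp [disp, negOpt]
  | some δ =>
    simp only [disp, negOpt, coK, wt, pr, acc]
    rw [edgeAt_negDir, stepVec_negDir, ← ENNReal.ofReal_mul (Real.exp_pos _).le,
      ← ENNReal.ofReal_mul (Real.exp_pos _).le]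
    congr 1
    have h1 : Real.exp (2 * D.lam * ((x 0 : ℤ) : ℝ)) * Real.exp (D.lam * ((stepVec δ 0 : ℤ) : ℝ))
        = Real.exp (2 * D.lam * (((x + stepVec δ) 0 : ℤ) : ℝ)) *
          Real.exp (D.lam * (((- stepVec δ) 0 : ℤ) : ℝ)) := by
      rw [← Real.exp_add, ← Real.exp_add]
      congr 1
      simp only [Pi.add_apply, Pi.neg_apply, Int.cast_add, Int.cast_neg]
      ring
    have e1 : ∀ X Y u R n : ℝ, X * (Y * u / R / n) = (X * Y) * u / R / n := by intros; ring
    rw [e1, e1, h1]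

/-- one step of the walk in the frozen configuration `a` -/
noncomputable def st (a : Cfg d A) (u : Site d → ℝ≥0∞) (x : Site d) : ℝ≥0∞ :=
  ∑ j, D.coK j a x * u (x + disp j)

/-- squared norm -/
noncomputable def nrm (u : Site d → ℝ≥0∞) : ℝ≥0∞ := ∑' x, D.wt x * (u x) ^ 2

lemma stationarity (a : Cfg d A) (u : Site d → ℝ≥0∞) :
    ∑' x, D.wt x * ∑ j, D.coK j a x * (u (x + disp j)) ^ 2 = D.nrm u := by
  have h1 : ∀ x, D.wt x * ∑ j, D.coK j a x * (u (x + disp j)) ^ 2 =
      ∑ j, D.wt (x + disp j) * D.coK (negOpt j) a (x + disp j) * (u (x + disp j)) ^ 2 := by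
    intro x
    rw [Finset.mul_sum]
    refine Finset.sum_congr rfl fun j _ => ?_
    rw [← mul_assoc, reversible]
  simp only [h1]
  rw [Summable.tsum_finsetSum (fun _ _ => ENNReal.summable)]
  have h2 : ∀ j : Option (Dir d),
      ∑' x, D.wt (x + disp j) * D.coK (negOpt j) a (x + disp j) * (u (x + disp j)) ^ 2 =
      ∑' x, D.wt x * D.coK (negOpt j) a x * (u x) ^ 2 := by
    intro j
    exact (Equiv.addRight (disp j)).tsum_eq
      (fun x => D.wt x * D.coK (negOpt j) a x * (u x) ^ 2)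
  rw [Finset.sum_congr rfl fun j _ => h2 j]
  rw [← Summable.tsum_finsetSum (fun _ _ => ENNReal.summable)]
  unfold nrm
  refine tsum_congr fun x => ?_
  have h3 : ∑ j, D.coK (negOpt j) a x = 1 := by
    rw [← D.coK_sum a x]
    exact (negEquiv (d := d)).sum_comp (fun j => D.coK j a x)
  calc ∑ j, D.wt x * D.coK (negOpt j) a x * (u x) ^ 2
      = (∑ j, D.coK (negOpt j) a x) * (D.wt x * (u x) ^ 2) := by
        rw [Finset.sum_mul]
        exact Finset.sum_congr rfl fun j _ => by ring
    _ = D.wt x * (u x) ^ 2 := by rw [h3, one_mul]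

/-- the constant `c / (4 κ nd)` -/
noncomputable def ga (d : ℕ) : ℝ := D.c / (4 * D.κ) / nd d

lemma ga_pos : 0 < D.ga d := by
  unfold ga
  have := D.κ_pos; have := D.hc; have := nd_pos d
  positivity

lemma ga_le (a : Cfg d A) (x : Site d) : D.ga d ≤ D.pr a x up / 2 / nd d := by
  unfold ga pr
  have hk := D.κ_pos
  refine div_le_div_of_nonneg_right ?_ (nd_pos d).le
  have h1 : D.acc (up : Dir d) D.c ≤ D.acc up (D.ph (a (edgeAt x up))) := D.acc_mono _ (D.hlo _)
  refine le_trans ?_ (div_le_div_of_nonneg_right h1 (by norm_num))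
  unfold acc clockRate
  rw [stepVec_up]
  have h2 := Real.exp_pos D.lam
  apply le_of_eq
  simp only [Int.cast_one, mul_one]
  field_simp
  ring

lemma st_eq_ofReal (a : Cfg d A) (v : Site d → ℝ) (hv : ∀ x, 0 ≤ v x) (x : Site d) :
    D.st a (fun x => ENNReal.ofReal (v x)) x = ENNReal.ofReal
      (∑ δ, (D.pr a x δ * v (x + stepVec δ) + (1 - D.pr a x δ) * v x) / nd d) := by
  unfold st
  rw [Fintype.sum_option]
  simp only [coK, disp, add_zero]
  have hn := nd_pos d
  have h1 : ∀ δ : Dir d, ENNReal.ofReal (D.pr a x δ / nd d) * ENNReal.ofReal (v (x + stepVec δ)) =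
      ENNReal.ofReal (D.pr a x δ / nd d * v (x + stepVec δ)) := fun δ =>
    (ENNReal.ofReal_mul (div_nonneg (D.pr_nonneg a x δ) hn.le)).symm
  rw [Finset.sum_congr rfl fun δ _ => h1 δ, ← ENNReal.ofReal_sum_of_nonneg,
    ← ENNReal.ofReal_mul, ← ENNReal.ofReal_add]
  · congr 1
    rw [Finset.sum_mul, ← Finset.sum_add_distrib]
    exact Finset.sum_congr rfl fun δ _ => by ring
  · exact mul_nonneg (Finset.sum_nonneg fun δ _ => div_nonneg
      (by have := D.pr_le_half a x δ; linarith) hn.le) (hv x)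
  · exact Finset.sum_nonneg fun δ _ => mul_nonneg (div_nonneg (D.pr_nonneg a x δ) hn.le) (hv _)
  · exact Finset.sum_nonneg fun δ _ => div_nonneg
      (by have := D.pr_le_half a x δ; linarith) hn.le
  · exact fun δ _ => mul_nonneg (div_nonneg (D.pr_nonneg a x δ) hn.le) (hv _)

lemma st_sq_eq_ofReal (a : Cfg d A) (v : Site d → ℝ) (hv : ∀ x, 0 ≤ v x) (x : Site d) :
    ∑ j, D.coK j a x * (ENNReal.ofReal (v (x + disp j))) ^ 2 = ENNReal.ofReal
      (∑ δ, (D.pr a x δ * v (x + stepVec δ) ^ 2 + (1 - D.pr a x δ) * v x ^ 2) / nd d) := by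
  have := D.st_eq_ofReal a (fun x => v x ^ 2) (fun x => by positivity) x
  unfold st at this
  rw [← this]
  refine Finset.sum_congr rfl fun j _ => ?_
  rw [← ENNReal.ofReal_pow (hv _)]

lemma pointwise_real (a : Cfg d A) (v : Site d → ℝ) (x : Site d) :
    (∑ δ, (D.pr a x δ * v (x + stepVec δ) + (1 - D.pr a x δ) * v x) / nd d) ^ 2 +
      D.ga d * (v (x + stepVec up) - v x) ^ 2 ≤
    ∑ δ, (D.pr a x δ * v (x + stepVec δ) ^ 2 + (1 - D.pr a x δ) * v x ^ 2) / nd d := by
  have hn := nd_pos d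
  have h1 : (∑ δ, (D.pr a x δ * v (x + stepVec δ) + (1 - D.pr a x δ) * v x) / nd d) ^ 2 ≤
      ∑ δ, (D.pr a x δ * v (x + stepVec δ) + (1 - D.pr a x δ) * v x) ^ 2 / nd d := by
    have h2 := sq_sum_le_card_mul_sum_sq (s := (Finset.univ : Finset (Dir d)))
      (f := fun δ => (D.pr a x δ * v (x + stepVec δ) + (1 - D.pr a x δ) * v x) / nd d)
    refine h2.trans (le_of_eq ?_)
    rw [Finset.card_univ, card_dir, Finset.mul_sum]
    refine Finset.sum_congr rfl fun δ _ => ?_
    field_simp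
  have h3 : ∀ δ : Dir d, (D.pr a x δ * v (x + stepVec δ) + (1 - D.pr a x δ) * v x) ^ 2 / nd d +
      D.pr a x δ / 2 / nd d * (v (x + stepVec δ) - v x) ^ 2 ≤
      (D.pr a x δ * v (x + stepVec δ) ^ 2 + (1 - D.pr a x δ) * v x ^ 2) / nd d := by
    intro δ
    have hp0 := D.pr_nonneg a x δ
    have hp1 := D.pr_le_half a x δ
    rw [div_mul_eq_mul_div, ← add_div]
    refine div_le_div_of_nonneg_right ?_ hn.le
    have : 0 ≤ D.pr a x δ * (1 / 2 - D.pr a x δ) * (v (x + stepVec δ) - v x) ^ 2 := by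
      have : 0 ≤ 1 / 2 - D.pr a x δ := by linarith
      positivity
    nlinarith [this]
  have h4 : D.ga d * (v (x + stepVec up) - v x) ^ 2 ≤
      ∑ δ, D.pr a x δ / 2 / nd d * (v (x + stepVec δ) - v x) ^ 2 := by
    refine le_trans (mul_le_mul_of_nonneg_right (D.ga_le a x) (sq_nonneg _)) ?_
    refine Finset.single_le_sum (f := fun δ => D.pr a x δ / 2 / nd d *
      (v (x + stepVec δ) - v x) ^ 2) (fun δ _ => ?_) (Finset.mem_univ up)
    have hp0 := D.pr_nonneg a x δ
    positivity
  have h5 := Finset.sum_le_sum fun δ (_ : δ ∈ (Finset.univ : Finset (Dir d))) => h3 δ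
  rw [Finset.sum_add_distrib] at h5
  linarith

/-- the contraction constant -/
noncomputable def th (d : ℕ) : ℝ := D.ga d * (1 - Real.exp (-D.lam)) ^ 2

lemma exp_neg_lt : Real.exp (-D.lam) < 1 := by
  rw [Real.exp_lt_one_iff]; have := D.hlam; linarith

lemma th_pos : 0 < D.th d := by
  unfold th
  have := D.ga_pos (d := d)
  have := D.exp_neg_lt
  have : 0 < 1 - Real.exp (-D.lam) := by linarith
  positivity

lemma nd_ge (d : ℕ) : 2 ≤ nd d := by unfold nd; have : (0:ℝ) ≤ d := by positivity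
                                     linarith

lemma th_lt_one : D.th d < 1 := by
  have h1 := D.ga_pos (d := d)
  have h2 := D.exp_neg_lt
  have h3 := Real.exp_pos (-D.lam)
  have h4 : D.ga d ≤ 1 / 8 := by
    unfold ga
    have hk := D.κ_pos
    have hck := D.c_le_κ
    have hn := nd_ge d
    rw [div_div, div_le_div_iff₀ (by positivity) (by norm_num)]
    nlinarith
  have h5 : (1 - Real.exp (-D.lam)) ^ 2 ≤ 1 := by nlinarith
  unfold th
  nlinarith

lemma shift_wt (U : Site d → ℝ≥0∞) :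
    ∑' x, D.wt x * U (x + stepVec up) =
      ENNReal.ofReal (Real.exp (-D.lam) ^ 2) * ∑' x, D.wt x * U x := by
  rw [← ENNReal.tsum_mul_left]
  have h : ∀ x : Site d, D.wt x * U (x + stepVec up) =
      ENNReal.ofReal (Real.exp (-D.lam) ^ 2) * (D.wt (x + stepVec up) * U (x + stepVec up)) := by
    intro x
    rw [← mul_assoc]
    congr 1
    unfold wt
    rw [← ENNReal.ofReal_mul (by positivity)]
    congr 1
    rw [← Real.exp_nat_mul, ← Real.exp_add]
    congr 1
    simp only [Pi.add_apply, stepVec_up]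
    push_cast
    ring
  simp only [h]
  exact (Equiv.addRight (stepVec up)).tsum_eq
    (fun x => ENNReal.ofReal (Real.exp (-D.lam) ^ 2) * (D.wt x * U x))

lemma poincare (v : Site d → ℝ) (hv : ∀ x, 0 ≤ v x)
    (hS : D.nrm (fun x => ENNReal.ofReal (v x)) ≠ ⊤) :
    ENNReal.ofReal ((1 - Real.exp (-D.lam)) ^ 2) * D.nrm (fun x : Site d => ENNReal.ofReal (v x)) ≤
      ∑' x, D.wt x * ENNReal.ofReal ((v (x + stepVec up) - v x) ^ 2) := by
  set s := Real.exp (-D.lam) with hs
  have hs0 : 0 < s := Real.exp_pos _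
  have hs1 : s < 1 := D.exp_neg_lt
  set S := D.nrm (fun x : Site d => ENNReal.ofReal (v x)) with hSdef
  set W := ∑' x : Site d, D.wt x * ENNReal.ofReal ((v (x + stepVec up) - v x) ^ 2) with hW
  have h1 : ENNReal.ofReal (1 - s) * S ≤ W + ENNReal.ofReal ((1 - s) * s) * S := by
    have h2 : ENNReal.ofReal (1 - s) * S =
        ∑' x : Site d, D.wt x * ENNReal.ofReal ((1 - s) * v x ^ 2) := by
      rw [hSdef]; unfold nrm
      rw [← ENNReal.tsum_mul_left]
      refine tsum_congr fun x => ?_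
      rw [ENNReal.ofReal_mul (by linarith), ENNReal.ofReal_pow (hv x)]
      ring
    have h3 : ENNReal.ofReal ((1 - s) * s) * S =
        ∑' x : Site d, D.wt x * ENNReal.ofReal ((1 / s - 1) * v (x + stepVec up) ^ 2) := by
      have h4 := D.shift_wt (d := d) (fun x => ENNReal.ofReal ((1 / s - 1) * v x ^ 2))
      rw [h4, hSdef]; unfold nrm
      rw [← ENNReal.tsum_mul_left, ← ENNReal.tsum_mul_left]
      refine tsum_congr fun x => ?_
      have h5 : 0 ≤ 1 / s - 1 := by
        rw [sub_nonneg, le_div_iff₀ hs0]; linarith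
      rw [ENNReal.ofReal_mul h5, ← ENNReal.ofReal_pow (hv x)]
      rw [show (1 - s) * s = s ^ 2 * (1 / s - 1) by field_simp,
        ENNReal.ofReal_mul (by positivity)]
      ring
    rw [h2, h3, hW, ← ENNReal.tsum_add]
    refine ENNReal.tsum_le_tsum fun x => ?_
    rw [← mul_add, ← ENNReal.ofReal_add (sq_nonneg _)
      (mul_nonneg (by rw [sub_nonneg, le_div_iff₀ hs0]; linarith) (sq_nonneg _))]
    refine mul_le_mul_right (ENNReal.ofReal_le_ofReal ?_) _
    set p := v x
    set q := v (x + stepVec up)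
    have h6 : (q - p) ^ 2 + (1 / s - 1) * q ^ 2 - (1 - s) * p ^ 2 = (q - s * p) ^ 2 / s := by
      field_simp
      ring
    have h7 : 0 ≤ (q - s * p) ^ 2 / s := by positivity
    linarith
  have h8 : ENNReal.ofReal (1 - s) * S =
      ENNReal.ofReal ((1 - s) ^ 2) * S + ENNReal.ofReal ((1 - s) * s) * S := by
    rw [← add_mul, ← ENNReal.ofReal_add (sq_nonneg _) (mul_nonneg (by linarith) hs0.le)]
    congr 2
    ring
  rw [h8] at h1
  exact (ENNReal.add_le_add_iff_right (ENNReal.mul_ne_top ENNReal.ofReal_ne_top hS)).1 h1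

/-- the one-step `L²` contraction -/
lemma contraction (a : Cfg d A) (u : Site d → ℝ≥0∞) (hu : ∀ x, u x ≤ 1) (hS : D.nrm u ≠ ⊤) :
    D.nrm (D.st a u) ≤ ENNReal.ofReal (1 - D.th d) * D.nrm u := by
  set v : Site d → ℝ := fun x => (u x).toReal with hvdef
  have huv : u = fun x => ENNReal.ofReal (v x) := by
    funext x
    exact (ENNReal.ofReal_toReal (ne_top_of_le_ne_top ENNReal.one_ne_top (hu x))).symm
  have hv : ∀ x, 0 ≤ v x := fun x => ENNReal.toReal_nonneg
  have h1 : ∀ x, (D.st a u x) ^ 2 + ENNReal.ofReal (D.ga d) *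
      ENNReal.ofReal ((v (x + stepVec up) - v x) ^ 2) ≤
      ∑ j, D.coK j a x * (u (x + disp j)) ^ 2 := by
    intro x
    have e1 := D.st_eq_ofReal a v hv x
    have e2 := D.st_sq_eq_ofReal a v hv x
    rw [← huv] at e1
    have e3 : ∀ j : Option (Dir d), u (x + disp j) = ENNReal.ofReal (v (x + disp j)) := by
      intro j; exact congrFun huv _
    simp only [e3]
    rw [e1, e2, ← ENNReal.ofReal_pow, ← ENNReal.ofReal_mul D.ga_pos.le, ← ENNReal.ofReal_add]
    · exact ENNReal.ofReal_le_ofReal (D.pointwise_real a v x)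
    · positivity
    · exact mul_nonneg D.ga_pos.le (sq_nonneg _)
    · refine Finset.sum_nonneg fun δ _ => div_nonneg (add_nonneg (mul_nonneg (D.pr_nonneg a x δ)
        (hv _)) (mul_nonneg (by have := D.pr_le_half a x δ; linarith) (hv _))) (nd_pos d).le
  have h2 : D.nrm (D.st a u) + ENNReal.ofReal (D.ga d) *
      ∑' x, D.wt x * ENNReal.ofReal ((v (x + stepVec up) - v x) ^ 2) ≤ D.nrm u := by
    rw [← D.stationarity a u]
    unfold nrm
    rw [← ENNReal.tsum_mul_left, ← ENNReal.tsum_add]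
    refine ENNReal.tsum_le_tsum fun x => ?_
    refine le_trans (le_of_eq ?_) (mul_le_mul_right (h1 x) (D.wt x))
    ring
  have h3 := D.poincare v hv (by rw [← huv]; exact hS)
  rw [← huv] at h3
  have h4 : D.nrm (D.st a u) + ENNReal.ofReal (D.th d) * D.nrm u ≤ D.nrm u := by
    refine le_trans ?_ h2
    refine add_le_add_right ?_ _
    unfold th
    rw [ENNReal.ofReal_mul D.ga_pos.le, mul_assoc]
    exact mul_le_mul_right h3 _
  have h5 : D.nrm u = ENNReal.ofReal (1 - D.th d) * D.nrm u + ENNReal.ofReal (D.th d) * D.nrm u := by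
    rw [← add_mul, ← ENNReal.ofReal_add (by have := D.th_lt_one (d := d); linarith) D.th_pos.le]
    simp
  have h6 : D.nrm (D.st a u) + ENNReal.ofReal (D.th d) * D.nrm u ≤
      ENNReal.ofReal (1 - D.th d) * D.nrm u + ENNReal.ofReal (D.th d) * D.nrm u := by
    rw [← h5]; exact h4
  exact (ENNReal.add_le_add_iff_right (ENNReal.mul_ne_top ENNReal.ofReal_ne_top hS)).1 h6

end Dyn

end Pool.Agent.Helper90.SlowRefresh
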