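import Mathlib
import Pool.Agent.Helper90.SlowRefresh.L2

open MeasureTheory ProbabilityTheory Filter
open scoped ENNReal Topology

namespace Pool.Agent.Helper90.SlowRefresh

variable {d : ℕ} {A : Type} [MeasurableSpace A]

lemma sq_lintegral_le {X : Type*} [MeasurableSpace X] (m : Measure X) [IsProbabilityMeasure m]
    {g : X → ℝ≥0∞} (hg : Measurable g) : (∫⁻ s, g s ∂m) ^ 2 ≤ ∫⁻ s, (g s) ^ 2 ∂m := by
  have h := ENNReal.lintegral_mul_le_Lp_mul_Lq m
    (Real.HolderConjugate.two_two) hg.aemeasurable (aemeasurable_const (b := (1 : ℝ≥0∞)))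
  simp only [Pi.mul_apply, mul_one, ENNReal.one_rpow, lintegral_one, measure_univ] at h
  have h2 : (∫⁻ s, g s ∂m) ^ 2 ≤ ((∫⁻ s, g s ^ (2 : ℝ) ∂m) ^ (1 / (2 : ℝ))) ^ 2 :=
    pow_le_pow_left' h 2
  refine h2.trans (le_of_eq ?_)
  rw [← ENNReal.rpow_natCast, ← ENNReal.rpow_mul]
  norm_num

namespace Dyn

variable (D : Dyn A)

/-- the transition operator -/
noncomputable def KK (f : Cfg d A → Site d → ℝ≥0∞) : Cfg d A → Site d → ℝ≥0∞ := D.op D.coK f

lemma KK_eq (f : Cfg d A → Site d → ℝ≥0∞) (a : Cfg d A) (x : Site d) :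
    D.KK f a x = ∫⁻ s, D.st (D.sh s a) (f (D.sh s a)) x ∂D.xi := rfl

lemma KK_MF {f : Cfg d A → Site d → ℝ≥0∞} (hf : MF f) : MF (D.KK f) :=
  D.op_MF (fun j x => D.coK_meas j x) hf

lemma KK_mono {f g : Cfg d A → Site d → ℝ≥0∞} (h : ∀ a x, f a x ≤ g a x) (a : Cfg d A)
    (x : Site d) : D.KK f a x ≤ D.KK g a x := D.op_mono _ h a x

lemma KK_le_one {f : Cfg d A → Site d → ℝ≥0∞} (h : ∀ a x, f a x ≤ 1) (a : Cfg d A)
    (x : Site d) : D.KK f a x ≤ 1 := by
  refine (D.KK_mono h a x).trans (le_of_eq ?_)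
  exact D.op_coK_const 1 a x

lemma nrm_KK {f : Cfg d A → Site d → ℝ≥0∞} (hf : MF f) (h1 : ∀ a x, f a x ≤ 1) {B : ℝ≥0∞}
    (hB : B ≠ ⊤) (h : ∀ a, D.nrm (f a) ≤ B) (a : Cfg d A) :
    D.nrm (D.KK f a) ≤ ENNReal.ofReal (1 - D.th d) * B := by
  have hm : ∀ x, Measurable fun s => D.st (D.sh s a) (f (D.sh s a)) x := fun x =>
    D.op_integrand_meas' (fun j x => D.coK_meas j x) hf a x
  calc D.nrm (D.KK f a) = ∑' x, D.wt x * (∫⁻ s, D.st (D.sh s a) (f (D.sh s a)) x ∂D.xi) ^ 2 := rfl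
    _ ≤ ∑' x, D.wt x * ∫⁻ s, (D.st (D.sh s a) (f (D.sh s a)) x) ^ 2 ∂D.xi :=
        ENNReal.tsum_le_tsum fun x => mul_le_mul_right (sq_lintegral_le _ (hm x)) _
    _ = ∑' x, ∫⁻ s, D.wt x * (D.st (D.sh s a) (f (D.sh s a)) x) ^ 2 ∂D.xi := by
        refine tsum_congr fun x => ?_
        rw [lintegral_const_mul _ ((hm x).pow_const 2)]
    _ = ∫⁻ s, ∑' x, D.wt x * (D.st (D.sh s a) (f (D.sh s a)) x) ^ 2 ∂D.xi := by
        rw [lintegral_tsum]
        exact fun x => (((hm x).pow_const 2).const_mul _).aemeasurable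
    _ ≤ ∫⁻ _s, ENNReal.ofReal (1 - D.th d) * B ∂D.xi := by
        refine lintegral_mono fun s => ?_
        have h2 : D.nrm (f (D.sh s a)) ≠ ⊤ := ne_top_of_le_ne_top hB (h _)
        exact (D.contraction (D.sh s a) _ (h1 _) h2).trans (mul_le_mul_right (h _) _)
    _ = ENNReal.ofReal (1 - D.th d) * B := by simp

/-- iterates of the transition operator -/
noncomputable def Kit (n : ℕ) (f : Cfg d A → Site d → ℝ≥0∞) : Cfg d A → Site d → ℝ≥0∞ :=
  (D.KK)^[n] f

lemma Kit_zero (f : Cfg d A → Site d → ℝ≥0∞) : D.Kit 0 f = f := rfl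

lemma Kit_succ (n : ℕ) (f : Cfg d A → Site d → ℝ≥0∞) : D.Kit (n + 1) f = D.KK (D.Kit n f) :=
  Function.iterate_succ_apply' _ _ _

lemma Kit_MF {f : Cfg d A → Site d → ℝ≥0∞} (hf : MF f) (n : ℕ) : MF (D.Kit n f) := by
  induction n with
  | zero => exact hf
  | succ n ih => rw [Kit_succ]; exact D.KK_MF ih

lemma Kit_le_one {f : Cfg d A → Site d → ℝ≥0∞} (h : ∀ a x, f a x ≤ 1) (n : ℕ) (a : Cfg d A)
    (x : Site d) : D.Kit n f a x ≤ 1 := by
  induction n generalizing a x with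
  | zero => exact h a x
  | succ n ih => rw [Kit_succ]; exact D.KK_le_one ih a x

lemma nrm_Kit {f : Cfg d A → Site d → ℝ≥0∞} (hf : MF f) (h1 : ∀ a x, f a x ≤ 1) {B : ℝ≥0∞}
    (hB : B ≠ ⊤) (h : ∀ a, D.nrm (f a) ≤ B) (n : ℕ) (a : Cfg d A) :
    D.nrm (D.Kit n f a) ≤ ENNReal.ofReal (1 - D.th d) ^ n * B := by
  induction n generalizing a with
  | zero => simpa [Kit_zero] using h a
  | succ n ih =>
    rw [Kit_succ, pow_succ', mul_assoc]
    exact D.nrm_KK (D.Kit_MF hf n) (D.Kit_le_one h1 n)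
      (ENNReal.mul_ne_top (ENNReal.pow_ne_top ENNReal.ofReal_ne_top) hB) ih a

lemma Kit_range (n : ℕ) (f g : Cfg d A → Site d → ℝ≥0∞) (a : Cfg d A) (x : Site d)
    (h : ∀ a y, (∀ i, |y i - x i| ≤ (n : ℤ)) → f a y = g a y) : D.Kit n f a x = D.Kit n g a x := by
  induction n generalizing a x with
  | zero => exact h a x (fun i => by simp)
  | succ n ih =>
    rw [Kit_succ, Kit_succ]
    refine D.op_congr' _ a x fun a' j _ => ih a' (x + disp j) fun a'' y hy => ?_
    refine h a'' y fun i => ?_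
    have h1 := hy i
    have h2 := abs_disp_le j i
    simp only [Pi.add_apply] at h1
    push_cast
    rw [abs_le] at *
    constructor <;> linarith [h1.1, h1.2, h2.1, h2.2]

/-- indicator of the levels below `M` -/
def lvl (M : ℤ) : Cfg d A → Site d → ℝ≥0∞ := fun _ x => if x 0 < M then 1 else 0

lemma lvl_MF (M : ℤ) : MF (lvl M : Cfg d A → Site d → ℝ≥0∞) := fun _ => measurable_const

/-- decay base -/
noncomputable def rr (d : ℕ) : ℝ := Real.sqrt (Real.sqrt (1 - D.th d))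

lemma rr_pos : 0 < D.rr d := by
  unfold rr
  have := D.th_lt_one (d := d)
  exact Real.sqrt_pos.2 (Real.sqrt_pos.2 (by linarith))

lemma rr_lt_one : D.rr d < 1 := by
  unfold rr
  have h1 := D.th_pos (d := d)
  have h2 := D.th_lt_one (d := d)
  have h3 : Real.sqrt (1 - D.th d) < 1 := by
    rw [Real.sqrt_lt' one_pos]; linarith
  rw [Real.sqrt_lt' one_pos]; simpa using h3

lemma rr_pow (n : ℕ) : (D.rr d ^ (2 * n)) ^ 2 = (1 - D.th d) ^ n := by
  unfold rr
  have h2 := D.th_lt_one (d := d)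
  rw [pow_mul, Real.sq_sqrt (Real.sqrt_nonneg _), ← pow_mul, mul_comm n 2, pow_mul,
    Real.sq_sqrt (by linarith)]

/-- polynomial factor -/
noncomputable def pol (d n : ℕ) : ℝ := (2 * n + 1) ^ (d + 1)

lemma one_le_pol (d n : ℕ) : 1 ≤ pol d n := by
  unfold pol
  exact one_le_pow₀ (by have : (0:ℝ) ≤ n := by positivity
                        linarith)

lemma Kit_lvl_le (M : ℤ) (n : ℕ) (a : Cfg d A) (x : Site d) :
    D.Kit n (lvl M) a x ≤
      ENNReal.ofReal (pol d n * D.rr d ^ (2 * n) * Real.exp (D.lam * ((M : ℝ) - (x 0 : ℤ)))) := by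
  classical
  set box : Finset (Site d) := Finset.Icc (fun i => x i - (n : ℤ)) (fun i => x i + (n : ℤ))
    with hbox
  set g : Cfg d A → Site d → ℝ≥0∞ := fun _ y => if y 0 < M ∧ y ∈ box then 1 else 0 with hg
  have hmem : ∀ y : Site d, y ∈ box ↔ ∀ i, |y i - x i| ≤ (n : ℤ) := by
    intro y
    rw [hbox, Finset.mem_Icc]
    constructor
    · rintro ⟨h1, h2⟩ i
      have := h1 i; have := h2 i
      rw [abs_le]; constructor <;> linarith
    · intro h
      constructor
      · intro i; have := (abs_le.1 (h i)).1; simp only; linarith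
      · intro i; have := (abs_le.1 (h i)).2; simp only; linarith
  have h1 : D.Kit n (lvl M) a x = D.Kit n g a x := by
    refine D.Kit_range n _ _ a x fun a' y hy => ?_
    have := (hmem y).2 hy
    simp [lvl, hg, this]
  have hcard : (box.card : ℝ) = pol d n := by
    rw [hbox, Pi.card_Icc]
    simp only [Int.card_Icc]
    have : ∀ i : Fin (d + 1), (x i + (n : ℤ) + 1 - (x i - (n : ℤ))).toNat = 2 * n + 1 := by
      intro i; omega
    simp only [this, Finset.prod_const, Finset.card_univ, Fintype.card_fin]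
    unfold pol
    push_cast
    ring
  set B : ℝ≥0∞ := ENNReal.ofReal (pol d n * Real.exp (2 * D.lam * M)) with hBdef
  have hB : ∀ a, D.nrm (g a) ≤ B := by
    intro a'
    unfold nrm
    rw [tsum_eq_sum (s := box)]
    · have : ∀ y ∈ box, D.wt y * (g a' y) ^ 2 ≤ ENNReal.ofReal (Real.exp (2 * D.lam * M)) := by
        intro y _
        simp only [hg]
        split_ifs with h
        · rw [one_pow, mul_one]
          unfold wt
          refine ENNReal.ofReal_le_ofReal (Real.exp_le_exp.2 ?_)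
          have : ((y 0 : ℤ) : ℝ) ≤ M := by exact_mod_cast h.1.le
          have := D.hlam
          nlinarith
        · simp
      refine (Finset.sum_le_card_nsmul _ _ _ this).trans (le_of_eq ?_)
      rw [hBdef, nsmul_eq_mul, ENNReal.ofReal_mul (by linarith [one_le_pol d n]), ← hcard,
        ENNReal.ofReal_natCast]
    · intro y hy
      simp [hg, hy]
  have hgm : MF g := fun _ => measurable_const
  have hg1 : ∀ a x, g a x ≤ 1 := by
    intro a x; simp only [hg]; split_ifs <;> simp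
  have h2 := D.nrm_Kit hgm hg1 (B := B) ENNReal.ofReal_ne_top hB n a
  have h3 : D.wt x * (D.Kit n g a x) ^ 2 ≤ D.nrm (D.Kit n g a) :=
    ENNReal.le_tsum x
  have h4 := h3.trans h2
  have hth : 0 ≤ 1 - D.th d := by have := D.th_lt_one (d := d); linarith
  have hpol := one_le_pol d n
  have h5 : (D.Kit n g a x) ^ 2 ≤
      ENNReal.ofReal ((pol d n * D.rr d ^ (2 * n) *
        Real.exp (D.lam * ((M : ℝ) - (x 0 : ℤ)))) ^ 2) := by
    have h6 : D.wt x * (D.Kit n g a x) ^ 2 ≤ D.wt x *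
        ENNReal.ofReal ((pol d n * D.rr d ^ (2 * n) *
          Real.exp (D.lam * ((M : ℝ) - (x 0 : ℤ)))) ^ 2) := by
      refine h4.trans ?_
      rw [hBdef, ← ENNReal.ofReal_pow hth, ← ENNReal.ofReal_mul (by positivity)]
      unfold wt
      rw [← ENNReal.ofReal_mul (by positivity)]
      refine ENNReal.ofReal_le_ofReal ?_
      rw [mul_pow, mul_pow, rr_pow, ← Real.exp_nat_mul]
      have e1 : Real.exp (2 * D.lam * ((x 0 : ℤ) : ℝ)) *
          (pol d n ^ 2 * (1 - D.th d) ^ n *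
            Real.exp (((2 : ℕ) : ℝ) * (D.lam * ((M : ℝ) - (x 0 : ℤ))))) =
          pol d n ^ 2 * (1 - D.th d) ^ n * Real.exp (2 * D.lam * M) := by
        rw [mul_comm (Real.exp (2 * D.lam * ((x 0 : ℤ) : ℝ))), mul_assoc, ← Real.exp_add]
        congr 2
        push_cast
        ring
      rw [e1]
      have e2 : pol d n ≤ pol d n ^ 2 := by nlinarith
      have e3 : 0 ≤ (1 - D.th d) ^ n * Real.exp (2 * D.lam * M) := by positivity
      nlinarith
    exact (ENNReal.mul_le_mul_iff_right (D.wt_ne_zero x) (D.wt_ne_top x)).1 h6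
  rw [h1]
  rw [ENNReal.ofReal_pow (by have := D.rr_pos (d := d); positivity)] at h5
  exact (ENNReal.pow_le_pow_left_iff two_ne_zero).1 h5

end Dyn

end Pool.Agent.Helper90.SlowRefresh
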