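import Mathlib
import Pool.Agent.Helper90.SlowRefresh.Decay

open MeasureTheory ProbabilityTheory Filter
open scoped ENNReal Topology

namespace Pool.Agent.Helper90.SlowRefresh

variable {d : ℕ} {A : Type} [MeasurableSpace A]

/-- threshold constant -/
noncomputable def K0 (r lam : ℝ) : ℕ := ⌈lam / (-Real.log r)⌉₊

lemma K0_spec {r lam : ℝ} (h0 : 0 < r) (h1 : r < 1) (j n : ℕ) (hn : K0 r lam * j ≤ n) :
    r ^ n * Real.exp (lam * j) ≤ 1 := by
  have hl : 0 < -Real.log r := by have := Real.log_neg h0 h1; linarith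
  have h2 : lam / (-Real.log r) ≤ K0 r lam := Nat.le_ceil _
  rw [div_le_iff₀ hl] at h2
  have h3 : r ^ n = Real.exp (n * Real.log r) := by
    rw [Real.exp_nat_mul, Real.exp_log h0]
  rw [h3, ← Real.exp_add, Real.exp_le_one_iff]
  have h4 : ((K0 r lam : ℝ) * j) ≤ n := by exact_mod_cast hn
  have h5 : (K0 r lam : ℝ) * j * (-Real.log r) ≤ n * (-Real.log r) :=
    mul_le_mul_of_nonneg_right h4 hl.le
  have h6 : lam * j ≤ (K0 r lam : ℝ) * (-Real.log r) * j :=
    mul_le_mul_of_nonneg_right h2 (Nat.cast_nonneg j)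
  nlinarith

namespace Dyn

lemma summable_pol (d : ℕ) (k : ℕ) {r : ℝ} (h0 : 0 < r) (h1 : r < 1) :
    Summable fun n : ℕ => ((n : ℝ) + 3) ^ k * (pol d n * r ^ n) := by
  have h : ∀ n : ℕ, ((n : ℝ) + 3) ^ k * (pol d n * r ^ n) ≤
      2 ^ (d + 1) * (((n : ℝ) + 3) ^ (k + (d + 1)) * r ^ n) := by
    intro n
    unfold pol
    have e1 : (2 * (n : ℝ) + 1) ^ (d + 1) ≤ (2 * ((n : ℝ) + 3)) ^ (d + 1) :=
      pow_le_pow_left₀ (by positivity) (by linarith) _
    calc ((n : ℝ) + 3) ^ k * ((2 * (n : ℝ) + 1) ^ (d + 1) * r ^ n)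
        ≤ ((n : ℝ) + 3) ^ k * ((2 * ((n : ℝ) + 3)) ^ (d + 1) * r ^ n) := by gcongr
      _ = _ := by rw [mul_pow, pow_add]; ring
  refine Summable.of_nonneg_of_le (fun n => ?_) h ?_
  · have := one_le_pol d n
    positivity
  · refine Summable.mul_left _ ?_
    have h2 : Summable fun n : ℕ => ((n : ℝ)) ^ (k + (d + 1)) * r ^ n :=
      summable_pow_mul_geometric_of_norm_lt_one _ (by rw [Real.norm_eq_abs, abs_of_pos h0]; exact h1)
    have h3 := (summable_nat_add_iff 3).2 h2
    have h4 := h3.mul_left (r ^ 3)⁻¹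
    refine h4.congr fun n => ?_
    push_cast
    rw [pow_add r n 3]
    field_simp

/-- first constant -/
noncomputable def C1 (d : ℕ) (r lam : ℝ) : ℝ := K0 r lam + ∑' n : ℕ, pol d n * r ^ n

/-- second constant -/
noncomputable def C2 (d : ℕ) (r lam : ℝ) : ℝ :=
  Real.exp lam * ∑' n : ℕ, ((n : ℝ) + 3) * (pol d n * r ^ n)

lemma summable_pol0 (d : ℕ) {r : ℝ} (h0 : 0 < r) (h1 : r < 1) :
    Summable fun n : ℕ => pol d n * r ^ n := by
  simpa using summable_pol d 0 h0 h1

lemma summable_pol1 (d : ℕ) {r : ℝ} (h0 : 0 < r) (h1 : r < 1) :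
    Summable fun n : ℕ => ((n : ℝ) + 3) * (pol d n * r ^ n) := by
  simpa using summable_pol d 1 h0 h1

lemma pol_term_nonneg (d n : ℕ) {r : ℝ} (h0 : 0 < r) : 0 ≤ pol d n * r ^ n := by
  have := one_le_pol d n
  positivity

lemma C1_nonneg (d : ℕ) {r : ℝ} (h0 : 0 < r) (lam : ℝ) : 0 ≤ C1 d r lam := by
  unfold C1
  exact add_nonneg (Nat.cast_nonneg _) (tsum_nonneg fun n => pol_term_nonneg d n h0)

lemma C2_pos (d : ℕ) {r : ℝ} (h0 : 0 < r) (h1 : r < 1) (lam : ℝ) : 0 < C2 d r lam := by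
  unfold C2
  refine mul_pos (Real.exp_pos _) ?_
  refine (summable_pol1 d h0 h1).tsum_pos (fun n => ?_) 0 ?_
  · have := pol_term_nonneg d n h0; positivity
  · have := one_le_pol d 0; positivity

variable (D : Dyn A)

/-- truncated expected hitting time of level `M` -/
noncomputable def gT (M : ℤ) : ℕ → Cfg d A → Site d → ℝ≥0∞
  | 0 => fun _ _ => 0
  | n + 1 => fun a x => if x 0 < M then 1 + D.KK (gT M n) a x else 0

/-- probability of not having hit level `M` after `n` steps -/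
noncomputable def sv (M : ℤ) : ℕ → Cfg d A → Site d → ℝ≥0∞
  | 0 => fun _ x => if x 0 < M then 1 else 0
  | n + 1 => fun a x => if x 0 < M then D.KK (sv M n) a x else 0

lemma gT_MF (M : ℤ) (n : ℕ) : MF (D.gT (d := d) M n) := by
  induction n with
  | zero => exact fun _ => measurable_const
  | succ n ih =>
    intro x
    simp only [gT]
    split_ifs
    · exact (D.KK_MF ih x).const_add 1
    · exact measurable_const

lemma sv_MF (M : ℤ) (n : ℕ) : MF (D.sv (d := d) M n) := by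
  induction n with
  | zero => exact fun _ => measurable_const
  | succ n ih =>
    intro x
    simp only [sv]
    split_ifs
    · exact D.KK_MF ih x
    · exact measurable_const

lemma KK_add {f : Cfg d A → Site d → ℝ≥0∞} (hf : MF f) (g : Cfg d A → Site d → ℝ≥0∞)
    (a : Cfg d A) (x : Site d) :
    D.KK (fun a x => f a x + g a x) a x = D.KK f a x + D.KK g a x :=
  D.op_add (fun j x => D.coK_meas j x) hf g a x

lemma KK_const (r : ℝ≥0∞) (a : Cfg d A) (x : Site d) : D.KK (fun _ _ => r) a x = r :=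
  D.op_coK_const r a x

lemma KK_sum {ι : Type*} (s : Finset ι) {f : ι → Cfg d A → Site d → ℝ≥0∞} (hf : ∀ i, MF (f i))
    (a : Cfg d A) (x : Site d) :
    D.KK (fun a x => ∑ i ∈ s, f i a x) a x = ∑ i ∈ s, D.KK (f i) a x := by
  classical
  induction s using Finset.induction_on with
  | empty => simpa using D.KK_const 0 a x
  | insert i s hi ih =>
    simp only [Finset.sum_insert hi]
    rw [← ih]
    exact D.KK_add (hf i) _ a x

lemma gT_eq_sum (M : ℤ) (n : ℕ) (a : Cfg d A) (x : Site d) :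
    D.gT M n a x = ∑ j ∈ Finset.range n, D.sv M j a x := by
  induction n generalizing a x with
  | zero => simp [gT]
  | succ n ih =>
    rw [Finset.sum_range_succ']
    simp only [gT, sv]
    split_ifs with h
    · have : D.gT (d := d) M n = fun a x => ∑ j ∈ Finset.range n, D.sv M j a x := by
        funext a x; exact ih a x
      rw [this, D.KK_sum _ (fun j => D.sv_MF M j), add_comm]
    · simp

lemma gT_mono (M : ℤ) (a : Cfg d A) (x : Site d) : Monotone fun n => D.gT M n a x := by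
  intro n m h
  simp only [gT_eq_sum]
  exact Finset.sum_le_sum_of_subset (Finset.range_mono h)

/-- expected hitting time of level `M` -/
noncomputable def gg (M : ℤ) (a : Cfg d A) (x : Site d) : ℝ≥0∞ := ⨆ n, D.gT M n a x

lemma gg_MF (M : ℤ) : MF (D.gg (d := d) M) := fun x => Measurable.iSup fun n => D.gT_MF M n x

lemma gg_eq_tsum (M : ℤ) (a : Cfg d A) (x : Site d) : D.gg M a x = ∑' n, D.sv M n a x := by
  unfold gg
  simp only [gT_eq_sum]
  rw [ENNReal.tsum_eq_iSup_nat]

lemma KK_iSup {f : ℕ → Cfg d A → Site d → ℝ≥0∞} (hf : ∀ n, MF (f n))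
    (hm : ∀ a x, Monotone fun n => f n a x) (a : Cfg d A) (x : Site d) :
    D.KK (fun a x => ⨆ n, f n a x) a x = ⨆ n, D.KK (f n) a x :=
  D.op_iSup (fun j x => D.coK_meas j x) hf hm a x

lemma gg_of_ge {M : ℤ} {x : Site d} (h : M ≤ x 0) (a : Cfg d A) : D.gg M a x = 0 := by
  unfold gg
  refine ENNReal.iSup_eq_zero.2 fun n => ?_
  cases n with
  | zero => rfl
  | succ n => simp only [gT]; rw [if_neg (not_lt.2 h)]

lemma gT_of_ge {M : ℤ} {x : Site d} (h : M ≤ x 0) (n : ℕ) (a : Cfg d A) : D.gT M n a x = 0 := by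
  cases n with
  | zero => rfl
  | succ n => simp only [gT]; rw [if_neg (not_lt.2 h)]

lemma gg_of_lt {M : ℤ} {x : Site d} (h : x 0 < M) (a : Cfg d A) :
    D.gg M a x = 1 + D.KK (D.gg M) a x := by
  have h1 : D.KK (D.gg M) a x = ⨆ n, D.KK (D.gT M n) a x :=
    D.KK_iSup (fun n => D.gT_MF M n) (fun a x => D.gT_mono M a x) a x
  rw [h1, ENNReal.add_iSup]
  unfold gg
  apply le_antisymm
  · refine iSup_le fun n => ?_
    cases n with
    | zero => simp [gT]
    | succ n =>
      simp only [gT]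
      rw [if_pos h]
      exact le_iSup (fun n => 1 + D.KK (D.gT M n) a x) n
  · refine iSup_le fun n => ?_
    refine le_trans (le_of_eq ?_) (le_iSup (fun n => D.gT M n a x) (n + 1))
    simp only [gT]
    rw [if_pos h]

lemma gT_le_gg (M : ℤ) (n : ℕ) (a : Cfg d A) (x : Site d) : D.gT M n a x ≤ D.gg M a x :=
  le_iSup (fun n => D.gT M n a x) n

lemma sv_le_Kit (M : ℤ) (n : ℕ) (a : Cfg d A) (x : Site d) :
    D.sv M n a x ≤ D.Kit n (lvl M) a x := by
  induction n generalizing a x with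
  | zero => exact le_rfl
  | succ n ih =>
    simp only [sv]
    split_ifs
    · rw [Kit_succ]; exact D.KK_mono ih a x
    · exact zero_le

lemma sv_le_one (M : ℤ) (n : ℕ) (a : Cfg d A) (x : Site d) : D.sv M n a x ≤ 1 := by
  refine (D.sv_le_Kit M n a x).trans (D.Kit_le_one (fun a x => ?_) n a x)
  unfold lvl; split_ifs <;> simp

lemma Kit_le_level (M : ℤ) (n : ℕ) (a : Cfg d A) (x : Site d) {j : ℝ} (hj : (M : ℝ) - (x 0 : ℤ) ≤ j) :
    D.Kit n (lvl M) a x ≤ ENNReal.ofReal (pol d n * D.rr d ^ (2 * n) * Real.exp (D.lam * j)) := by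
  refine (D.Kit_lvl_le M n a x).trans (ENNReal.ofReal_le_ofReal ?_)
  have h1 := D.rr_pos (d := d)
  have h2 := one_le_pol d n
  have h3 := D.hlam
  gcongr

lemma sv_le_pol (M : ℤ) (n : ℕ) (a : Cfg d A) (x : Site d) {j : ℕ} (hj : M - x 0 ≤ j)
    (hn : K0 (D.rr d) D.lam * j ≤ n) : D.sv M n a x ≤ ENNReal.ofReal (pol d n * D.rr d ^ n) := by
  have h1 := D.rr_pos (d := d)
  refine (D.sv_le_Kit M n a x).trans ((D.Kit_le_level M n a x (j := j) ?_).trans
    (ENNReal.ofReal_le_ofReal ?_))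
  · exact_mod_cast hj
  · have h2 := K0_spec h1 D.rr_lt_one j n hn
    have h3 := one_le_pol d n
    rw [two_mul, pow_add]
    have h4 : 0 ≤ pol d n * D.rr d ^ n := by positivity
    calc pol d n * (D.rr d ^ n * D.rr d ^ n) * Real.exp (D.lam * j)
        = pol d n * D.rr d ^ n * (D.rr d ^ n * Real.exp (D.lam * j)) := by ring
      _ ≤ pol d n * D.rr d ^ n * 1 := by gcongr
      _ = _ := mul_one _

lemma gg_le (M : ℤ) (a : Cfg d A) (x : Site d) {j : ℕ} (hj : M - x 0 ≤ j) :
    D.gg M a x ≤ ENNReal.ofReal (C1 d (D.rr d) D.lam * ((j : ℝ) + 1)) := by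
  have h0 := D.rr_pos (d := d)
  have h1 := D.rr_lt_one (d := d)
  rw [gg_eq_tsum]
  have h2 : ∀ n, D.sv M n a x ≤ (if n < K0 (D.rr d) D.lam * j then 1 else 0) +
      ENNReal.ofReal (pol d n * D.rr d ^ n) := by
    intro n
    split_ifs with h
    · exact (D.sv_le_one M n a x).trans le_self_add
    · rw [zero_add]; exact D.sv_le_pol M n a x hj (not_lt.1 h)
  refine (ENNReal.tsum_le_tsum h2).trans ?_
  rw [ENNReal.tsum_add, ← ENNReal.ofReal_tsum_of_nonneg (fun n => pol_term_nonneg d n h0)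
    (summable_pol0 d h0 h1)]
  have h3 : ∑' n : ℕ, (if n < K0 (D.rr d) D.lam * j then (1 : ℝ≥0∞) else 0) =
      ENNReal.ofReal (K0 (D.rr d) D.lam * j : ℝ) := by
    rw [tsum_eq_sum (s := Finset.range (K0 (D.rr d) D.lam * j))]
    · rw [Finset.sum_congr rfl (g := fun _ => (1 : ℝ≥0∞)) (fun n hn => by
        rw [if_pos (Finset.mem_range.1 hn)])]
      simp only [Finset.sum_const, Finset.card_range, nsmul_eq_mul, mul_one]
      rw [← ENNReal.ofReal_natCast]
      push_cast
      rfl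
    · intro n hn
      rw [if_neg (by simpa using hn)]
  rw [h3, ← ENNReal.ofReal_add (by positivity) (tsum_nonneg fun n => pol_term_nonneg d n h0)]
  refine ENNReal.ofReal_le_ofReal ?_
  unfold C1
  have h4 : 0 ≤ ∑' n : ℕ, pol d n * D.rr d ^ n := tsum_nonneg fun n => pol_term_nonneg d n h0
  have h5 : (0 : ℝ) ≤ K0 (D.rr d) D.lam := Nat.cast_nonneg _
  have h6 : (0 : ℝ) ≤ j := Nat.cast_nonneg _
  nlinarith [mul_nonneg h4 h6]

/-- `b0` as a function on configurations and sites -/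
noncomputable def bf : Cfg d A → Site d → ℝ≥0∞ := fun _ x => D.b0 x

lemma bf_MF : MF (D.bf (d := d)) := fun _ => measurable_const

lemma b0_le_one (x : Site d) : D.b0 x ≤ 1 := by
  unfold b0
  split_ifs
  · rw [← ENNReal.ofReal_one]
    refine ENNReal.ofReal_le_ofReal ?_
    rw [div_le_one (nd_pos d)]
    have := D.am_le_half (d := d)
    have := nd_ge d
    linarith
  · simp

lemma bf_le (a : Cfg d A) (x : Site d) : D.bf a x ≤ lvl 1 a x := by
  unfold bf lvl
  split_ifs with h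
  · exact D.b0_le_one x
  · unfold b0
    rw [if_neg (by omega)]

lemma Kit_mono {f g : Cfg d A → Site d → ℝ≥0∞} (h : ∀ a x, f a x ≤ g a x) (n : ℕ) (a : Cfg d A)
    (x : Site d) : D.Kit n f a x ≤ D.Kit n g a x := by
  induction n generalizing a x with
  | zero => exact h a x
  | succ n ih => rw [Kit_succ, Kit_succ]; exact D.KK_mono ih a x

lemma Kit_bf_sum_le (N : ℕ) (a : Cfg d A) (x : Site d) :
    ∑ n ∈ Finset.range N, ((n : ℝ≥0∞) + 3) * D.Kit n D.bf a x ≤
      ENNReal.ofReal (C2 d (D.rr d) D.lam * Real.exp (-(D.lam * (x 0 : ℤ)))) := by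
  have h0 := D.rr_pos (d := d)
  have h1 := D.rr_lt_one (d := d)
  have hs := summable_pol1 d h0 h1
  have hnn : ∀ n : ℕ, 0 ≤ ((n : ℝ) + 3) * (pol d n * D.rr d ^ n) := fun n => by
    have := pol_term_nonneg d n h0; positivity
  have h2 : ∀ n : ℕ, ((n : ℝ≥0∞) + 3) * D.Kit n D.bf a x ≤
      ENNReal.ofReal (Real.exp D.lam * Real.exp (-(D.lam * (x 0 : ℤ)))) *
        ENNReal.ofReal (((n : ℝ) + 3) * (pol d n * D.rr d ^ n)) := by
    intro n
    have h3 : D.Kit n D.bf a x ≤ ENNReal.ofReal (pol d n * D.rr d ^ n *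
        (Real.exp D.lam * Real.exp (-(D.lam * (x 0 : ℤ))))) := by
      refine (D.Kit_mono (fun a x => D.bf_le a x) n a x).trans
        ((D.Kit_lvl_le 1 n a x).trans (ENNReal.ofReal_le_ofReal ?_))
      rw [← Real.exp_add]
      have e1 : D.lam * (((1 : ℤ) : ℝ) - (x 0 : ℤ)) = D.lam + -(D.lam * (x 0 : ℤ)) := by
        push_cast; ring
      rw [e1]
      have h4 : D.rr d ^ (2 * n) ≤ D.rr d ^ n := by
        exact pow_le_pow_of_le_one h0.le h1.le (by omega)
      have h5 := one_le_pol d n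
      gcongr
    have h6 : ((n : ℝ≥0∞) + 3) = ENNReal.ofReal ((n : ℝ) + 3) := by
      rw [ENNReal.ofReal_add (by positivity) (by positivity)]
      simp
    rw [h6]
    refine (mul_le_mul_right h3 _).trans (le_of_eq ?_)
    rw [← ENNReal.ofReal_mul (by positivity), ← ENNReal.ofReal_mul (by positivity)]
    congr 1
    ring
  refine (Finset.sum_le_sum fun n _ => h2 n).trans ?_
  refine (ENNReal.sum_le_tsum _).trans ?_
  rw [ENNReal.tsum_mul_left, ← ENNReal.ofReal_tsum_of_nonneg hnn hs,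
    ← ENNReal.ofReal_mul (by positivity)]
  refine ENNReal.ofReal_le_ofReal (le_of_eq ?_)
  unfold C2
  ring

end Dyn

end Pool.Agent.Helper90.SlowRefresh
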