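import Mathlib
import Pool.Agent.Helper90.SlowRefresh.Hit

open MeasureTheory ProbabilityTheory Filter
open scoped ENNReal Topology

namespace Pool.Agent.Helper90.SlowRefresh

set_option linter.unusedSectionVars false

variable {d : ℕ} {A : Type} [MeasurableSpace A]

/-- configuration equal to `a` on edges touching a level `< L` and to `r` elsewhere -/
noncomputable def splice (L : ℤ) (a r : Cfg d A) : Cfg d A := fun e => if L ≤ e.1 0 then r e else a e

lemma splice_edgeAt {L : ℤ} {x : Site d} (h : x 0 < L) (a r : Cfg d A) (δ : Dir d) :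
    splice L a r (edgeAt x δ) = a (edgeAt x δ) := by
  unfold splice
  rw [if_neg]
  unfold edgeAt
  rw [not_le]
  by_cases hb : δ.2 = true
  · simp only [hb, if_true]; exact h
  · simp only [hb, if_false, Bool.false_eq_true, Pi.sub_apply]
    by_cases h0 : δ.1 = 0
    · rw [h0]; simp; omega
    · rw [Pi.single_eq_of_ne (Ne.symm h0)]; simpa using h

lemma splice_splice {L L' : ℤ} (h : L ≤ L') (a r r' : Cfg d A) :
    splice L' (splice L a r) r' = splice L a (splice L' r r') := by
  funext e
  unfold splice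
  by_cases h1 : L' ≤ e.1 0
  · have h2 : L ≤ e.1 0 := h.trans h1
    simp [h1, h2]
  · simp [h1]

lemma splice_measurable (L : ℤ) : Measurable (fun p : Cfg d A × Cfg d A => splice L p.1 p.2) := by
  refine measurable_pi_lambda _ fun e => ?_
  unfold splice
  by_cases h : L ≤ e.1 0
  · simp only [h, if_true]; exact (measurable_pi_apply e).comp measurable_snd
  · simp only [h, if_false]; exact (measurable_pi_apply e).comp measurable_fst

/-- shift of the configuration by a lattice vector -/
def trs (y : Site d) (a : Cfg d A) : Cfg d A := fun e => a (e.1 + y, e.2)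

lemma edgeAt_add (x y : Site d) (δ : Dir d) :
    edgeAt (x + y) δ = ((edgeAt x δ).1 + y, (edgeAt x δ).2) := by
  unfold edgeAt
  by_cases hb : δ.2 = true
  · simp [hb]
  · simp only [hb, if_false, Bool.false_eq_true]
    congr 1
    abel

lemma trs_splice (x : Site d) (L : ℤ) (a r : Cfg d A) :
    trs x (splice (L + x 0) a r) = splice L (trs x a) (trs x r) := by
  funext e
  unfold trs splice
  by_cases h : L ≤ e.1 0
  · have h' : L + x 0 ≤ (e.1 + x) 0 := by simp only [Pi.add_apply]; omega
    simp only [h, h', if_true]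
  · have h' : ¬ L + x 0 ≤ (e.1 + x) 0 := by simp only [Pi.add_apply]; omega
    simp only [h, h', if_false]

namespace Dyn

variable (D : Dyn A)

lemma sh_splice (s : ℝ) (L : ℤ) (a r : Cfg d A) :
    D.sh s (splice L a r) = splice L (D.sh s a) (D.sh s r) := by
  funext e
  unfold sh splice
  split_ifs <;> rfl

lemma sh_trs (s : ℝ) (y : Site d) (a : Cfg d A) : D.sh s (trs y a) = trs y (D.sh s a) := rfl

lemma map_splice (L : ℤ) :
    Measure.map (fun p : Cfg d A × Cfg d A => splice L p.1 p.2) (D.PE.prod D.PE) = D.PE := by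
  unfold PE
  refine Measure.eq_infinitePi _ fun s t ht => ?_
  rw [Measure.map_apply (splice_measurable L) (.pi s.countable_toSet fun _ _ => ht _)]
  classical
  have h1 : (fun p : Cfg d A × Cfg d A => splice L p.1 p.2) ⁻¹' ((s : Set (Edge d)).pi t) =
      ((s.filter fun e => ¬ L ≤ e.1 0 : Finset (Edge d)) : Set (Edge d)).pi t ×ˢ
      ((s.filter fun e => L ≤ e.1 0 : Finset (Edge d)) : Set (Edge d)).pi t := by
    ext p
    simp only [Set.mem_preimage, Set.mem_pi, Set.mem_prod, Finset.coe_filter, Finset.mem_coe, Set.mem_ofPred_eq]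
    constructor
    · intro h
      refine ⟨fun e he => ?_, fun e he => ?_⟩
      · have := h e he.1
        unfold splice at this
        rwa [if_neg he.2] at this
      · have := h e he.1
        unfold splice at this
        rwa [if_pos he.2] at this
    · rintro ⟨h2, h3⟩ e he
      unfold splice
      by_cases hL : L ≤ e.1 0
      · rw [if_pos hL]; exact h3 e ⟨he, hL⟩
      · rw [if_neg hL]; exact h2 e ⟨he, hL⟩
  rw [h1, Measure.prod_prod, Measure.infinitePi_pi _ (fun i _ => ht i),
    Measure.infinitePi_pi _ (fun i _ => ht i), mul_comm]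
  exact Finset.prod_filter_mul_prod_filter_not s _ _

lemma lintegral_splice (L : ℤ) {f : Cfg d A → ℝ≥0∞} (hf : Measurable f) :
    ∫⁻ a, ∫⁻ r, f (splice L a r) ∂D.PE ∂D.PE = ∫⁻ a, f a ∂D.PE := by
  have h1 : ∫⁻ a, f a ∂D.PE =
      ∫⁻ p, f (splice L p.1 p.2) ∂(D.PE.prod D.PE) := by
    conv_lhs => rw [← D.map_splice L]
    rw [lintegral_map hf (splice_measurable L)]
  have h2 : Measurable fun p : Cfg d A × Cfg d A => f (splice L p.1 p.2) :=
    hf.comp (splice_measurable L)
  rw [h1, lintegral_prod _ h2.aemeasurable]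

lemma trs_mp (y : Site d) : MeasurePreserving (fun a : Cfg d A => trs y a) D.PE D.PE := by
  have hm : Measurable (fun a : Cfg d A => trs y a) :=
    measurable_pi_lambda _ fun e => measurable_pi_apply _
  refine ⟨hm, ?_⟩
  unfold PE
  refine Measure.eq_infinitePi _ fun s t ht => ?_
  rw [Measure.map_apply hm (.pi s.countable_toSet fun _ _ => ht _)]
  classical
  have h1 : (fun a : Cfg d A => trs y a) ⁻¹' ((s : Set (Edge d)).pi t) =
      ((s.image fun e => (e.1 + y, e.2) : Finset (Edge d)) : Set (Edge d)).pi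
        (fun e => t (e.1 - y, e.2)) := by
    ext a
    simp only [Set.mem_preimage, Set.mem_pi, Finset.coe_image, Set.mem_image, Finset.mem_coe]
    constructor
    · rintro h _ ⟨e, he, rfl⟩
      simpa [trs] using h e he
    · intro h e he
      have := h (e.1 + y, e.2) ⟨e, he, rfl⟩
      simpa [trs] using this
  rw [h1, Measure.infinitePi_pi _ (fun i _ => ht _), Finset.prod_image]
  · simp
  · intro e _ e' _ h
    simp only [Prod.mk.injEq, add_left_inj] at h
    exact Prod.ext h.1 h.2

/-- average over the half space of levels `≥ L` -/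
noncomputable def RL (L : ℤ) (f : Cfg d A → Site d → ℝ≥0∞) : Cfg d A → Site d → ℝ≥0∞ :=
  fun a x => ∫⁻ r, f (splice L a r) x ∂D.PE

lemma splice_meas_right (L : ℤ) (a : Cfg d A) : Measurable (fun r : Cfg d A => splice L a r) :=
  (splice_measurable L).comp (measurable_const.prodMk measurable_id)

lemma RL_MF (L : ℤ) {f : Cfg d A → Site d → ℝ≥0∞} (hf : MF f) : MF (D.RL L f) := by
  intro x
  exact ((hf x).comp (splice_measurable L)).lintegral_prod_right'

lemma RL_mono (L : ℤ) {f g : Cfg d A → Site d → ℝ≥0∞} (x : Site d) (h : ∀ a, f a x ≤ g a x)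
    (a : Cfg d A) : D.RL L f a x ≤ D.RL L g a x :=
  lintegral_mono fun _ => h _

lemma RL_congr (L : ℤ) {f g : Cfg d A → Site d → ℝ≥0∞} (x : Site d) (h : ∀ a, f a x = g a x)
    (a : Cfg d A) : D.RL L f a x = D.RL L g a x :=
  lintegral_congr fun _ => h _

lemma RL_const (L : ℤ) (r : ℝ≥0∞) (a : Cfg d A) (x : Site d) : D.RL L (fun _ _ => r) a x = r := by
  unfold RL; simp

lemma RL_add (L : ℤ) {f : Cfg d A → Site d → ℝ≥0∞} (hf : MF f) (g : Cfg d A → Site d → ℝ≥0∞)
    (a : Cfg d A) (x : Site d) :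
    D.RL L (fun a x => f a x + g a x) a x = D.RL L f a x + D.RL L g a x := by
  have h : Measurable fun r : Cfg d A => f (splice L a r) x :=
    (hf x).comp (splice_meas_right L a)
  exact lintegral_add_left h _

lemma RL_const_mul (L : ℤ) {f : Cfg d A → Site d → ℝ≥0∞} (hf : MF f) (r : ℝ≥0∞)
    (a : Cfg d A) (x : Site d) :
    D.RL L (fun a x => r * f a x) a x = r * D.RL L f a x := by
  have h : Measurable fun r : Cfg d A => f (splice L a r) x :=
    (hf x).comp (splice_meas_right L a)
  exact lintegral_const_mul _ h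

lemma RL_iSup (L : ℤ) {f : ℕ → Cfg d A → Site d → ℝ≥0∞} (hf : ∀ n, MF (f n))
    (hm : ∀ a x, Monotone fun n => f n a x) (a : Cfg d A) (x : Site d) :
    D.RL L (fun a x => ⨆ n, f n a x) a x = ⨆ n, D.RL L (f n) a x := by
  have h : ∀ n, Measurable fun r : Cfg d A => f n (splice L a r) x := fun n =>
    (hf n x).comp (splice_meas_right L a)
  exact lintegral_iSup h (fun n m hnm r => hm _ _ hnm)

lemma RL_RL {L L' : ℤ} (h : L ≤ L') {f : Cfg d A → Site d → ℝ≥0∞} (hf : MF f) (a : Cfg d A)
    (x : Site d) : D.RL L (D.RL L' f) a x = D.RL L f a x := by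
  unfold RL
  have h1 : ∀ r : Cfg d A, ∫⁻ r', f (splice L' (splice L a r) r') x ∂D.PE =
      ∫⁻ r', f (splice L a (splice L' r r')) x ∂D.PE := by
    intro r
    simp only [splice_splice h]
  simp only [h1]
  exact D.lintegral_splice L' (f := fun r => f (splice L a r) x)
    ((hf x).comp (splice_meas_right L a))

/-- a coefficient family is local below `L` if it does not see the half space `≥ L` -/
def Loc (L : ℤ) (x : Site d) (co : Option (Dir d) → Cfg d A → Site d → ℝ≥0∞) : Prop :=
  ∀ j a r, co j (splice L a r) x = co j a x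

lemma pr_splice {L : ℤ} {x : Site d} (h : x 0 < L) (a r : Cfg d A) (δ : Dir d) :
    D.pr (splice L a r) x δ = D.pr a x δ := by
  unfold pr
  rw [splice_edgeAt h]

lemma coK_loc {L : ℤ} {x : Site d} (h : x 0 < L) : Loc L x (D.coK (d := d)) := by
  intro j a r
  cases j <;> simp [coK, D.pr_splice h]

lemma coG_loc {L : ℤ} {x : Site d} (h : x 0 < L) : Loc L x (D.coG (d := d)) := by
  intro j a r
  cases j <;> simp [coG, D.pr_splice h]

lemma coB_loc {L : ℤ} {x : Site d} (h : x 0 < L) : Loc L x (D.coB (d := d)) := by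
  intro j a r
  cases j <;> simp [coB, D.pr_splice h]

lemma RL_op {L : ℤ} {x : Site d} {co : Option (Dir d) → Cfg d A → Site d → ℝ≥0∞}
    (hco : MC co) (hloc : Loc L x co) {f : Cfg d A → Site d → ℝ≥0∞} (hf : MF f) (a : Cfg d A) :
    D.RL L (D.op co f) a x = D.op co (D.RL L f) a x := by
  unfold RL op
  have hm : Measurable (fun p : Cfg d A × ℝ => ∑ j, co j (D.sh p.2 (splice L a p.1)) x *
      f (D.sh p.2 (splice L a p.1)) (x + disp j)) :=
    (D.op_integrand_meas hco hf x).comp
      (measurable_snd.prodMk ((splice_meas_right L a).comp measurable_fst))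
  rw [lintegral_lintegral_swap hm.aemeasurable]
  refine lintegral_congr fun s => ?_
  have h1 : ∀ r : Cfg d A, ∑ j, co j (D.sh s (splice L a r)) x *
      f (D.sh s (splice L a r)) (x + disp j) =
      ∑ j, co j (D.sh s a) x * f (splice L (D.sh s a) (D.sh s r)) (x + disp j) := by
    intro r
    refine Finset.sum_congr rfl fun j _ => ?_
    rw [sh_splice, hloc]
  simp only [h1]
  have h2 : ∀ j : Option (Dir d), Measurable fun r : Cfg d A =>
      f (splice L (D.sh s a) (D.sh s r)) (x + disp j) := fun j =>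
    (hf _).comp ((splice_meas_right L _).comp (D.sh_measurable' s))
  rw [lintegral_finsetSum _ (fun j _ => (h2 j).const_mul _)]
  refine Finset.sum_congr rfl fun j _ => ?_
  rw [lintegral_const_mul _ (h2 j)]
  congr 1
  exact (D.sh_mp s).lintegral_comp ((hf _).comp (splice_meas_right L _))

lemma RL_KK {L : ℤ} {x : Site d} (h : x 0 < L) {f : Cfg d A → Site d → ℝ≥0∞} (hf : MF f)
    (a : Cfg d A) : D.RL L (D.KK f) a x = D.KK (D.RL L f) a x :=
  D.RL_op (fun j x => D.coK_meas j x) (D.coK_loc h) hf a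

/-- translation covariance of an operator with coefficients `coK` -/
lemma pr_trs (a : Cfg d A) (x y : Site d) (δ : Dir d) : D.pr (trs y a) x δ = D.pr a (x + y) δ := by
  unfold pr trs
  rw [edgeAt_add]

lemma coK_trs (j : Option (Dir d)) (a : Cfg d A) (x y : Site d) :
    D.coK j (trs y a) x = D.coK j a (x + y) := by
  cases j <;> simp [coK, D.pr_trs]

lemma gT_trs (M : ℤ) (n : ℕ) (a : Cfg d A) (x y : Site d) :
    D.gT M n (trs y a) x = D.gT (M + y 0) n a (x + y) := by
  induction n generalizing a x with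
  | zero => rfl
  | succ n ih =>
    simp only [gT]
    have h1 : (x 0 < M) ↔ ((x + y) 0 < M + y 0) := by simp only [Pi.add_apply]; omega
    by_cases h : x 0 < M
    · rw [if_pos h, if_pos (h1.1 h)]
      congr 1
      unfold KK op
      refine lintegral_congr fun s => Finset.sum_congr rfl fun j _ => ?_
      rw [sh_trs, coK_trs, ih, add_right_comm]
    · rw [if_neg h, if_neg (fun h' => h (h1.2 h'))]

lemma gg_trs (M : ℤ) (a : Cfg d A) (x y : Site d) :
    D.gg M (trs y a) x = D.gg (M + y 0) a (x + y) := by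
  unfold gg
  simp only [gT_trs]

/-- half-space averages of `gg` at a point of the boundary level -/
lemma RL_gg_eq (L M : ℤ) (a : Cfg d A) (x : Site d) (hx : x 0 = L) :
    D.RL L (D.gg M) a x = D.RL 0 (D.gg (M - L)) (trs x a) 0 := by
  unfold RL
  have h1 : ∀ r : Cfg d A, D.gg M (splice L a r) x =
      D.gg (M - L) (splice 0 (trs x a) (trs x r)) 0 := by
    intro r
    have h2 := trs_splice x 0 a r
    rw [zero_add, hx] at h2
    rw [← h2, gg_trs, zero_add, hx, sub_add_cancel]
  simp only [h1]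
  exact (D.trs_mp x).lintegral_comp (f := fun r => D.gg (M - L) (splice 0 (trs x a) r) 0)
    ((D.gg_MF _ _).comp (splice_meas_right 0 _))

/-- supremum and infimum over the left environment -/
noncomputable def hi (d : ℕ) (k : ℤ) : ℝ≥0∞ := ⨆ a : Cfg d A, D.RL 0 (D.gg k) a 0
noncomputable def lo (d : ℕ) (k : ℤ) : ℝ≥0∞ := ⨅ a : Cfg d A, D.RL 0 (D.gg k) a 0
/-- fully averaged hitting time -/
noncomputable def hh (d : ℕ) (k : ℤ) : ℝ≥0∞ := ∫⁻ a : Cfg d A, D.gg k a 0 ∂D.PE

lemma RL_gg_le_hi (L M : ℤ) (a : Cfg d A) (x : Site d) (hx : x 0 = L) :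
    D.RL L (D.gg M) a x ≤ D.hi d (M - L) := by
  rw [D.RL_gg_eq L M a x hx]
  exact le_iSup (fun a : Cfg d A => D.RL 0 (D.gg (M - L)) a 0) (trs x a)

lemma lo_le_RL_gg (L M : ℤ) (a : Cfg d A) (x : Site d) (hx : x 0 = L) :
    D.lo d (M - L) ≤ D.RL L (D.gg M) a x := by
  rw [D.RL_gg_eq L M a x hx]
  exact iInf_le (fun a : Cfg d A => D.RL 0 (D.gg (M - L)) a 0) (trs x a)

lemma hh_eq (k : ℤ) : D.hh d k = ∫⁻ a : Cfg d A, D.RL 0 (D.gg k) a 0 ∂D.PE :=
  (D.lintegral_splice 0 (D.gg_MF k 0)).symm

lemma hh_eq' (L k : ℤ) : D.hh d k = ∫⁻ a : Cfg d A, D.RL L (D.gg k) a 0 ∂D.PE :=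
  (D.lintegral_splice L (D.gg_MF k 0)).symm

lemma lo_le_hh (k : ℤ) : D.lo d k ≤ D.hh d k := by
  rw [hh_eq]
  calc D.lo d k = ∫⁻ _a : Cfg d A, D.lo d k ∂D.PE := by simp
    _ ≤ _ := lintegral_mono fun a => iInf_le _ a

lemma hh_le_hi (k : ℤ) : D.hh d k ≤ D.hi d k := by
  rw [hh_eq]
  calc _ ≤ ∫⁻ _a : Cfg d A, D.hi d k ∂D.PE :=
        lintegral_mono fun a => le_iSup (fun a : Cfg d A => D.RL 0 (D.gg k) a 0) a
    _ = _ := by simp

end Dyn

end Pool.Agent.Helper90.SlowRefresh
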