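import Mathlib
import Pool.Agent.Helper90.SlowRefresh.Half

open MeasureTheory ProbabilityTheory Filter
open scoped ENNReal Topology

namespace Pool.Agent.Helper90.SlowRefresh

set_option linter.unusedSectionVars false

variable {d : ℕ} {A : Type} [MeasurableSpace A]

namespace Dyn

variable (D : Dyn A)

/-- functional of the walk killed at its first bad ring: running cost `α`, terminal cost `Φ L`
where `L` is the lowest fresh level -/
noncomputable def GG (M : ℤ) (α : ℝ≥0∞) (Φ : ℤ → ℝ≥0∞) : ℕ → ℤ → Cfg d A → Site d → ℝ≥0∞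
  | 0 => fun _ _ _ => 0
  | n + 1 => fun L a x => if x 0 < M then
      α + D.op D.coG (fun a' x' => GG M α Φ n (max L (x' 0 + 1)) a' x') a x + D.b0 x * Φ L else 0

lemma GG_MF (M : ℤ) (α : ℝ≥0∞) (Φ : ℤ → ℝ≥0∞) (n : ℕ) (L : ℤ) :
    MF (D.GG (d := d) M α Φ n L) := by
  induction n generalizing L with
  | zero => exact fun _ => measurable_const
  | succ n ih =>
    intro x
    simp only [GG]
    split_ifs
    · refine Measurable.add_const (Measurable.const_add ?_ _) _
      exact D.op_MF (fun j x => D.coG_meas j x) (fun x' => ih _ x') x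
    · exact measurable_const

lemma HH_MF (M : ℤ) (α : ℝ≥0∞) (Φ : ℤ → ℝ≥0∞) (n : ℕ) (L : ℤ) :
    MF (fun (a' : Cfg d A) x' => D.GG M α Φ n (max L (x' 0 + 1)) a' x') :=
  fun x' => D.GG_MF M α Φ n _ x'

lemma KK_eq_add {f : Cfg d A → Site d → ℝ≥0∞} (hf : MF f) (a : Cfg d A) (x : Site d) :
    D.KK f a x = D.op D.coG f a x + D.op D.coB f a x := D.op_coK hf a x

lemma coB_ne {j : Option (Dir d)} {a : Cfg d A} {x : Site d} (h : D.coB j a x ≠ 0) :
    x 0 = 0 ∧ ((x + disp j) 0 = 0 ∨ (x + disp j) 0 = -1) := by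
  cases j with
  | none =>
    simp only [coB] at h
    by_cases hx : x 0 = 0
    · exact ⟨hx, Or.inl (by simp [disp, hx])⟩
    · rw [if_neg hx] at h; exact absurd rfl h
  | some δ =>
    simp only [coB] at h
    by_cases hx : x 0 = 0 ∧ δ = dn
    · refine ⟨hx.1, Or.inr ?_⟩
      simp [disp, hx.1, hx.2, stepVec_dn]
    · rw [if_neg hx] at h; exact absurd rfl h

lemma coG_ne {j : Option (Dir d)} {a : Cfg d A} {x : Site d} (hx : 0 ≤ x 0)
    (h : D.coG j a x ≠ 0) : 0 ≤ (x + disp j) 0 := by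
  cases j with
  | none => simpa [disp] using hx
  | some δ =>
    simp only [coG] at h
    by_cases hc : x 0 = 0 ∧ δ = dn
    · rw [if_pos hc] at h; exact absurd rfl h
    · simp only [disp, Pi.add_apply]
      by_cases hδ : δ = dn
      · subst hδ
        rw [stepVec_dn]
        have : x 0 ≠ 0 := fun h0 => hc ⟨h0, rfl⟩
        omega
      · have := stepVec_ne δ hδ
        omega

lemma disp_le (j : Option (Dir d)) (x : Site d) : (x + disp j) 0 ≤ x 0 + 1 := by
  have := (abs_le.1 (abs_disp_le j 0)).2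
  simp only [Pi.add_apply]; omega

lemma RL_const_add (L : ℤ) (r : ℝ≥0∞) (g : Cfg d A → Site d → ℝ≥0∞) (a : Cfg d A) (x : Site d) :
    D.RL L (fun a x => r + g a x) a x = r + D.RL L g a x := by
  have h := D.RL_add L (f := fun _ _ => r) (fun _ => measurable_const) g a x
  simpa [D.RL_const] using h

lemma RL_gT_succ {L M : ℤ} (n : ℕ) (a : Cfg d A) (x : Site d) (h1 : x 0 < L) (h2 : x 0 < M) :
    D.RL L (D.gT M (n + 1)) a x = 1 + D.KK (D.RL L (D.gT M n)) a x := by
  have h3 : D.RL L (D.gT M (n + 1)) a x =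
      D.RL L (fun a x => 1 + D.KK (D.gT M n) a x) a x :=
    D.RL_congr L x (fun a' => by simp only [gT]; rw [if_pos h2]) a
  rw [h3, D.RL_const_add, D.RL_KK h1 (D.gT_MF M n)]

lemma RL_gg_succ {L M : ℤ} (a : Cfg d A) (x : Site d) (h1 : x 0 < L) (h2 : x 0 < M) :
    D.RL L (D.gg M) a x = 1 + D.KK (D.RL L (D.gg M)) a x := by
  have h3 : D.RL L (D.gg M) a x =
      D.RL L (fun a x => 1 + D.KK (D.gg M) a x) a x :=
    D.RL_congr L x (fun a' => D.gg_of_lt h2 a') a
  rw [h3, D.RL_const_add, D.RL_KK h1 (D.gg_MF M)]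

lemma RL_GG_succ {L M : ℤ} (α : ℝ≥0∞) (Φ : ℤ → ℝ≥0∞) (n : ℕ) (a : Cfg d A) (x : Site d)
    (h1 : x 0 < L) (h2 : x 0 < M) :
    D.RL L (D.GG M α Φ (n + 1) L) a x =
      α + D.op D.coG (D.RL L (fun a' x' => D.GG M α Φ n (max L (x' 0 + 1)) a' x')) a x
        + D.b0 x * Φ L := by
  have h3 : D.RL L (D.GG M α Φ (n + 1) L) a x =
      D.RL L (fun a x => (α + D.b0 x * Φ L) +
        D.op D.coG (fun a' x' => D.GG M α Φ n (max L (x' 0 + 1)) a' x') a x) a x :=
    D.RL_congr L x (fun a' => by simp only [GG]; rw [if_pos h2]; ring) a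
  rw [h3]
  have h4 : D.RL L (fun a x' => (α + D.b0 x' * Φ L) +
        D.op D.coG (fun a' x' => D.GG M α Φ n (max L (x' 0 + 1)) a' x') a x') a x =
      D.RL L (fun a x' => (α + D.b0 x * Φ L) +
        D.op D.coG (fun a' x' => D.GG M α Φ n (max L (x' 0 + 1)) a' x') a x') a x := rfl
  rw [h4, D.RL_const_add, D.RL_op (fun j x => D.coG_meas j x) (D.coG_loc h1)
    (D.HH_MF M α Φ n L)]
  ring

lemma upper (M : ℤ) (Φ : ℤ → ℝ≥0∞)
    (hΦ : ∀ L, 1 ≤ L → L ≤ M → ∀ (a : Cfg d A) (y : Site d), (y 0 = 0 ∨ y 0 = -1) →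
      D.RL L (D.gg M) a y ≤ Φ L) (n : ℕ) :
    ∀ (L : ℤ) (a : Cfg d A) (x : Site d), 0 ≤ x 0 → x 0 < L → L ≤ M →
      D.RL L (D.gT M n) a x ≤ D.RL L (D.GG M 1 Φ n L) a x := by
  induction n with
  | zero =>
    intro L a x _ _ _
    exact D.RL_mono L x (fun a => by simp [gT]) a
  | succ n ih =>
    intro L a x h0 h1 h2
    have h3 : x 0 < M := lt_of_lt_of_le h1 h2
    rw [D.RL_gT_succ n a x h1 h3, D.RL_GG_succ 1 Φ n a x h1 h3,
      D.KK_eq_add (D.RL_MF L (D.gT_MF M n)), add_assoc]
    refine add_le_add_right (add_le_add ?_ ?_) _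
    · refine D.op_mono' _ a x fun a' j hj => ?_
      have hx0 := D.coG_ne h0 hj
      have hx1 := disp_le j x
      set x' := x + disp j with hx'
      rcases lt_or_ge (x' 0) L with hlt | hge
      · have e : max L (x' 0 + 1) = L := by omega
        have : D.RL L (fun a' x' => D.GG M 1 Φ n (max L (x' 0 + 1)) a' x') a' x' =
            D.RL L (D.GG M 1 Φ n L) a' x' :=
          D.RL_congr L x' (fun a'' => by rw [e]) a'
        rw [this]
        exact ih L a' x' hx0 hlt h2
      · have e0 : x' 0 = L := by omega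
        have e : max L (x' 0 + 1) = L + 1 := by omega
        rcases lt_or_ge L M with hLM | hLM
        · have : D.RL L (fun a' x' => D.GG M 1 Φ n (max L (x' 0 + 1)) a' x') a' x' =
              D.RL L (D.GG M 1 Φ n (L + 1)) a' x' :=
            D.RL_congr L x' (fun a'' => by rw [e]) a'
          rw [this, ← D.RL_RL (L' := L + 1) (by omega) (D.gT_MF M n),
            ← D.RL_RL (L' := L + 1) (by omega) (D.GG_MF M 1 Φ n (L + 1))]
          exact D.RL_mono L x' (fun a'' => ih (L + 1) a'' x' hx0 (by omega) (by omega)) a'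
        · have : D.RL L (D.gT M n) a' x' = D.RL L (fun _ _ => 0) a' x' :=
            D.RL_congr L x' (fun a'' => D.gT_of_ge (by omega) n a'') a'
          rw [this, D.RL_const]
          exact zero_le
    · have h4 : D.op D.coB (D.RL L (D.gT M n)) a x ≤ D.op D.coB (fun _ _ => Φ L) a x := by
        refine D.op_mono' _ a x fun a' j hj => ?_
        refine (D.RL_mono L _ (fun a'' => D.gT_le_gg M n a'' _) a').trans ?_
        exact hΦ L (by omega) h2 a' _ (D.coB_ne hj).2
      rw [D.op_coB_const] at h4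
      exact h4

lemma lower (M : ℤ) (Φ : ℤ → ℝ≥0∞)
    (hΦ : ∀ L, 1 ≤ L → L ≤ M → ∀ (a : Cfg d A) (y : Site d), (y 0 = 0 ∨ y 0 = -1) →
      Φ L ≤ D.RL L (D.gg M) a y) (n : ℕ) :
    ∀ (L : ℤ) (a : Cfg d A) (x : Site d), 0 ≤ x 0 → x 0 < L → L ≤ M →
      D.RL L (D.GG M 1 Φ n L) a x ≤ D.RL L (D.gg M) a x := by
  induction n with
  | zero =>
    intro L a x _ _ _
    exact D.RL_mono L x (fun a => by simp [GG]) a
  | succ n ih =>
    intro L a x h0 h1 h2
    have h3 : x 0 < M := lt_of_lt_of_le h1 h2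
    rw [D.RL_gg_succ a x h1 h3, D.RL_GG_succ 1 Φ n a x h1 h3,
      D.KK_eq_add (D.RL_MF L (D.gg_MF M)), add_assoc]
    refine add_le_add_right (add_le_add ?_ ?_) _
    · refine D.op_mono' _ a x fun a' j hj => ?_
      have hx0 := D.coG_ne h0 hj
      have hx1 := disp_le j x
      set x' := x + disp j with hx'
      rcases lt_or_ge (x' 0) L with hlt | hge
      · have e : max L (x' 0 + 1) = L := by omega
        have : D.RL L (fun a' x' => D.GG M 1 Φ n (max L (x' 0 + 1)) a' x') a' x' =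
            D.RL L (D.GG M 1 Φ n L) a' x' :=
          D.RL_congr L x' (fun a'' => by rw [e]) a'
        rw [this]
        exact ih L a' x' hx0 hlt h2
      · have e0 : x' 0 = L := by omega
        have e : max L (x' 0 + 1) = L + 1 := by omega
        have e1 : D.RL L (fun a' x' => D.GG M 1 Φ n (max L (x' 0 + 1)) a' x') a' x' =
              D.RL L (D.GG M 1 Φ n (L + 1)) a' x' :=
            D.RL_congr L x' (fun a'' => by rw [e]) a'
        rw [e1]
        rcases lt_or_ge L M with hLM | hLM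
        · rw [← D.RL_RL (L' := L + 1) (by omega) (D.gg_MF M),
            ← D.RL_RL (L' := L + 1) (by omega) (D.GG_MF M 1 Φ n (L + 1))]
          exact D.RL_mono L x' (fun a'' => ih (L + 1) a'' x' hx0 (by omega) (by omega)) a'
        · have e2 : D.RL L (D.GG M 1 Φ n (L + 1)) a' x' = D.RL L (fun _ _ => 0) a' x' := by
            refine D.RL_congr L x' (fun a'' => ?_) a'
            cases n with
            | zero => rfl
            | succ n => simp only [GG]; rw [if_neg (by omega)]
          rw [e2, D.RL_const]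
          exact zero_le
    · have h4 : D.op D.coB (fun _ _ => Φ L) a x ≤ D.op D.coB (D.RL L (D.gg M)) a x := by
        refine D.op_mono' _ a x fun a' j hj => ?_
        exact hΦ L (by omega) h2 a' _ (D.coB_ne hj).2
      rw [D.op_coB_const] at h4
      exact h4

lemma edge_level_nonneg {x : Site d} {δ : Dir d} (h0 : 0 ≤ x 0) (h : ¬ (x 0 = 0 ∧ δ = dn)) :
    0 ≤ (edgeAt x δ).1 0 := by
  unfold edgeAt
  obtain ⟨i, b⟩ := δ
  cases b
  · simp only [Bool.false_eq_true, if_false, Pi.sub_apply]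
    by_cases hi : i = 0
    · subst hi
      have : x 0 ≠ 0 := fun h1 => h ⟨h1, rfl⟩
      simp; omega
    · rw [Pi.single_eq_of_ne (Ne.symm hi)]; simpa using h0
  · simpa using h0

lemma pr_splice_ge {x : Site d} {δ : Dir d} (h0 : 0 ≤ x 0) (h : ¬ (x 0 = 0 ∧ δ = dn))
    (a a' r : Cfg d A) : D.pr (splice 0 a r) x δ = D.pr (splice 0 a' r) x δ := by
  unfold pr splice
  rw [if_pos (edge_level_nonneg h0 h), if_pos (edge_level_nonneg h0 h)]

lemma coG_splice_ge {x : Site d} (h0 : 0 ≤ x 0) (a a' r : Cfg d A) (j : Option (Dir d)) :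
    D.coG j (splice 0 a r) x = D.coG j (splice 0 a' r) x := by
  cases j with
  | some δ =>
    simp only [coG]
    by_cases h : x 0 = 0 ∧ δ = dn
    · rw [if_pos h, if_pos h]
    · rw [if_neg h, if_neg h, D.pr_splice_ge h0 h a a' r]
  | none =>
    simp only [coG]
    by_cases h : x 0 = 0
    · rw [if_pos h, if_pos h]
      congr 1
      refine Finset.sum_congr rfl fun δ _ => ?_
      by_cases hδ : δ = dn
      · rw [if_pos hδ, if_pos hδ]
      · rw [if_neg hδ, if_neg hδ, D.pr_splice_ge h0 (fun hh => hδ hh.2) a a' r]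
    · rw [if_neg h, if_neg h]
      congr 1
      refine Finset.sum_congr rfl fun δ _ => ?_
      rw [D.pr_splice_ge h0 (fun hh => h hh.1) a a' r]

lemma GG_indep (M : ℤ) (α : ℝ≥0∞) (Φ : ℤ → ℝ≥0∞) (n : ℕ) :
    ∀ (L : ℤ) (a a' r : Cfg d A) (x : Site d), 0 ≤ x 0 →
      D.GG M α Φ n L (splice 0 a r) x = D.GG M α Φ n L (splice 0 a' r) x := by
  induction n with
  | zero => intros; rfl
  | succ n ih =>
    intro L a a' r x h0
    simp only [GG]
    by_cases h : x 0 < M
    · rw [if_pos h, if_pos h]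
      congr 2
      unfold op
      refine lintegral_congr fun s => Finset.sum_congr rfl fun j _ => ?_
      rw [sh_splice, sh_splice, D.coG_splice_ge h0 (D.sh s a) (D.sh s a') (D.sh s r) j]
      by_cases hj : D.coG j (splice 0 (D.sh s a') (D.sh s r)) x = 0
      · rw [hj]; simp
      · congr 1
        exact ih _ _ _ _ _ (D.coG_ne h0 hj)
    · rw [if_neg h, if_neg h]

lemma RL_GG_indep (M : ℤ) (α : ℝ≥0∞) (Φ : ℤ → ℝ≥0∞) (n : ℕ) (L : ℤ) (a a' : Cfg d A)
    (x : Site d) (h0 : 0 ≤ x 0) :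
    D.RL 0 (D.GG M α Φ n L) a x = D.RL 0 (D.GG M α Φ n L) a' x := by
  unfold RL
  exact lintegral_congr fun r => D.GG_indep M α Φ n L a a' r x h0

lemma GG_add (M : ℤ) (α β : ℝ≥0∞) (Φ Ψ : ℤ → ℝ≥0∞) (n : ℕ) :
    ∀ (L : ℤ) (a : Cfg d A) (x : Site d),
      D.GG M (α + β) (fun L => Φ L + Ψ L) n L a x = D.GG M α Φ n L a x + D.GG M β Ψ n L a x := by
  induction n with
  | zero => intros; simp [GG]
  | succ n ih =>
    intro L a x
    simp only [GG]
    by_cases h : x 0 < M
    · rw [if_pos h, if_pos h, if_pos h]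
      have e : D.op D.coG (fun a' x' => D.GG M (α + β) (fun L => Φ L + Ψ L) n
          (max L (x' 0 + 1)) a' x') a x =
          D.op D.coG (fun a' x' => D.GG M α Φ n (max L (x' 0 + 1)) a' x') a x +
          D.op D.coG (fun a' x' => D.GG M β Ψ n (max L (x' 0 + 1)) a' x') a x := by
        rw [← D.op_add (fun j x => D.coG_meas j x) (D.HH_MF M α Φ n L)]
        exact D.op_congr' _ a x fun a' j _ => ih _ _ _
      rw [e]
      ring
    · rw [if_neg h, if_neg h, if_neg h]; simp

lemma GG_mul (M : ℤ) (r : ℝ≥0∞) (Φ : ℤ → ℝ≥0∞) (n : ℕ) :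
    ∀ (L : ℤ) (a : Cfg d A) (x : Site d),
      D.GG M 0 (fun L => r * Φ L) n L a x = r * D.GG M 0 Φ n L a x := by
  induction n with
  | zero => intros; simp [GG]
  | succ n ih =>
    intro L a x
    simp only [GG]
    by_cases h : x 0 < M
    · rw [if_pos h, if_pos h]
      have e : D.op D.coG (fun a' x' => D.GG M 0 (fun L => r * Φ L) n
          (max L (x' 0 + 1)) a' x') a x =
          r * D.op D.coG (fun a' x' => D.GG M 0 Φ n (max L (x' 0 + 1)) a' x') a x := by
        rw [← D.op_const_mul (fun j x => D.coG_meas j x) (D.HH_MF M 0 Φ n L)]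
        exact D.op_congr' _ a x fun a' j _ => ih _ _ _
      rw [e]
      ring
    · rw [if_neg h, if_neg h]; simp

/-- monotonicity in the terminal cost, only for the relevant levels -/
lemma GG_mono (M : ℤ) (α : ℝ≥0∞) (Φ Ψ : ℤ → ℝ≥0∞) (hΦ : ∀ L, 1 ≤ L → L ≤ M → Φ L ≤ Ψ L)
    (n : ℕ) : ∀ (L : ℤ) (a : Cfg d A) (x : Site d), 0 ≤ x 0 → x 0 < L → L ≤ M →
      D.GG M α Φ n L a x ≤ D.GG M α Ψ n L a x := by
  induction n with
  | zero => intros; simp [GG]
  | succ n ih =>
    intro L a x h0 h1 h2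
    have h : x 0 < M := lt_of_lt_of_le h1 h2
    simp only [GG]
    rw [if_pos h, if_pos h]
    refine add_le_add (add_le_add_right ?_ _) (mul_le_mul_right (hΦ L (by omega) h2) _)
    refine D.op_mono' _ a x fun a' j hj => ?_
    have hx0 := D.coG_ne h0 hj
    have hx1 := disp_le j x
    set x' := x + disp j with hx'
    rcases lt_or_ge (x' 0) M with hlt | hge
    · refine ih _ a' x' hx0 ?_ ?_
      · exact lt_of_lt_of_le (by omega) (le_max_right _ _)
      · exact max_le h2 (by omega)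
    · cases n with
      | zero => simp [GG]
      | succ n => simp only [GG]; rw [if_neg (by omega)]; exact zero_le

/-- probability of no bad ring before the truncation and before hitting `M` -/
noncomputable def NB (M : ℤ) : ℕ → Cfg d A → Site d → ℝ≥0∞
  | 0 => fun _ _ => 1
  | n + 1 => fun a x => if x 0 < M then D.op D.coG (NB M n) a x else 1

lemma NB_MF (M : ℤ) (n : ℕ) : MF (D.NB (d := d) M n) := by
  induction n with
  | zero => exact fun _ => measurable_const
  | succ n ih =>
    intro x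
    simp only [NB]
    split_ifs
    · exact D.op_MF (fun j x => D.coG_meas j x) ih x
    · exact measurable_const

lemma GG_add_NB (M : ℤ) (n : ℕ) : ∀ (L : ℤ) (a : Cfg d A) (x : Site d),
    D.GG M 0 (fun _ => 1) n L a x + D.NB M n a x = 1 := by
  induction n with
  | zero => intros; simp [GG, NB]
  | succ n ih =>
    intro L a x
    simp only [GG, NB]
    by_cases h : x 0 < M
    · rw [if_pos h, if_pos h]
      have e : D.op D.coG (fun a' x' => D.GG M 0 (fun _ => 1) n (max L (x' 0 + 1)) a' x') a x +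
          D.op D.coG (D.NB M n) a x = D.op D.coG (fun _ _ => 1) a x := by
        rw [← D.op_add (fun j x => D.coG_meas j x) (D.HH_MF M 0 _ n L)]
        exact D.op_congr' _ a x fun a' j _ => ih _ _ _
      have e2 : D.op D.coG (fun _ _ => 1) a x + D.op D.coB (fun _ _ => 1) a x = 1 := by
        rw [← D.op_coK (fun _ => measurable_const)]
        exact D.op_coK_const 1 a x
      rw [D.op_coB_const] at e2
      calc 0 + D.op D.coG (fun a' x' => D.GG M 0 (fun _ => 1) n (max L (x' 0 + 1)) a' x') a x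
            + D.b0 x * 1 + D.op D.coG (D.NB M n) a x
          = (D.op D.coG (fun a' x' => D.GG M 0 (fun _ => 1) n (max L (x' 0 + 1)) a' x') a x +
          D.op D.coG (D.NB M n) a x) + D.b0 x * 1 := by ring
        _ = 1 := by rw [e, e2]
    · rw [if_neg h, if_neg h]; simp

lemma GG_one_le (M : ℤ) (n : ℕ) : ∀ (L : ℤ) (a : Cfg d A) (x : Site d),
    D.GG M 0 (fun _ => 1) n L a x ≤ ∑ j ∈ Finset.range n, D.Kit j D.bf a x := by
  induction n with
  | zero => intros; simp [GG]
  | succ n ih =>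
    intro L a x
    simp only [GG]
    by_cases h : x 0 < M
    · rw [if_pos h, Finset.sum_range_succ', Kit_zero, zero_add, mul_one]
      refine add_le_add ?_ le_rfl
      calc D.op D.coG (fun a' x' => D.GG M 0 (fun _ => 1) n (max L (x' 0 + 1)) a' x') a x
          ≤ D.op D.coG (fun a' x' => ∑ j ∈ Finset.range n, D.Kit j D.bf a' x') a x :=
            D.op_mono _ (fun a' x' => ih _ a' x') a x
        _ ≤ D.KK (fun a' x' => ∑ j ∈ Finset.range n, D.Kit j D.bf a' x') a x :=
            D.op_coG_le _ a x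
        _ = ∑ j ∈ Finset.range n, D.Kit (j + 1) D.bf a x := by
            rw [D.KK_sum _ (fun j => D.Kit_MF D.bf_MF j)]
            simp only [Kit_succ]
    · rw [if_neg h]; exact zero_le

lemma KK_const_mul {f : Cfg d A → Site d → ℝ≥0∞} (hf : MF f) (r : ℝ≥0∞) (a : Cfg d A)
    (x : Site d) : D.KK (fun a x => r * f a x) a x = r * D.KK f a x :=
  D.op_const_mul (fun j x => D.coK_meas j x) hf r a x

lemma GG_lin_le (M : ℤ) (n : ℕ) : ∀ (L : ℕ) (a : Cfg d A) (x : Site d), x 0 < L →
    D.GG M 0 (fun L => ((L + 2).toNat : ℝ≥0∞)) n L a x ≤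
      ∑ j ∈ Finset.range n, (((j + (L + 2) : ℕ) : ℝ≥0∞)) * D.Kit j D.bf a x := by
  induction n with
  | zero => intros; simp [GG]
  | succ n ih =>
    intro L a x hx
    simp only [GG]
    by_cases h : x 0 < M
    · rw [if_pos h, Finset.sum_range_succ', Kit_zero, zero_add]
      refine add_le_add ?_ ?_
      · calc D.op D.coG (fun a' x' => D.GG M 0 (fun L => ((L + 2).toNat : ℝ≥0∞)) n
              (max L (x' 0 + 1)) a' x') a x
            ≤ D.op D.coG (fun a' x' => ∑ j ∈ Finset.range n,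
                (((j + 1 + (L + 2) : ℕ) : ℝ≥0∞)) * D.Kit j D.bf a' x') a x := by
              refine D.op_mono' _ a x fun a' j _ => ?_
              have hx1 := disp_le j x
              set x' := x + disp j with hx'
              rcases lt_or_ge (x' 0) L with hlt | hge
              · have e : max (L : ℤ) (x' 0 + 1) = L := by omega
                simp only [e]
                refine (ih L a' x' hlt).trans ?_
                refine Finset.sum_le_sum fun j _ => mul_le_mul_left ?_ _
                exact_mod_cast (by omega)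
              · have e : max (L : ℤ) (x' 0 + 1) = ((L + 1 : ℕ) : ℤ) := by push_cast; omega
                simp only [e]
                refine (ih (L + 1) a' x' (by push_cast; omega)).trans ?_
                refine Finset.sum_le_sum fun j _ => mul_le_mul_left ?_ _
                exact_mod_cast (by omega)
          _ ≤ D.KK (fun a' x' => ∑ j ∈ Finset.range n,
                (((j + 1 + (L + 2) : ℕ) : ℝ≥0∞)) * D.Kit j D.bf a' x') a x :=
              D.op_coG_le _ a x
          _ = ∑ j ∈ Finset.range n, (((j + 1 + (L + 2) : ℕ) : ℝ≥0∞)) * D.Kit (j + 1) D.bf a x := by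
              rw [D.KK_sum _ (fun j => fun x => (D.Kit_MF D.bf_MF j x).const_mul _)]
              refine Finset.sum_congr rfl fun j _ => ?_
              rw [D.KK_const_mul (D.Kit_MF D.bf_MF j), Kit_succ]
      · rw [mul_comm]
        have e : ((L : ℤ) + 2).toNat = 0 + (L + 2) := by omega
        rw [e]
        exact le_rfl
    · rw [if_neg h]; exact zero_le

/-- threshold level -/
noncomputable def n0 (d : ℕ) : ℕ := ⌈Real.log (2 * C2 d (D.rr d) D.lam) / D.lam⌉₊

/-- lower bound of the probability of no bad ring -/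
noncomputable def pp (d : ℕ) : ℝ := D.ga d ^ D.n0 d / 2

lemma pp_pos : 0 < D.pp d := by
  unfold pp
  have := D.ga_pos (d := d)
  positivity

lemma ga_le_one : D.ga d ≤ 1 := by
  have hk := D.κ_pos
  have hck := D.c_le_κ
  have hn := nd_ge d
  have hc := D.hc
  unfold ga
  rw [div_div, div_le_one (by positivity)]
  nlinarith

lemma C2_n0 : C2 d (D.rr d) D.lam * Real.exp (-(D.lam * D.n0 d)) ≤ 1 / 2 := by
  have hC := C2_pos d (D.rr_pos (d := d)) D.rr_lt_one D.lam
  have hl := D.hlam
  have h1 : Real.log (2 * C2 d (D.rr d) D.lam) / D.lam ≤ D.n0 d := Nat.le_ceil _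
  rw [div_le_iff₀ hl] at h1
  have h2 : 2 * C2 d (D.rr d) D.lam ≤ Real.exp (D.lam * D.n0 d) := by
    rw [← Real.exp_log (show 0 < 2 * C2 d (D.rr d) D.lam by positivity)]
    exact Real.exp_le_exp.2 (by linarith)
  rw [Real.exp_neg, ← div_eq_mul_inv, div_le_iff₀ (Real.exp_pos _)]
  linarith

lemma NB_base (M : ℤ) (n : ℕ) (a : Cfg d A) (x : Site d) (hx : (D.n0 d : ℤ) ≤ x 0) :
    ENNReal.ofReal (1 / 2) ≤ D.NB M n a x := by
  have h1 := D.GG_add_NB M n 0 a x
  have h2 := D.GG_one_le M n 0 a x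
  have h3 : ∑ j ∈ Finset.range n, D.Kit j D.bf a x ≤ ENNReal.ofReal (1 / 2) := by
    refine le_trans ?_ ((D.Kit_bf_sum_le n a x).trans (ENNReal.ofReal_le_ofReal ?_))
    · refine Finset.sum_le_sum fun j _ => ?_
      conv_lhs => rw [← one_mul (D.Kit j D.bf a x)]
      refine mul_le_mul_left ?_ _
      have : (1 : ℝ≥0∞) ≤ 3 := by norm_num
      exact this.trans le_add_self
    · refine le_trans ?_ (D.C2_n0 (d := d))
      have hC := C2_pos d (D.rr_pos (d := d)) D.rr_lt_one D.lam
      refine mul_le_mul_of_nonneg_left (Real.exp_le_exp.2 ?_) hC.le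
      have : (D.n0 d : ℝ) ≤ (x 0 : ℤ) := by exact_mod_cast hx
      have := D.hlam
      nlinarith
  have h4 : ENNReal.ofReal (1 / 2) + ENNReal.ofReal (1 / 2) = 1 := by
    rw [← ENNReal.ofReal_add (by norm_num) (by norm_num)]; norm_num
  have h5 : ENNReal.ofReal (1 / 2) + ENNReal.ofReal (1 / 2) ≤
      ENNReal.ofReal (1 / 2) + D.NB M n a x := by
    rw [h4, ← h1]
    exact add_le_add_left (h2.trans h3) _
  exact (ENNReal.add_le_add_iff_left ENNReal.ofReal_ne_top).1 h5

lemma ga_le_coG_up (a : Cfg d A) (x : Site d) :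
    ENNReal.ofReal (D.ga d) ≤ D.coG (some up) a x := by
  simp only [coG]
  rw [if_neg]
  · refine ENNReal.ofReal_le_ofReal ((D.ga_le a x).trans ?_)
    have := D.pr_nonneg a x up
    have := nd_pos d
    refine div_le_div_of_nonneg_right (by linarith) (by linarith)
  · rintro ⟨_, h⟩
    have : (true : Bool) = false := congrArg Prod.snd h
    exact absurd this (by decide)

lemma NB_lower (M : ℤ) (k : ℕ) : ∀ (n : ℕ) (a : Cfg d A) (x : Site d),
    (D.n0 d : ℤ) - k ≤ x 0 → ENNReal.ofReal (D.ga d ^ k / 2) ≤ D.NB M n a x := by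
  induction k with
  | zero =>
    intro n a x hx
    simpa using D.NB_base M n a x (by simpa using hx)
  | succ k ih =>
    intro n a x hx
    have hg0 := D.ga_pos (d := d)
    have hg1 := D.ga_le_one (d := d)
    have h1 : D.ga d ^ (k + 1) / 2 ≤ 1 := by
      have : D.ga d ^ (k + 1) ≤ 1 := pow_le_one₀ hg0.le hg1
      linarith
    cases n with
    | zero =>
      simp only [NB]
      rw [← ENNReal.ofReal_one]
      exact ENNReal.ofReal_le_ofReal h1
    | succ n =>
      simp only [NB]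
      by_cases h : x 0 < M
      · rw [if_pos h]
        unfold op
        calc ENNReal.ofReal (D.ga d ^ (k + 1) / 2)
            = ∫⁻ _s, ENNReal.ofReal (D.ga d ^ (k + 1) / 2) ∂D.xi := by simp
          _ ≤ _ := by
            refine lintegral_mono fun s => ?_
            refine le_trans ?_ (Finset.single_le_sum (f := fun j => D.coG j (D.sh s a) x *
              D.NB M n (D.sh s a) (x + disp j)) (fun j _ => zero_le) (Finset.mem_univ (some up)))
            have h2 : ENNReal.ofReal (D.ga d ^ (k + 1) / 2) =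
                ENNReal.ofReal (D.ga d) * ENNReal.ofReal (D.ga d ^ k / 2) := by
              rw [← ENNReal.ofReal_mul hg0.le]; congr 1; ring
            rw [h2]
            refine mul_le_mul' (D.ga_le_coG_up _ _) (ih n _ _ ?_)
            simp only [disp, Pi.add_apply, stepVec_up]
            push_cast at hx
            omega
      · rw [if_neg h, ← ENNReal.ofReal_one]
        exact ENNReal.ofReal_le_ofReal h1

lemma pp_lt_one : D.pp d < 1 := by
  unfold pp
  have : D.ga d ^ D.n0 d ≤ 1 := pow_le_one₀ D.ga_pos.le D.ga_le_one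
  linarith

lemma GG_one_bound (M : ℤ) (n : ℕ) (L : ℤ) (a : Cfg d A) (x : Site d) (hx : 0 ≤ x 0) :
    D.GG M 0 (fun _ => 1) n L a x ≤ ENNReal.ofReal (1 - D.pp d) := by
  have h1 := D.GG_add_NB M n L a x
  have h2 := D.NB_lower M (D.n0 d) n a x (by simpa using hx)
  have h3 : ENNReal.ofReal (1 - D.pp d) + ENNReal.ofReal (D.pp d) = 1 := by
    rw [← ENNReal.ofReal_add (by have := D.pp_lt_one (d := d); linarith) D.pp_pos.le]; simp
  have h4 : D.GG M 0 (fun _ => 1) n L a x + ENNReal.ofReal (D.pp d) ≤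
      ENNReal.ofReal (1 - D.pp d) + ENNReal.ofReal (D.pp d) :=
    ((add_le_add_right h2 _).trans h1.le).trans h3.ge
  exact (ENNReal.add_le_add_iff_right ENNReal.ofReal_ne_top).1 h4

lemma GG_lin_bound (M : ℤ) (n : ℕ) (a : Cfg d A) (x : Site d) (hx : x 0 = 0) :
    D.GG M 0 (fun L => ((L + 2).toNat : ℝ≥0∞)) n 1 a x ≤
      ENNReal.ofReal (C2 d (D.rr d) D.lam) := by
  have h1 := D.GG_lin_le M n 1 a x (by rw [hx]; norm_num)
  simp only [Nat.cast_one] at h1
  refine h1.trans ?_
  have h2 := D.Kit_bf_sum_le n a x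
  rw [hx] at h2
  simp only [Int.cast_zero, mul_zero, neg_zero, Real.exp_zero, mul_one] at h2
  refine le_trans (le_of_eq ?_) h2
  refine Finset.sum_congr rfl fun j _ => ?_
  push_cast
  ring

/-- probability of having hit level `L` after `n` steps -/
noncomputable def tT (L : ℤ) : ℕ → Cfg d A → Site d → ℝ≥0∞
  | 0 => fun _ x => if x 0 < L then 0 else 1
  | n + 1 => fun a x => if x 0 < L then D.KK (tT L n) a x else 1

lemma tT_MF (L : ℤ) (n : ℕ) : MF (D.tT (d := d) L n) := by
  induction n with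
  | zero => exact fun _ => measurable_const
  | succ n ih =>
    intro x
    simp only [tT]
    split_ifs
    · exact D.KK_MF ih x
    · exact measurable_const

lemma sv_add_tT (L : ℤ) (n : ℕ) : ∀ (a : Cfg d A) (x : Site d),
    D.sv L n a x + D.tT L n a x = 1 := by
  induction n with
  | zero => intro a x; simp only [sv, tT]; split_ifs <;> simp
  | succ n ih =>
    intro a x
    simp only [sv, tT]
    by_cases h : x 0 < L
    · rw [if_pos h, if_pos h, ← D.KK_add (D.sv_MF L n)]
      have : D.KK (fun a x => D.sv L n a x + D.tT L n a x) a x = D.KK (fun _ _ => 1) a x :=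
        D.op_congr' _ a x fun a' j _ => ih _ _
      rw [this, D.KK_const]
    · rw [if_neg h, if_neg h]; simp

lemma hit_upper {L M : ℤ} (hLM : L ≤ M) (n : ℕ) : ∀ (a : Cfg d A) (y : Site d), y 0 ≤ L →
    D.RL L (D.gT M n) a y ≤ D.RL L (D.gT L n) a y + D.hi d (M - L) := by
  induction n with
  | zero => intro a y _; simp [gT, RL]
  | succ n ih =>
    intro a y hy
    rcases lt_or_ge (y 0) L with h | h
    · rw [D.RL_gT_succ n a y h (lt_of_lt_of_le h hLM), D.RL_gT_succ n a y h h]
      have h1 : D.KK (D.RL L (D.gT M n)) a y ≤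
          D.KK (fun a y => D.RL L (D.gT L n) a y + D.hi d (M - L)) a y := by
        refine D.op_mono' _ a y fun a' j _ => ih a' _ ?_
        have := disp_le j y
        omega
      rw [D.KK_add (D.RL_MF L (D.gT_MF L n)), D.KK_const] at h1
      rw [add_assoc]
      exact add_le_add_right h1 _
    · have h1 : y 0 = L := le_antisymm hy h
      refine le_trans ?_ le_add_self
      refine (D.RL_mono L y (fun a' => D.gT_le_gg M (n + 1) a' y) a).trans ?_
      exact D.RL_gg_le_hi L M a y h1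

lemma hit_lower {L M : ℤ} (hLM : L ≤ M) (n : ℕ) : ∀ (a : Cfg d A) (y : Site d), y 0 ≤ L →
    D.RL L (D.gT L n) a y + D.lo d (M - L) * D.RL L (D.tT L n) a y ≤ D.RL L (D.gg M) a y := by
  induction n with
  | zero =>
    intro a y hy
    have h0 : D.RL L (D.gT L 0) a y = 0 := by
      have := D.RL_const L 0 a y; exact this
    rw [h0, zero_add]
    rcases lt_or_ge (y 0) L with h | h
    · have : D.RL L (D.tT L 0) a y = D.RL L (fun _ _ => 0) a y :=
        D.RL_congr L y (fun a' => by simp only [tT]; rw [if_pos h]) a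
      rw [this, D.RL_const, mul_zero]; exact zero_le
    · have : D.RL L (D.tT L 0) a y = D.RL L (fun _ _ => 1) a y :=
        D.RL_congr L y (fun a' => by simp only [tT]; rw [if_neg (not_lt.2 h)]) a
      rw [this, D.RL_const, mul_one]
      exact D.lo_le_RL_gg L M a y (le_antisymm hy h)
  | succ n ih =>
    intro a y hy
    rcases lt_or_ge (y 0) L with h | h
    · rw [D.RL_gT_succ n a y h h, D.RL_gg_succ a y h (lt_of_lt_of_le h hLM)]
      have h1 : D.RL L (D.tT L (n + 1)) a y = D.KK (D.RL L (D.tT L n)) a y := by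
        rw [← D.RL_KK h (D.tT_MF L n)]
        exact D.RL_congr L y (fun a' => by simp only [tT]; rw [if_pos h]) a
      rw [h1, ← D.KK_const_mul (D.RL_MF L (D.tT_MF L n)), add_assoc,
        ← D.KK_add (D.RL_MF L (D.gT_MF L n))]
      refine add_le_add_right ?_ _
      refine D.op_mono' _ a y fun a' j _ => ih a' _ ?_
      have := disp_le j y
      omega
    · have h0 : D.RL L (D.gT L (n + 1)) a y = D.RL L (fun _ _ => 0) a y :=
        D.RL_congr L y (fun a' => D.gT_of_ge h _ a') a
      have h1 : D.RL L (D.tT L (n + 1)) a y = D.RL L (fun _ _ => 1) a y :=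
        D.RL_congr L y (fun a' => by simp only [tT]; rw [if_neg (not_lt.2 h)]) a
      rw [h0, h1, D.RL_const, D.RL_const, mul_one, zero_add]
      exact D.lo_le_RL_gg L M a y (le_antisymm hy h)

lemma hit_upper' {L M : ℤ} (hLM : L ≤ M) (a : Cfg d A) (y : Site d) (hy : y 0 ≤ L) :
    D.RL L (D.gg M) a y ≤ D.RL L (D.gg L) a y + D.hi d (M - L) := by
  have h1 : D.RL L (D.gg M) a y = ⨆ n, D.RL L (D.gT M n) a y :=
    D.RL_iSup L (fun n => D.gT_MF M n) (fun a x => D.gT_mono M a x) a y
  rw [h1]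
  refine iSup_le fun n => (D.hit_upper hLM n a y hy).trans ?_
  exact add_le_add_left (D.RL_mono L y (fun a' => D.gT_le_gg L n a' y) a) _

lemma gg_lt_top (M : ℤ) (a : Cfg d A) (x : Site d) : D.gg M a x < ⊤ := by
  have := D.gg_le M a x (j := (M - x 0).toNat) (by omega)
  exact this.trans_lt ENNReal.ofReal_lt_top

lemma sv_anti (L : ℤ) (n : ℕ) : ∀ (a : Cfg d A) (x : Site d),
    D.sv L (n + 1) a x ≤ D.sv L n a x := by
  induction n with
  | zero =>
    intro a x
    simp only [sv]
    split_ifs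
    · exact D.KK_le_one (fun a x => by split_ifs <;> simp) a x
    · exact le_rfl
  | succ n ih =>
    intro a x
    by_cases h : x 0 < L
    · have e1 : D.sv L (n + 1 + 1) a x = D.KK (D.sv L (n + 1)) a x := by
        simp only [sv]; rw [if_pos h]
      have e2 : D.sv L (n + 1) a x = D.KK (D.sv L n) a x := by
        simp only [sv]; rw [if_pos h]
      rw [e1, e2]
      exact D.KK_mono (fun a x => ih a x) a x
    · have e1 : D.sv L (n + 1 + 1) a x = 0 := by simp only [sv]; rw [if_neg h]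
      rw [e1]; exact zero_le

lemma hit_lower' {L M : ℤ} (hLM : L ≤ M) (a : Cfg d A) (y : Site d) (hy : y 0 ≤ L) :
    D.RL L (D.gg L) a y + D.lo d (M - L) ≤ D.RL L (D.gg M) a y := by
  -- tT increases to one
  have hmono : ∀ (a : Cfg d A) (x : Site d), Monotone fun n => D.tT L n a x := by
    intro a x
    refine monotone_nat_of_le_succ fun n => ?_
    have h1 := D.sv_add_tT L n a x
    have h2 := D.sv_add_tT L (n + 1) a x
    have h3 := D.sv_anti L n a x
    have h4 : D.sv L (n + 1) a x ≠ ⊤ := ne_top_of_le_ne_top ENNReal.one_ne_top (D.sv_le_one _ _ _ _)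
    have h5 : D.sv L (n + 1) a x + D.tT L n a x ≤ D.sv L (n + 1) a x + D.tT L (n + 1) a x := by
      rw [h2, ← h1]; exact add_le_add_left h3 _
    exact (ENNReal.add_le_add_iff_left h4).1 h5
  have hsup : ∀ (a : Cfg d A) (x : Site d), ⨆ n, D.tT L n a x = 1 := by
    intro a x
    have h1 : Tendsto (fun n => D.sv L n a x) atTop (𝓝 0) := by
      have : ∑' n, D.sv L n a x ≠ ⊤ := by
        rw [← gg_eq_tsum]; exact (D.gg_lt_top L a x).ne
      exact ENNReal.tendsto_atTop_zero_of_tsum_ne_top this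
    have h2 : Tendsto (fun n => D.tT L n a x) atTop (𝓝 1) := by
      have h3 : (fun n => D.tT L n a x) = fun n => 1 - D.sv L n a x := by
        funext n
        have h4 : D.sv L n a x ≠ ⊤ := ne_top_of_le_ne_top ENNReal.one_ne_top (D.sv_le_one _ _ _ _)
        rw [← D.sv_add_tT L n a x, ENNReal.add_sub_cancel_left h4]
      rw [h3]
      have := ENNReal.Tendsto.sub (tendsto_const_nhds (x := (1 : ℝ≥0∞)) (f := atTop)) h1
        (Or.inl ENNReal.one_ne_top)
      simpa using this
    exact tendsto_nhds_unique (tendsto_atTop_iSup (hmono a x)) h2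
  have e1 : D.RL L (D.gg L) a y = ⨆ n, D.RL L (D.gT L n) a y :=
    D.RL_iSup L (fun n => D.gT_MF L n) (fun a x => D.gT_mono L a x) a y
  have e2 : ⨆ n, D.RL L (D.tT L n) a y = 1 := by
    rw [← D.RL_iSup L (fun n => D.tT_MF L n) hmono a y]
    have : D.RL L (fun a x => ⨆ n, D.tT L n a x) a y = D.RL L (fun _ _ => 1) a y :=
      D.RL_congr L y (fun a' => hsup a' y) a
    rw [this, D.RL_const]
  have e3 : D.RL L (D.gg L) a y + D.lo d (M - L) =
      ⨆ n, (D.RL L (D.gT L n) a y + D.lo d (M - L) * D.RL L (D.tT L n) a y) := by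
    rw [← ENNReal.iSup_add_iSup_of_monotone, ← e1, ← ENNReal.mul_iSup, e2, mul_one]
    · exact fun n m h => D.RL_mono L y (fun a' => D.gT_mono L a' y h) a
    · exact fun n m h => mul_le_mul_right (D.RL_mono L y (fun a' => hmono a' y h) a) _
  rw [e3]
  exact iSup_le fun n => D.hit_lower hLM n a y hy

/-- oscillation constant -/
noncomputable def Cst (d : ℕ) : ℝ := C1 d (D.rr d) D.lam * C2 d (D.rr d) D.lam / D.pp d

lemma Cst_nonneg : 0 ≤ D.Cst d := by
  unfold Cst
  have h1 := C1_nonneg d (D.rr_pos (d := d)) D.lam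
  have h2 := C2_pos d (D.rr_pos (d := d)) D.rr_lt_one D.lam
  have h3 := D.pp_pos (d := d)
  positivity

theorem osc (k : ℕ) : D.hi d (k : ℤ) ≤ D.lo d (k : ℤ) + ENNReal.ofReal (D.Cst d) := by
  induction k using Nat.strong_induction_on with
  | _ k ih =>
  have hC1 := C1_nonneg d (D.rr_pos (d := d)) D.lam
  have hC2 := C2_pos d (D.rr_pos (d := d)) D.rr_lt_one D.lam
  have hpp := D.pp_pos (d := d)
  have hpp1 := D.pp_lt_one (d := d)
  rcases Nat.eq_zero_or_pos k with hk | hk
  · subst hk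
    have : D.hi d ((0 : ℕ) : ℤ) = 0 := by
      unfold hi
      refine ENNReal.iSup_eq_zero.2 fun a => ?_
      have h1 : D.RL 0 (D.gg ((0 : ℕ) : ℤ)) a 0 = D.RL 0 (fun _ _ => 0) a 0 :=
        D.RL_congr 0 0 (fun a' => D.gg_of_ge (by simp) a') a
      rw [h1, D.RL_const]
    rw [this]; exact zero_le
  · set M : ℤ := (k : ℤ) with hM
    set Φp : ℤ → ℝ≥0∞ := fun L =>
      ENNReal.ofReal (C1 d (D.rr d) D.lam) * ((L + 2).toNat : ℝ≥0∞) + D.hi d (M - L) with hΦp
    set Φm : ℤ → ℝ≥0∞ := fun L => D.lo d (M - L) with hΦm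
    have hp : ∀ L, 1 ≤ L → L ≤ M → ∀ (a : Cfg d A) (y : Site d), (y 0 = 0 ∨ y 0 = -1) →
        D.RL L (D.gg M) a y ≤ Φp L := by
      intro L hL1 hLM a y hy
      refine (D.hit_upper' hLM a y (by omega)).trans ?_
      simp only [hΦp]
      refine add_le_add_left ?_ _
      have h1 : ∀ a' : Cfg d A, D.gg L a' y ≤
          ENNReal.ofReal (C1 d (D.rr d) D.lam) * ((L + 2).toNat : ℝ≥0∞) := by
        intro a'
        refine (D.gg_le L a' y (j := (L + 1).toNat) (by omega)).trans (le_of_eq ?_)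
        rw [ENNReal.ofReal_mul hC1]
        congr 1
        rw [← ENNReal.ofReal_natCast]
        congr 1
        have : ((L + 2).toNat : ℝ) = (((L + 1).toNat + 1 : ℕ) : ℝ) := by
          congr 1; omega
        rw [this]; push_cast; ring
      exact (D.RL_mono L y h1 a).trans (le_of_eq (D.RL_const L _ a y))
    have hm : ∀ L, 1 ≤ L → L ≤ M → ∀ (a : Cfg d A) (y : Site d), (y 0 = 0 ∨ y 0 = -1) →
        Φm L ≤ D.RL L (D.gg M) a y := by
      intro L hL1 hLM a y hy
      exact le_trans le_add_self (D.hit_lower' hLM a y (by omega))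
    have hpm : ∀ L, 1 ≤ L → L ≤ M → Φp L ≤ Φm L + (ENNReal.ofReal (D.Cst d) * 1 +
        ENNReal.ofReal (C1 d (D.rr d) D.lam) * ((L + 2).toNat : ℝ≥0∞)) := by
      intro L hL1 hLM
      have h1 := ih (k - L.toNat) (by omega)
      have h2 : (((k - L.toNat : ℕ)) : ℤ) = M - L := by omega
      rw [h2] at h1
      simp only [hΦp, hΦm, mul_one]
      calc ENNReal.ofReal (C1 d (D.rr d) D.lam) * ((L + 2).toNat : ℝ≥0∞) + D.hi d (M - L)
          ≤ ENNReal.ofReal (C1 d (D.rr d) D.lam) * ((L + 2).toNat : ℝ≥0∞) +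
            (D.lo d (M - L) + ENNReal.ofReal (D.Cst d)) := add_le_add_right h1 _
        _ = _ := by ring
    -- the main estimate
    have main : ∀ a a' : Cfg d A, D.RL 0 (D.gg M) a 0 ≤
        D.RL 0 (D.gg M) a' 0 + ENNReal.ofReal (D.Cst d) := by
      intro a a'
      have e1 : D.RL 0 (D.gg M) a 0 = ⨆ n, D.RL 0 (D.gT M n) a 0 :=
        D.RL_iSup 0 (fun n => D.gT_MF M n) (fun a x => D.gT_mono M a x) a 0
      rw [e1]
      refine iSup_le fun n => ?_
      have hz : (0 : Site d) 0 = 0 := rfl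
      have s1 : D.RL 0 (D.gT M n) a 0 ≤ D.RL 0 (D.GG M 1 Φp n 1) a 0 := by
        rw [← D.RL_RL (L' := 1) (by norm_num) (D.gT_MF M n),
          ← D.RL_RL (L' := 1) (by norm_num) (D.GG_MF M 1 Φp n 1)]
        refine D.RL_mono 0 0 (fun a'' => D.upper M Φp hp n 1 a'' 0 ?_ ?_ ?_) a
        · simp
        · simp
        · omega
      have s2 : D.RL 0 (D.GG M 1 Φp n 1) a 0 ≤ D.RL 0 (D.GG M 1 Φm n 1) a 0 +
          ENNReal.ofReal (D.Cst d) := by
        have s3 : ∀ a'' : Cfg d A, D.GG M 1 Φp n 1 a'' 0 ≤ D.GG M 1 Φm n 1 a'' 0 +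
            ENNReal.ofReal (D.Cst d) := by
          intro a''
          have t1 := D.GG_mono M 1 Φp (fun L => Φm L + (ENNReal.ofReal (D.Cst d) * 1 +
            ENNReal.ofReal (C1 d (D.rr d) D.lam) * ((L + 2).toNat : ℝ≥0∞))) hpm n 1 a'' 0
            (by simp) (by simp) (by omega)
          have t2 := D.GG_add M 1 0 Φm (fun L => (ENNReal.ofReal (D.Cst d) * 1 +
            ENNReal.ofReal (C1 d (D.rr d) D.lam) * ((L + 2).toNat : ℝ≥0∞))) n 1 a'' 0
          have t3 := D.GG_add M 0 0 (fun _ => ENNReal.ofReal (D.Cst d) * 1) (fun L =>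
            ENNReal.ofReal (C1 d (D.rr d) D.lam) * ((L + 2).toNat : ℝ≥0∞)) n 1 a'' 0
          rw [D.GG_mul, D.GG_mul] at t3
          simp only [add_zero] at t2 t3
          rw [t2, t3] at t1
          refine t1.trans (add_le_add_right ?_ _)
          have t4 := D.GG_one_bound M n 1 a'' 0 (by simp)
          have t5 := D.GG_lin_bound M n a'' 0 rfl
          calc ENNReal.ofReal (D.Cst d) * D.GG M 0 (fun _ => 1) n 1 a'' 0 +
                ENNReal.ofReal (C1 d (D.rr d) D.lam) *
                  D.GG M 0 (fun L => ((L + 2).toNat : ℝ≥0∞)) n 1 a'' 0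
              ≤ ENNReal.ofReal (D.Cst d) * ENNReal.ofReal (1 - D.pp d) +
                ENNReal.ofReal (C1 d (D.rr d) D.lam) *
                  ENNReal.ofReal (C2 d (D.rr d) D.lam) :=
                add_le_add (mul_le_mul_right t4 _) (mul_le_mul_right t5 _)
            _ = ENNReal.ofReal (D.Cst d) := by
                rw [← ENNReal.ofReal_mul D.Cst_nonneg, ← ENNReal.ofReal_mul hC1,
                  ← ENNReal.ofReal_add (mul_nonneg D.Cst_nonneg (by linarith))
                    (mul_nonneg hC1 hC2.le)]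
                congr 1
                unfold Cst
                field_simp
                ring
        have s4 : D.RL 0 (fun a x => D.GG M 1 Φm n 1 a x + ENNReal.ofReal (D.Cst d)) a 0 =
            D.RL 0 (D.GG M 1 Φm n 1) a 0 + ENNReal.ofReal (D.Cst d) := by
          rw [D.RL_add 0 (D.GG_MF M 1 Φm n 1), D.RL_const]
        rw [← s4]
        exact D.RL_mono 0 0 s3 a
      have s5 : D.RL 0 (D.GG M 1 Φm n 1) a 0 = D.RL 0 (D.GG M 1 Φm n 1) a' 0 :=
        D.RL_GG_indep M 1 Φm n 1 a a' 0 (by simp)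
      have s6 : D.RL 0 (D.GG M 1 Φm n 1) a' 0 ≤ D.RL 0 (D.gg M) a' 0 := by
        rw [← D.RL_RL (L' := 1) (by norm_num) (D.gg_MF M),
          ← D.RL_RL (L' := 1) (by norm_num) (D.GG_MF M 1 Φm n 1)]
        refine D.RL_mono 0 0 (fun a'' => D.lower M Φm hm n 1 a'' 0 ?_ ?_ ?_) a'
        · simp
        · simp
        · omega
      calc D.RL 0 (D.gT M n) a 0 ≤ D.RL 0 (D.GG M 1 Φm n 1) a 0 + ENNReal.ofReal (D.Cst d) :=
            s1.trans s2
        _ ≤ D.RL 0 (D.gg M) a' 0 + ENNReal.ofReal (D.Cst d) := by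
            rw [s5]; exact add_le_add_left s6 _
    unfold hi lo
    refine iSup_le fun a => ?_
    rw [ENNReal.iInf_add]
    exact le_iInf fun a' => main a a'

/-- quasi-additivity, upper half -/
theorem hh_add_le (L M : ℕ) : D.hh d ((L + M : ℕ) : ℤ) ≤
    D.hh d (L : ℤ) + D.hh d (M : ℤ) + ENNReal.ofReal (D.Cst d) := by
  have h1 : D.hh d ((L + M : ℕ) : ℤ) ≤ D.hh d (L : ℤ) + D.hi d (M : ℤ) := by
    rw [D.hh_eq' (L : ℤ) ((L + M : ℕ) : ℤ), D.hh_eq' (L : ℤ) (L : ℤ)]
    calc ∫⁻ a : Cfg d A, D.RL (L : ℤ) (D.gg ((L + M : ℕ) : ℤ)) a 0 ∂D.PE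
        ≤ ∫⁻ a : Cfg d A, (D.RL (L : ℤ) (D.gg (L : ℤ)) a 0 + D.hi d (M : ℤ)) ∂D.PE := by
          refine lintegral_mono fun a => ?_
          have h2 := D.hit_upper' (L := (L : ℤ)) (M := ((L + M : ℕ) : ℤ)) (by push_cast; omega)
            a 0 (by simp)
          have h3 : ((L + M : ℕ) : ℤ) - (L : ℤ) = (M : ℤ) := by push_cast; ring
          rw [h3] at h2
          exact h2
      _ = _ := by
          rw [lintegral_add_right _ measurable_const]; simp
  refine h1.trans ?_
  rw [add_assoc]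
  refine add_le_add_right ?_ _
  exact (D.osc M).trans (add_le_add_left (D.lo_le_hh _) _)

/-- quasi-additivity, lower half -/
theorem hh_add_ge (L M : ℕ) : D.hh d (L : ℤ) + D.hh d (M : ℤ) ≤
    D.hh d ((L + M : ℕ) : ℤ) + ENNReal.ofReal (D.Cst d) := by
  have h1 : D.hh d (L : ℤ) + D.lo d (M : ℤ) ≤ D.hh d ((L + M : ℕ) : ℤ) := by
    rw [D.hh_eq' (L : ℤ) ((L + M : ℕ) : ℤ), D.hh_eq' (L : ℤ) (L : ℤ)]
    calc ∫⁻ a : Cfg d A, D.RL (L : ℤ) (D.gg (L : ℤ)) a 0 ∂D.PE + D.lo d (M : ℤ)
        = ∫⁻ a : Cfg d A, (D.RL (L : ℤ) (D.gg (L : ℤ)) a 0 + D.lo d (M : ℤ)) ∂D.PE := by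
          rw [lintegral_add_right _ measurable_const]; simp
      _ ≤ _ := by
          refine lintegral_mono fun a => ?_
          have h2 := D.hit_lower' (L := (L : ℤ)) (M := ((L + M : ℕ) : ℤ)) (by push_cast; omega)
            a 0 (by simp)
          have h3 : ((L + M : ℕ) : ℤ) - (L : ℤ) = (M : ℤ) := by push_cast; ring
          rw [h3] at h2
          exact h2
  calc D.hh d (L : ℤ) + D.hh d (M : ℤ)
      ≤ D.hh d (L : ℤ) + (D.lo d (M : ℤ) + ENNReal.ofReal (D.Cst d)) :=
        add_le_add_right ((D.hh_le_hi _).trans (D.osc M)) _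
    _ = (D.hh d (L : ℤ) + D.lo d (M : ℤ)) + ENNReal.ofReal (D.Cst d) := by ring
    _ ≤ _ := add_le_add_left h1 _

end Dyn

end Pool.Agent.Helper90.SlowRefresh
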