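import Pool.Agent.Helper90.SlowRefresh.Half
import Mathlib

open MeasureTheory ProbabilityTheory Filter
open scoped ENNReal Topology

namespace Pool.Agent.Helper90.SlowRefresh

set_option linter.unusedSectionVars false

/-- prepend an element to a sequence -/
def consSeq {N : Type} (z : N) (w : ℕ → N) : ℕ → N
  | 0 => z
  | n + 1 => w n

lemma consSeq_measurable {N : Type} [MeasurableSpace N] :
    Measurable (fun p : N × (ℕ → N) => consSeq p.1 p.2) := by
  refine measurable_pi_lambda _ fun n => ?_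
  cases n with
  | zero => exact measurable_fst
  | succ n => exact (measurable_pi_apply n).comp measurable_snd

lemma map_consSeq {N : Type} [MeasurableSpace N] (ν : Measure N) [IsProbabilityMeasure ν] :
    Measure.map (fun p : N × (ℕ → N) => consSeq p.1 p.2)
      (ν.prod (Measure.infinitePi fun _ : ℕ => ν)) = Measure.infinitePi fun _ : ℕ => ν := by
  refine Measure.eq_infinitePi _ fun s t ht => ?_
  rw [Measure.map_apply consSeq_measurable (.pi s.countable_toSet fun _ _ => ht _)]
  classical
  obtain ⟨K, hK⟩ : ∃ K : ℕ, ∀ i ∈ s, i < K + 1 := ⟨s.sup id, fun i hi => by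
    have : i ≤ s.sup id := Finset.le_sup (f := id) hi
    omega⟩
  set t' : ℕ → Set N := fun i => if i ∈ s then t i else Set.univ with ht'
  have ht'm : ∀ i, MeasurableSet (t' i) := fun i => by
    simp only [ht']; split_ifs
    · exact ht i
    · exact MeasurableSet.univ
  have h1 : (fun p : N × (ℕ → N) => consSeq p.1 p.2) ⁻¹' ((s : Set ℕ).pi t) =
      t' 0 ×ˢ ((Finset.range K : Finset ℕ) : Set ℕ).pi (fun i => t' (i + 1)) := by
    ext p
    simp only [Set.mem_preimage, Set.mem_pi, Finset.mem_coe, Set.mem_prod, Finset.mem_range]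
    constructor
    · intro h
      refine ⟨?_, fun i _ => ?_⟩
      · simp only [ht']
        split_ifs with h0
        · exact h 0 h0
        · trivial
      · simp only [ht']
        split_ifs with h0
        · exact h (i + 1) h0
        · trivial
    · rintro ⟨h2, h3⟩ i hi
      cases i with
      | zero => simp only [ht', if_pos hi] at h2; exact h2
      | succ i =>
        have := h3 i (by have := hK _ hi; omega)
        simp only [ht', if_pos hi] at this
        exact this
  rw [h1, Measure.prod_prod, Measure.infinitePi_pi _ (fun i _ => ht'm (i + 1))]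
  have h2 : ∏ i ∈ s, ν (t i) = ∏ i ∈ Finset.range (K + 1), ν (t' i) := by
    have h3 : ∏ i ∈ s, ν (t i) = ∏ i ∈ s, ν (t' i) :=
      Finset.prod_congr rfl fun i hi => by simp only [ht', if_pos hi]
    rw [h3]
    refine Finset.prod_subset (fun i hi => Finset.mem_range.2 (hK i hi)) fun i _ hi => ?_
    simp only [ht', if_neg hi, measure_univ]
  rw [h2, Finset.prod_range_succ', mul_comm]

lemma lintegral_consSeq {N : Type} [MeasurableSpace N] (ν : Measure N) [IsProbabilityMeasure ν]
    {F : (ℕ → N) → ℝ≥0∞} (hF : Measurable F) :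
    ∫⁻ w, F w ∂(Measure.infinitePi fun _ : ℕ => ν) =
      ∫⁻ z, ∫⁻ w, F (consSeq z w) ∂(Measure.infinitePi fun _ : ℕ => ν) ∂ν := by
  conv_lhs => rw [← map_consSeq ν]
  have h2 : Measurable fun p : N × (ℕ → N) => F (consSeq p.1 p.2) := hF.comp consSeq_measurable
  rw [lintegral_map hF consSeq_measurable, lintegral_prod _ h2.aemeasurable]

lemma lintegral_uniformDir {d : ℕ} (f : Dir d → ℝ≥0∞) :
    ∫⁻ δ, f δ ∂(uniformOn (Set.univ : Set (Dir d))) = (Dyn.nd d).toNNReal⁻¹ * ∑ δ, f δ := by
  have hcard : (Measure.count (Set.univ : Set (Dir d))) = ((Dyn.nd d).toNNReal : ℝ≥0∞) := by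
    rw [Measure.count_univ, ENat.card_eq_coe_fintype_card]
    have h := Dyn.card_dir d
    have : (Dyn.nd d).toNNReal = (Fintype.card (Dir d) : NNReal) := by
      rw [← h]; exact Real.toNNReal_coe_nat _
    rw [this]
    exact (ENNReal.coe_natCast _).symm
  unfold uniformOn ProbabilityTheory.cond
  rw [Measure.restrict_univ, lintegral_smul_measure, lintegral_count, tsum_fintype, hcard]
  have h0 : (Dyn.nd d).toNNReal ≠ 0 := by
    have := Dyn.nd_pos d
    exact (Real.toNNReal_pos.2 this).ne'
  rw [ENNReal.coe_inv h0]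
  rfl

variable {d : ℕ} {A : Type} [MeasurableSpace A]

namespace Dyn

variable (D : Dyn A)

/-- law of one ring -/
noncomputable def ringL (d : ℕ) : Measure (ℝ × Dir d × ℝ) :=
  D.xi.prod ((uniformOn (Set.univ : Set (Dir d))).prod (volume.restrict (Set.Icc (0 : ℝ) 1)))

instance instProbIcc : IsProbabilityMeasure (volume.restrict (Set.Icc (0 : ℝ) 1)) :=
  ⟨by rw [Measure.restrict_apply_univ]; simp⟩

instance : IsProbabilityMeasure (D.ringL d) := by
  unfold ringL; infer_instance

/-- environment seen in configuration `a` -/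
def env0 (a : Cfg d A) : Edge d → ℝ := fun e => D.ph (a e)

lemma ringStep_eq (a : Cfg d A) (x : Site d) (δ : Dir d) (u : ℝ) :
    ringStep D.κ D.lam (D.env0 a) x δ u = if u < D.pr a x δ then x + stepVec δ else x := by
  classical
  unfold ringStep pr acc env0
  have h := D.clock_pos
  have h1 : (clockRate D.κ D.lam * u <
      Real.exp (D.lam * ((stepVec δ 0 : ℤ) : ℝ)) * D.ph (a (edgeAt x δ))) ↔
      (u < Real.exp (D.lam * ((stepVec δ 0 : ℤ) : ℝ)) * D.ph (a (edgeAt x δ)) /
        clockRate D.κ D.lam) := by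
    rw [lt_div_iff₀ h, mul_comm u]
  by_cases h2 : clockRate D.κ D.lam * u <
      Real.exp (D.lam * ((stepVec δ 0 : ℤ) : ℝ)) * D.ph (a (edgeAt x δ))
  · rw [if_pos h2, if_pos (h1.1 h2)]
  · rw [if_neg h2, if_neg (fun h3 => h2 (h1.2 h3))]

lemma lintegral_mark (a : Cfg d A) (x : Site d) (δ : Dir d) (f : Site d → ℝ≥0∞) :
    ∫⁻ u in Set.Icc (0 : ℝ) 1, f (ringStep D.κ D.lam (D.env0 a) x δ u) =
      ENNReal.ofReal (D.pr a x δ) * f (x + stepVec δ) +
      ENNReal.ofReal (1 - D.pr a x δ) * f x := by
  have hp0 := D.pr_nonneg a x δ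
  have hp1 := D.pr_le_half a x δ
  set p := D.pr a x δ with hp
  have h1 : ∀ u, f (ringStep D.κ D.lam (D.env0 a) x δ u) =
      (Set.Iio p).indicator (fun _ => f (x + stepVec δ)) u +
      (Set.Ici p).indicator (fun _ => f x) u := by
    intro u
    rw [D.ringStep_eq]
    by_cases h : u < p
    · rw [if_pos h, Set.indicator_of_mem (by exact h), Set.indicator_of_notMem (by simpa using h),
        add_zero]
    · rw [if_neg h, Set.indicator_of_notMem (by simpa using h),
        Set.indicator_of_mem (by simpa using h), zero_add]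
  simp only [h1]
  rw [lintegral_add_left (measurable_const.indicator measurableSet_Iio),
    lintegral_indicator measurableSet_Iio, lintegral_indicator measurableSet_Ici,
    setLIntegral_const, setLIntegral_const, Measure.restrict_apply measurableSet_Iio,
    Measure.restrict_apply measurableSet_Ici]
  have e1 : Set.Iio p ∩ Set.Icc (0 : ℝ) 1 = Set.Ico 0 p := by
    ext u; simp only [Set.mem_inter_iff, Set.mem_Iio, Set.mem_Icc, Set.mem_Ico]
    constructor
    · rintro ⟨h1, h2, h3⟩; exact ⟨h2, h1⟩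
    · rintro ⟨h1, h2⟩; exact ⟨h2, h1, by linarith⟩
  have e2 : Set.Ici p ∩ Set.Icc (0 : ℝ) 1 = Set.Icc p 1 := by
    ext u; simp only [Set.mem_inter_iff, Set.mem_Ici, Set.mem_Icc]
    constructor
    · rintro ⟨h1, h2, h3⟩; exact ⟨h1, h3⟩
    · rintro ⟨h1, h2⟩; exact ⟨h1, by linarith, h2⟩
  rw [e1, e2, Real.volume_Ico, Real.volume_Icc, sub_zero, mul_comm, mul_comm (f x)]

/-- expectation over one ring, after the shift of the configuration -/
lemma ring_sum (a : Cfg d A) (x : Site d) (f : Site d → ℝ≥0∞) :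
    ∫⁻ δ, (∫⁻ u in Set.Icc (0 : ℝ) 1, f (ringStep D.κ D.lam (D.env0 a) x δ u))
      ∂(uniformOn (Set.univ : Set (Dir d))) = ∑ j, D.coK j a x * f (x + disp j) := by
  rw [lintegral_uniformDir]
  simp only [D.lintegral_mark a x]
  rw [Fintype.sum_option]
  simp only [coK, disp, add_zero]
  have hn := nd_pos d
  have h0 : (nd d).toNNReal ≠ 0 := (Real.toNNReal_pos.2 hn).ne'
  have h2 : (((nd d).toNNReal⁻¹ : NNReal) : ℝ≥0∞) = ENNReal.ofReal ((nd d)⁻¹) := by
    rw [← Real.toNNReal_inv]; rfl
  rw [h2, Finset.sum_add_distrib, mul_add, add_comm]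
  congr 1
  · rw [← Finset.sum_mul, ← mul_assoc, ← ENNReal.ofReal_sum_of_nonneg, ← ENNReal.ofReal_mul]
    · congr 2
      rw [Finset.mul_sum]
      exact Finset.sum_congr rfl fun δ _ => by ring
    · positivity
    · intro δ _; have := D.pr_le_half a x δ; linarith
  · rw [Finset.mul_sum]
    refine Finset.sum_congr rfl fun δ _ => ?_
    rw [← mul_assoc, ← ENNReal.ofReal_mul (by positivity)]
    congr 2
    ring

/-- the walk, recursion on the first ring -/
noncomputable def fw : ℕ → Cfg d A → (ℕ → ℝ × Dir d × ℝ) → Site d → Site d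
  | 0, _, _, x => x
  | n + 1, a, w, x => fw n (D.sh (w 0).1 a) (fun k => w (k + 1))
      (ringStep D.κ D.lam (D.env0 (D.sh (w 0).1 a)) x (w 0).2.1 (w 0).2.2)

lemma ringStep_measurable :
    Measurable (fun p : (Cfg d A × ℝ) × (Dir d × Site d) =>
      ringStep D.κ D.lam (D.env0 p.1.1) p.2.2 p.2.1 p.1.2) := by
  refine measurable_from_prod_countable_left fun y => ?_
  obtain ⟨δ, x⟩ := y
  simp only [D.ringStep_eq]
  refine Measurable.ite ?_ measurable_const measurable_const
  exact measurableSet_lt measurable_snd ((D.pr_measurable x δ).comp measurable_fst)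

lemma fw_measurable (n : ℕ) :
    Measurable (fun p : Cfg d A × (ℕ → ℝ × Dir d × ℝ) × Site d => D.fw n p.1 p.2.1 p.2.2) := by
  induction n with
  | zero => exact measurable_snd.comp measurable_snd
  | succ n ih =>
    simp only [fw]
    have h0 : Measurable (fun p : Cfg d A × (ℕ → ℝ × Dir d × ℝ) × Site d => p.2.1 0) :=
      (measurable_pi_apply 0).comp (measurable_fst.comp measurable_snd)
    have h1 : Measurable (fun p : Cfg d A × (ℕ → ℝ × Dir d × ℝ) × Site d =>
        D.sh (p.2.1 0).1 p.1) := by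
      exact D.sh_measurable.comp ((measurable_fst.comp h0).prodMk measurable_fst)
    have h2 : Measurable (fun p : Cfg d A × (ℕ → ℝ × Dir d × ℝ) × Site d =>
        fun k => p.2.1 (k + 1)) := by
      refine measurable_pi_lambda _ fun k => ?_
      exact (measurable_pi_apply (k + 1)).comp (measurable_fst.comp measurable_snd)
    have h3 : Measurable (fun p : Cfg d A × (ℕ → ℝ × Dir d × ℝ) × Site d =>
        ringStep D.κ D.lam (D.env0 (D.sh (p.2.1 0).1 p.1)) p.2.2 (p.2.1 0).2.1
          (p.2.1 0).2.2) := by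
      have h4 : Measurable (fun p : Cfg d A × (ℕ → ℝ × Dir d × ℝ) × Site d =>
          (((D.sh (p.2.1 0).1 p.1, (p.2.1 0).2.2), ((p.2.1 0).2.1, p.2.2)) :
            (Cfg d A × ℝ) × (Dir d × Site d))) :=
        (h1.prodMk ((measurable_snd.comp measurable_snd).comp h0)).prodMk
          (((measurable_fst.comp measurable_snd).comp h0).prodMk
            (measurable_snd.comp measurable_snd))
      exact D.ringStep_measurable.comp h4
    exact ih.comp (h1.prodMk (h2.prodMk h3))

/-- law of the walk noise -/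
noncomputable def Pw (d : ℕ) : Measure (ℕ → ℝ × Dir d × ℝ) :=
  Measure.infinitePi fun _ : ℕ => D.ringL d

instance : IsProbabilityMeasure (D.Pw d) := by unfold Pw; infer_instance

/-- the walk stays below level `M` during the first `n` rings -/
def Alive (M : ℤ) (n : ℕ) (a : Cfg d A) (w : ℕ → ℝ × Dir d × ℝ) (x : Site d) : Prop :=
  ∀ j ≤ n, (D.fw j a w x) 0 < M

lemma alive_measurableSet (M : ℤ) (n : ℕ) :
    MeasurableSet {p : Cfg d A × (ℕ → ℝ × Dir d × ℝ) × Site d | D.Alive M n p.1 p.2.1 p.2.2} := by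
  have : {p : Cfg d A × (ℕ → ℝ × Dir d × ℝ) × Site d | D.Alive M n p.1 p.2.1 p.2.2} =
      ⋂ j ∈ Finset.range (n + 1), {p | (D.fw j p.1 p.2.1 p.2.2) 0 < M} := by
    ext p
    simp only [Alive, Set.mem_iInter, Finset.mem_range, Set.mem_ofPred_eq]
    exact ⟨fun h j hj => h j (by omega), fun h j hj => h j (by omega)⟩
  rw [this]
  refine Finset.measurableSet_biInter _ fun j _ => ?_
  exact measurableSet_lt ((measurable_pi_apply 0).comp (D.fw_measurable j)) measurable_const

lemma alive_succ (M : ℤ) (n : ℕ) (a : Cfg d A) (w : ℕ → ℝ × Dir d × ℝ) (x : Site d) :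
    D.Alive M (n + 1) a w x ↔ x 0 < M ∧ D.Alive M n (D.sh (w 0).1 a) (fun k => w (k + 1))
      (ringStep D.κ D.lam (D.env0 (D.sh (w 0).1 a)) x (w 0).2.1 (w 0).2.2) := by
  unfold Alive
  constructor
  · intro h
    exact ⟨h 0 (by omega), fun j hj => h (j + 1) (by omega)⟩
  · rintro ⟨h1, h2⟩ j hj
    cases j with
    | zero => exact h1
    | succ j => exact h2 j (by omega)

open Classical in
/-- indicator of `Alive` -/
noncomputable def al (M : ℤ) (n : ℕ) (a : Cfg d A) (w : ℕ → ℝ × Dir d × ℝ) (x : Site d) : ℝ≥0∞ :=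
  if D.Alive M n a w x then 1 else 0

lemma al_measurable (M : ℤ) (n : ℕ) :
    Measurable (fun p : Cfg d A × (ℕ → ℝ × Dir d × ℝ) × Site d => D.al M n p.1 p.2.1 p.2.2) := by
  unfold al
  exact Measurable.ite (D.alive_measurableSet M n) measurable_const measurable_const

lemma sv_eq (M : ℤ) (n : ℕ) : ∀ (a : Cfg d A) (x : Site d),
    ∫⁻ w, D.al M n a w x ∂(D.Pw d) = D.sv M n a x := by
  induction n with
  | zero =>
    intro a x
    have : ∀ w, D.al M 0 a w x = if x 0 < M then 1 else 0 := by
      intro w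
      unfold al Alive
      congr 1
      simp [fw]
    simp only [this, sv]
    simp
  | succ n ih =>
    intro a x
    simp only [sv]
    have hm : Measurable fun w => D.al M (n + 1) a w x :=
      (D.al_measurable M (n + 1)).comp
        (measurable_const.prodMk (measurable_id.prodMk measurable_const))
    by_cases h : x 0 < M
    · rw [if_pos h]
      unfold Pw
      rw [lintegral_consSeq _ hm]
      have h1 : ∀ (z : ℝ × Dir d × ℝ) (w : ℕ → ℝ × Dir d × ℝ), D.al M (n + 1) a (consSeq z w) x =
          D.al M n (D.sh z.1 a) w (ringStep D.κ D.lam (D.env0 (D.sh z.1 a)) x z.2.1 z.2.2) := by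
        intro z w
        classical
        unfold al
        refine if_congr ?_ rfl rfl
        rw [alive_succ]
        simp only [h, true_and]
        exact Iff.rfl
      simp only [h1]
      change ∫⁻ z, ∫⁻ w, D.al M n (D.sh z.1 a) w
        (ringStep D.κ D.lam (D.env0 (D.sh z.1 a)) x z.2.1 z.2.2) ∂(D.Pw d) ∂(D.ringL d) = _
      simp only [ih]
      have hsvm : Measurable fun p : Cfg d A × Site d => D.sv M n p.1 p.2 := by
        refine measurable_from_prod_countable_left fun x => ?_
        exact D.sv_MF M n x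
      have h2 : Measurable fun z : ℝ × Dir d × ℝ => D.sv M n (D.sh z.1 a)
          (ringStep D.κ D.lam (D.env0 (D.sh z.1 a)) x z.2.1 z.2.2) := by
        have h3 : Measurable fun z : ℝ × Dir d × ℝ => D.sh z.1 a :=
          D.sh_measurable.comp (measurable_fst.prodMk measurable_const)
        have h4 : Measurable fun z : ℝ × Dir d × ℝ =>
            (((D.sh z.1 a, z.2.2), (z.2.1, x)) : (Cfg d A × ℝ) × (Dir d × Site d)) :=
          (h3.prodMk (measurable_snd.comp measurable_snd)).prodMk
            ((measurable_fst.comp measurable_snd).prodMk measurable_const)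
        exact hsvm.comp (h3.prodMk (D.ringStep_measurable.comp h4))
      unfold ringL
      rw [lintegral_prod _ h2.aemeasurable]
      unfold KK op
      refine lintegral_congr fun s => ?_
      have h5 : Measurable fun y : Dir d × ℝ => D.sv M n (D.sh s a)
          (ringStep D.κ D.lam (D.env0 (D.sh s a)) x y.1 y.2) :=
        h2.comp (measurable_const.prodMk measurable_id)
      change ∫⁻ y : Dir d × ℝ, D.sv M n (D.sh s a)
          (ringStep D.κ D.lam (D.env0 (D.sh s a)) x y.1 y.2)
          ∂((uniformOn (Set.univ : Set (Dir d))).prod (volume.restrict (Set.Icc (0 : ℝ) 1))) = _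
      rw [lintegral_prod _ h5.aemeasurable]
      exact D.ring_sum (D.sh s a) x (fun y => D.sv M n (D.sh s a) y)
    · rw [if_neg h]
      have : ∀ w, D.al M (n + 1) a w x = 0 := by
        intro w
        unfold al
        rw [if_neg]
        intro h1
        exact h (h1 0 (by omega))
      simp [this]

/-- annealed survival probabilities -/
noncomputable def sg (d : ℕ) (M : ℤ) (n : ℕ) : ℝ≥0∞ :=
  ∫⁻ p : Cfg d A × (ℕ → ℝ × Dir d × ℝ), D.al M n p.1 p.2 0 ∂(D.PE.prod (D.Pw d))

lemma al_measurable0 (M : ℤ) (n : ℕ) :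
    Measurable (fun p : Cfg d A × (ℕ → ℝ × Dir d × ℝ) => D.al M n p.1 p.2 0) :=
  (D.al_measurable M n).comp
    (measurable_fst.prodMk (measurable_snd.prodMk measurable_const))

lemma sg_eq (M : ℤ) (n : ℕ) : D.sg d M n = ∫⁻ a : Cfg d A, D.sv M n a 0 ∂D.PE := by
  unfold sg
  rw [lintegral_prod _ (D.al_measurable0 M n).aemeasurable]
  exact lintegral_congr fun a => D.sv_eq M n a 0

lemma hh_eq_tsum (M : ℤ) : D.hh d M = ∑' n, D.sg d M n := by
  unfold hh
  simp only [gg_eq_tsum, sg_eq]
  rw [lintegral_tsum (fun n => (D.sv_MF M n 0).aemeasurable)]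

lemma sg_le_pol {M : ℕ} {n : ℕ} (hn : K0 (D.rr d) D.lam * M ≤ n) :
    D.sg d (M : ℤ) n ≤ ENNReal.ofReal (pol d n * D.rr d ^ n) := by
  rw [sg_eq]
  calc ∫⁻ a : Cfg d A, D.sv (M : ℤ) n a 0 ∂D.PE
      ≤ ∫⁻ _a : Cfg d A, ENNReal.ofReal (pol d n * D.rr d ^ n) ∂D.PE :=
        lintegral_mono fun a => D.sv_le_pol (M : ℤ) n a 0 (j := M) (by simp) hn
    _ = _ := by simp

lemma hh_le (M : ℕ) : D.hh d (M : ℤ) ≤ ENNReal.ofReal (C1 d (D.rr d) D.lam * ((M : ℝ) + 1)) := by
  unfold hh
  calc ∫⁻ a : Cfg d A, D.gg (M : ℤ) a 0 ∂D.PE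
      ≤ ∫⁻ _a : Cfg d A, ENNReal.ofReal (C1 d (D.rr d) D.lam * ((M : ℝ) + 1)) ∂D.PE :=
        lintegral_mono fun a => D.gg_le (M : ℤ) a 0 (by simp)
    _ = _ := by simp

end Dyn

end Pool.Agent.Helper90.SlowRefresh
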