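import Mathlib
import Pool.Agent.Helper90.SlowRefresh.Path
import Pool.Agent.Helper90.SlowRefresh.Osc

open MeasureTheory ProbabilityTheory Filter
open scoped ENNReal Topology

namespace Pool.Agent.Helper90.SlowRefresh

set_option linter.unusedSectionVars false

section Deterministic

variable {y : ℕ → ℤ}

open Classical in
/-- number of `j < N` with `y` below `M` up to time `j` -/
noncomputable def cA (y : ℕ → ℤ) (M : ℤ) (N : ℕ) : ℕ :=
  ∑ j ∈ Finset.range N, if ∀ i ≤ j, y i < M then 1 else 0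

lemma cA_of_hit {M : ℤ} {H : ℕ} (h1 : M ≤ y H) (h2 : ∀ i < H, y i < M) (N : ℕ) :
    cA y M N = min H N := by
  classical
  unfold cA
  have h3 : ∀ j, (∀ i ≤ j, y i < M) ↔ j < H := by
    intro j
    constructor
    · intro h
      by_contra hj
      push Not at hj
      exact absurd (h H hj) (not_lt.2 h1)
    · intro hj i hi
      exact h2 i (by omega)
  simp only [h3]
  rw [Finset.sum_ite, Finset.sum_const_zero, add_zero, Finset.sum_const, smul_eq_mul, mul_one]
  have : (Finset.range N).filter (fun j => j < H) = Finset.range (min H N) := by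
    ext j; simp [and_comm]
  rw [this, Finset.card_range]

lemma le_self_of_step (h0 : y 0 = 0) (hs : ∀ n, y (n + 1) ≤ y n + 1) (n : ℕ) : y n ≤ n := by
  induction n with
  | zero => simp [h0]
  | succ n ih => have := hs n; push_cast; omega

lemma cA_tendsto_pos (h0 : y 0 = 0) (hs : ∀ n, y (n + 1) ≤ y n + 1) {v : ℝ} (hv : 0 < v)
    (hlim : Tendsto (fun n : ℕ => (y n : ℝ) / n) atTop (𝓝 v)) (B : ℕ) :
    Tendsto (fun M : ℕ => (cA y (M : ℤ) (B * M) : ℝ) / M) atTop (𝓝 (min (1 / v) B)) := by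
  classical
  have htop : Tendsto (fun n : ℕ => (y n : ℝ)) atTop atTop := by
    have h3 : Tendsto (fun n : ℕ => ((y n : ℝ) / n) * (n : ℝ)) atTop atTop :=
      Tendsto.pos_mul_atTop hv hlim tendsto_natCast_atTop_atTop
    refine h3.congr' ?_
    filter_upwards [eventually_gt_atTop 0] with n hn
    have : (n : ℝ) ≠ 0 := by positivity
    field_simp
  have hex : ∀ M : ℕ, ∃ n, (M : ℤ) ≤ y n := by
    intro M
    obtain ⟨n, hn⟩ := (htop.eventually_ge_atTop (M : ℝ)).exists
    exact ⟨n, by exact_mod_cast hn⟩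
  set H : ℕ → ℕ := fun M => Nat.find (hex M) with hH
  have hH1 : ∀ M : ℕ, (M : ℤ) ≤ y (H M) := fun M => Nat.find_spec (hex M)
  have hH2 : ∀ M : ℕ, ∀ i < H M, y i < (M : ℤ) := fun M i hi => by
    have := Nat.find_min (hex M) hi
    omega
  have hHM : ∀ M, M ≤ H M := by
    intro M
    have h1 := hH1 M
    have h2 := le_self_of_step h0 hs (H M)
    omega
  have hyH : ∀ M : ℕ, 0 < M → y (H M) = M := by
    intro M hM
    refine le_antisymm ?_ (hH1 M)
    have hpos : 0 < H M := lt_of_lt_of_le hM (hHM M)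
    obtain ⟨k, hk⟩ := Nat.exists_eq_succ_of_ne_zero hpos.ne'
    rw [hk]
    have h1 := hs k
    have h2 := hH2 M k (by omega)
    have : y (Nat.succ k) = y (k + 1) := rfl
    omega
  have hHtop : Tendsto H atTop atTop := tendsto_atTop_mono hHM tendsto_id
  have h4 : Tendsto (fun M : ℕ => (H M : ℝ) / M) atTop (𝓝 (1 / v)) := by
    have h5 := (hlim.comp hHtop).inv₀ hv.ne'
    rw [one_div]
    refine h5.congr' ?_
    filter_upwards [eventually_gt_atTop 0] with M hM
    simp only [Function.comp_apply]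
    rw [hyH M hM, inv_div]
    push_cast
    rfl
  have h6 : Tendsto (fun M : ℕ => min ((H M : ℝ) / M) (B : ℝ)) atTop (𝓝 (min (1 / v) B)) :=
    h4.min tendsto_const_nhds
  refine h6.congr' ?_
  filter_upwards [eventually_gt_atTop 0] with M hM
  rw [cA_of_hit (hH1 M) (hH2 M)]
  have hM' : (0 : ℝ) < M := by exact_mod_cast hM
  have e1 : (B : ℝ) = (B : ℝ) * M / M := by rw [mul_div_assoc, div_self hM'.ne', mul_one]
  conv_lhs => rw [e1]
  rw [min_div_div_right hM'.le]
  push_cast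
  rfl

lemma cA_tendsto_nonpos (h0 : y 0 = 0) (hs : ∀ n, y (n + 1) ≤ y n + 1) {v : ℝ} (hv : v ≤ 0)
    (hlim : Tendsto (fun n : ℕ => (y n : ℝ) / n) atTop (𝓝 v)) (B : ℕ) (hB : 0 < B) :
    Tendsto (fun M : ℕ => (cA y (M : ℤ) (B * M) : ℝ) / M) atTop (𝓝 (B : ℝ)) := by
  classical
  have hB' : (0 : ℝ) < B := by exact_mod_cast hB
  have hε : v < 1 / (2 * B) := lt_of_le_of_lt hv (by positivity)
  obtain ⟨N0, hN0⟩ := eventually_atTop.1 (hlim.eventually (gt_mem_nhds hε))
  refine tendsto_const_nhds.congr' ?_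
  filter_upwards [eventually_gt_atTop (N0 + 1)] with M hM
  have hM' : (0 : ℝ) < M := by exact_mod_cast (by omega : 0 < M)
  have hall : ∀ i ≤ B * M, y i < (M : ℤ) := by
    intro i hi
    rcases lt_or_ge i (N0 + 1) with h | h
    · have := le_self_of_step h0 hs i
      omega
    · have h1 := hN0 i (by omega)
      have hi' : (0 : ℝ) < i := by exact_mod_cast (by omega : 0 < i)
      rw [div_lt_iff₀ hi'] at h1
      have h2 : (i : ℝ) ≤ B * M := by exact_mod_cast hi
      have h3 : (y i : ℝ) < M := by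
        have h4 : 1 / (2 * (B : ℝ)) * i ≤ 1 / (2 * (B : ℝ)) * (B * M) := by gcongr
        have h5 : 1 / (2 * (B : ℝ)) * (B * M) = M / 2 := by field_simp
        linarith
      exact_mod_cast h3
  have : cA y (M : ℤ) (B * M) = B * M := by
    unfold cA
    rw [Finset.sum_congr rfl (g := fun _ => 1)]
    · simp
    · intro j hj
      rw [if_pos]
      intro i hi
      exact hall i (by have := Finset.mem_range.1 hj; omega)
  rw [this]
  push_cast
  rw [mul_div_assoc, div_self hM'.ne', mul_one]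

lemma cA_le (M : ℤ) (N : ℕ) : cA y M N ≤ N := by
  classical
  unfold cA
  calc _ ≤ ∑ j ∈ Finset.range N, 1 := Finset.sum_le_sum fun j _ => by split_ifs <;> simp
    _ = N := by simp

end Deterministic

/-- quasi-additive sequences -/
lemma quasi_additive {h : ℕ → ℝ} {C τ : ℝ} (hadd : ∀ L M, |h (L + M) - h L - h M| ≤ C)
    (hlim : Tendsto (fun M : ℕ => h M / M) atTop (𝓝 τ)) (M : ℕ) (hM : 0 < M) :
    |τ - h M / M| ≤ C / M := by
  have hC : 0 ≤ C := le_trans (abs_nonneg _) (hadd 0 0)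
  have hM' : (0 : ℝ) < M := by exact_mod_cast hM
  have h1 : ∀ k : ℕ, |h ((k + 1) * M) - (k + 1) * h M| ≤ k * C := by
    intro k
    induction k with
    | zero => simp
    | succ k ih =>
      have h2 := hadd ((k + 1) * M) M
      have e : (k + 1 + 1) * M = (k + 1) * M + M := by ring
      rw [e]
      push_cast
      have : h ((k + 1) * M + M) - (k + 1 + 1) * h M =
          (h ((k + 1) * M + M) - h ((k + 1) * M) - h M) +
          (h ((k + 1) * M) - (k + 1) * h M) := by ring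
      rw [this]
      refine (abs_add_le _ _).trans ?_
      linarith
  have h3 : ∀ k : ℕ, |h ((k + 1) * M) / (((k + 1) * M : ℕ) : ℝ) - h M / M| ≤ C / M := by
    intro k
    have hk : (0 : ℝ) < (k : ℝ) + 1 := by positivity
    have e : h ((k + 1) * M) / (((k + 1) * M : ℕ) : ℝ) - h M / M =
        (h ((k + 1) * M) - (k + 1) * h M) / ((k + 1) * M) := by
      push_cast
      field_simp
    rw [e, abs_div, abs_of_pos (show (0 : ℝ) < (k + 1) * M by positivity), div_le_div_iff₀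
      (by positivity) hM']
    have h4 := h1 k
    have h5 : (k : ℝ) * C * M ≤ C * ((k + 1) * M) := by nlinarith [mul_nonneg hC hM'.le]
    have h6 := mul_le_mul_of_nonneg_right h4 hM'.le
    linarith
  have h4 : Tendsto (fun k : ℕ => (k + 1) * M) atTop atTop := by
    refine tendsto_atTop_mono (f := fun k => k) (fun k => ?_) tendsto_id
    nlinarith
  have h5 : Tendsto (fun k : ℕ => |h ((k + 1) * M) / (((k + 1) * M : ℕ) : ℝ) - h M / M|) atTop
      (𝓝 |τ - h M / M|) := ((hlim.comp h4).sub_const _).abs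
  exact le_of_tendsto' h5 h3

variable {d : ℕ} {A : Type} [MeasurableSpace A]

namespace Dyn

variable (D : Dyn A)

lemma fw_succ' (n : ℕ) : ∀ (a : Cfg d A) (w : ℕ → ℝ × Dir d × ℝ) (x : Site d),
    ∃ b δ u, D.fw (n + 1) a w x = ringStep D.κ D.lam b (D.fw n a w x) δ u := by
  induction n with
  | zero => intro a w x; exact ⟨_, _, _, rfl⟩
  | succ n ih =>
    intro a w x
    exact ih (D.sh (w 0).1 a) (fun k => w (k + 1))
      (ringStep D.κ D.lam (D.env0 (D.sh (w 0).1 a)) x (w 0).2.1 (w 0).2.2)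

lemma fw_step (n : ℕ) (a : Cfg d A) (w : ℕ → ℝ × Dir d × ℝ) (x : Site d) :
    (D.fw (n + 1) a w x) 0 ≤ (D.fw n a w x) 0 + 1 := by
  obtain ⟨b, δ, u, h⟩ := D.fw_succ' n a w x
  rw [h]
  unfold ringStep
  split_ifs
  · have := (abs_le.1 (abs_stepVec_zero_le δ)).2
    simp only [Pi.add_apply]; omega
  · omega

/-- expected hitting times as real numbers -/
noncomputable def hr (d : ℕ) (M : ℕ) : ℝ := (D.hh d (M : ℤ)).toReal

lemma hh_ne_top (M : ℕ) : D.hh d (M : ℤ) ≠ ⊤ :=
  ne_top_of_le_ne_top ENNReal.ofReal_ne_top (D.hh_le M)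

lemma hr_add (L M : ℕ) : |D.hr d (L + M) - D.hr d L - D.hr d M| ≤ D.Cst d := by
  have h1 := D.hh_add_le (d := d) L M
  have h2 := D.hh_add_ge (d := d) L M
  have hC := D.Cst_nonneg (d := d)
  have t1 := ENNReal.toReal_mono (by
    exact ENNReal.add_ne_top.2 ⟨ENNReal.add_ne_top.2 ⟨D.hh_ne_top L, D.hh_ne_top M⟩,
      ENNReal.ofReal_ne_top⟩) h1
  have t2 := ENNReal.toReal_mono (by
    exact ENNReal.add_ne_top.2 ⟨D.hh_ne_top (L + M), ENNReal.ofReal_ne_top⟩) h2
  rw [ENNReal.toReal_add (ENNReal.add_ne_top.2 ⟨D.hh_ne_top L, D.hh_ne_top M⟩)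
    ENNReal.ofReal_ne_top, ENNReal.toReal_add (D.hh_ne_top L) (D.hh_ne_top M),
    ENNReal.toReal_ofReal hC] at t1
  rw [ENNReal.toReal_add (D.hh_ne_top L) (D.hh_ne_top M),
    ENNReal.toReal_add (D.hh_ne_top (L + M)) ENNReal.ofReal_ne_top,
    ENNReal.toReal_ofReal hC] at t2
  unfold hr
  rw [abs_le]
  constructor <;> linarith

lemma hr_le (M : ℕ) : D.hr d M ≤ C1 d (D.rr d) D.lam * ((M : ℝ) + 1) := by
  have h := ENNReal.toReal_mono ENNReal.ofReal_ne_top (D.hh_le (d := d) M)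
  have h2 := C1_nonneg d (D.rr_pos (d := d)) D.lam
  rwa [ENNReal.toReal_ofReal (by positivity)] at h

/-- truncated sums of the annealed survival probabilities -/
lemma trunc_tendsto {Lim : ℝ} (hL : 0 ≤ Lim) {B : ℕ}
    (hae : ∀ᵐ p ∂((D.PE (d := d)).prod (D.Pw d)),
      Tendsto (fun M : ℕ => (cA (fun n => (D.fw n p.1 p.2 0) 0) (M : ℤ) (B * M) : ℝ) / M) atTop
        (𝓝 Lim)) :
    Tendsto (fun M : ℕ => (∑ n ∈ Finset.range (B * M), D.sg d (M : ℤ) n) / (M : ℝ≥0∞)) atTop
      (𝓝 (ENNReal.ofReal Lim)) := by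
  classical
  have h1 : ∀ M : ℕ, (∑ n ∈ Finset.range (B * M), D.sg d (M : ℤ) n) / (M : ℝ≥0∞) =
      ∫⁻ p, (∑ n ∈ Finset.range (B * M), D.al (M : ℤ) n p.1 p.2 0) / (M : ℝ≥0∞)
        ∂((D.PE (d := d)).prod (D.Pw d)) := by
    intro M
    unfold sg
    rw [← lintegral_finsetSum _ (fun n _ => D.al_measurable0 (M : ℤ) n)]
    simp only [div_eq_mul_inv]
    rw [lintegral_mul_const _ (Finset.measurable_sum _ fun n _ => D.al_measurable0 (M : ℤ) n)]
  have h2 : ∀ (M : ℕ) (p : Cfg d A × (ℕ → ℝ × Dir d × ℝ)),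
      ∑ n ∈ Finset.range (B * M), D.al (M : ℤ) n p.1 p.2 0 =
        ((cA (fun n => (D.fw n p.1 p.2 0) 0) (M : ℤ) (B * M) : ℕ) : ℝ≥0∞) := by
    intro M p
    unfold cA
    push_cast
    refine Finset.sum_congr rfl fun n _ => ?_
    unfold al Alive
    split_ifs <;> simp
  have h3 : ENNReal.ofReal Lim =
      ∫⁻ _p, ENNReal.ofReal Lim ∂((D.PE (d := d)).prod (D.Pw d)) := by simp
  rw [h3]
  simp only [h1]
  refine tendsto_lintegral_of_dominated_convergence (fun _ => (B : ℝ≥0∞)) ?_ ?_ ?_ ?_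
  · intro M
    exact (Finset.measurable_sum _ fun n _ => D.al_measurable0 (M : ℤ) n).div_const _
  · intro M
    refine Eventually.of_forall fun p => ?_
    simp only []
    rw [h2]
    refine ENNReal.div_le_of_le_mul ?_
    have := cA_le (y := fun n => (D.fw n p.1 p.2 0) 0) (M : ℤ) (B * M)
    exact_mod_cast this
  · simp
  · filter_upwards [hae] with p hp
    simp only [h2]
    have h4 := (ENNReal.continuous_ofReal.tendsto Lim).comp hp
    refine h4.congr' ?_
    filter_upwards [eventually_gt_atTop 0] with M hM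
    simp only [Function.comp_apply]
    rw [ENNReal.ofReal_div_of_pos (by exact_mod_cast hM), ENNReal.ofReal_natCast,
      ENNReal.ofReal_natCast]

lemma sg_ne_top (M : ℤ) (n : ℕ) : D.sg d M n ≤ 1 := by
  rw [sg_eq]
  calc ∫⁻ a : Cfg d A, D.sv M n a 0 ∂D.PE ≤ ∫⁻ _a : Cfg d A, 1 ∂D.PE :=
        lintegral_mono fun a => D.sv_le_one M n a 0
    _ = 1 := by simp

lemma hh_split (M : ℤ) (N : ℕ) : D.hh d M = ∑ n ∈ Finset.range N, D.sg d M n +
    ∑' n, D.sg d M (n + N) := by
  rw [hh_eq_tsum]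
  exact (ENNReal.summable.sum_add_tsum_nat_add' (f := fun n => D.sg d M n)).symm

lemma tail_tendsto {B : ℕ} (hB1 : 0 < B) (hB : K0 (D.rr d) D.lam ≤ B) :
    Tendsto (fun M : ℕ => ∑' n, D.sg d (M : ℤ) (n + B * M)) atTop (𝓝 0) := by
  have h0 := D.rr_pos (d := d)
  have h1 := D.rr_lt_one (d := d)
  have hs := summable_pol0 d h0 h1
  have h2 : ∀ M : ℕ, ∑' n, D.sg d (M : ℤ) (n + B * M) ≤
      ∑' n, ENNReal.ofReal (pol d (n + B * M) * D.rr d ^ (n + B * M)) := by
    intro M
    refine ENNReal.tsum_le_tsum fun n => ?_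
    refine D.sg_le_pol (M := M) (n := n + B * M) ?_
    have : K0 (D.rr d) D.lam * M ≤ B * M := Nat.mul_le_mul_right _ hB
    omega
  have h3 : Tendsto (fun N : ℕ => ∑' n, ENNReal.ofReal (pol d (n + N) * D.rr d ^ (n + N))) atTop
      (𝓝 0) := by
    refine ENNReal.tendsto_sum_nat_add (fun n => ENNReal.ofReal (pol d n * D.rr d ^ n)) ?_
    rw [← ENNReal.ofReal_tsum_of_nonneg (fun n => pol_term_nonneg d n h0) hs]
    exact ENNReal.ofReal_ne_top
  have h4 : Tendsto (fun M : ℕ => B * M) atTop atTop :=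
    tendsto_atTop_mono (f := fun k => k) (fun k => by nlinarith) tendsto_id
  refine tendsto_of_tendsto_of_tendsto_of_le_of_le tendsto_const_nhds (h3.comp h4)
    (fun _ => zero_le) h2

/-- the annealed hitting times grow linearly with slope `1 / v` -/
theorem hr_limit {v : ℝ} (hae : ∀ᵐ p ∂((D.PE (d := d)).prod (D.Pw d)),
      Tendsto (fun n : ℕ => ((D.fw n p.1 p.2 0) 0 : ℝ) / n) atTop (𝓝 v)) :
    0 < v ∧ Tendsto (fun M : ℕ => D.hr d M / M) atTop (𝓝 (1 / v)) := by
  set C := C1 d (D.rr d) D.lam with hC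
  have hC0 : 0 ≤ C := C1_nonneg d (D.rr_pos (d := d)) D.lam
  obtain ⟨B, hB1, hB2, hB3⟩ : ∃ B : ℕ, 0 < B ∧ K0 (D.rr d) D.lam ≤ B ∧ C < B := by
    refine ⟨max (K0 (D.rr d) D.lam) (⌈C⌉₊ + 1), ?_, le_max_left _ _, ?_⟩
    · exact lt_of_lt_of_le (Nat.succ_pos _) (le_max_right _ _)
    · refine lt_of_lt_of_le (b := ((⌈C⌉₊ + 1 : ℕ) : ℝ)) ?_ ?_
      · push_cast
        have := Nat.le_ceil C
        linarith
      · exact_mod_cast le_max_right _ _
  -- the limit with truncation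
  have key : ∀ Lim : ℝ, 0 ≤ Lim → (∀ᵐ p ∂((D.PE (d := d)).prod (D.Pw d)),
      Tendsto (fun M : ℕ => (cA (fun n => (D.fw n p.1 p.2 0) 0) (M : ℤ) (B * M) : ℝ) / M) atTop
        (𝓝 Lim)) → Tendsto (fun M : ℕ => D.hr d M / M) atTop (𝓝 Lim) := by
    intro Lim hLim hp
    have h1 := D.trunc_tendsto hLim hp
    have h2 := D.tail_tendsto hB1 hB2
    have h3 : Tendsto (fun M : ℕ => (∑' n, D.sg d (M : ℤ) (n + B * M)) / (M : ℝ≥0∞)) atTop
        (𝓝 0) := by
      refine tendsto_of_tendsto_of_tendsto_of_le_of_le' tendsto_const_nhds h2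
        (Eventually.of_forall fun _ => zero_le) ?_
      filter_upwards [eventually_gt_atTop 0] with M hM
      have : (1 : ℝ≥0∞) ≤ M := by exact_mod_cast hM
      exact ENNReal.div_le_of_le_mul (le_mul_of_one_le_right' this)
    have h4 := h1.add h3
    rw [add_zero] at h4
    have h5 : Tendsto (fun M : ℕ => D.hh d (M : ℤ) / (M : ℝ≥0∞)) atTop
        (𝓝 (ENNReal.ofReal Lim)) := by
      refine h4.congr fun M => ?_
      rw [← ENNReal.add_div, ← D.hh_split]
    have h6 := (ENNReal.tendsto_toReal ENNReal.ofReal_ne_top).comp h5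
    rw [ENNReal.toReal_ofReal hLim] at h6
    refine h6.congr fun M => ?_
    simp only [Function.comp_apply]
    rw [ENNReal.toReal_div]
    simp [hr]
  have hup : ∀ Lim : ℝ, Tendsto (fun M : ℕ => D.hr d M / M) atTop (𝓝 Lim) → Lim ≤ C := by
    intro Lim h
    have h1 : Tendsto (fun M : ℕ => C + C * (1 / (M : ℝ))) atTop (𝓝 (C + C * 0)) :=
      tendsto_const_nhds.add (tendsto_const_nhds.mul tendsto_one_div_atTop_nhds_zero_nat)
    rw [mul_zero, add_zero] at h1
    refine le_of_tendsto_of_tendsto h h1 ?_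
    filter_upwards [eventually_gt_atTop 0] with M hM
    have hM' : (0 : ℝ) < M := by exact_mod_cast hM
    rw [div_le_iff₀ hM']
    refine (D.hr_le M).trans (le_of_eq ?_)
    rw [← hC]
    field_simp
  have hy0 : ∀ p : Cfg d A × (ℕ → ℝ × Dir d × ℝ), (fun n => (D.fw n p.1 p.2 0) 0) 0 = (0 : ℤ) :=
    fun p => rfl
  have hys : ∀ (p : Cfg d A × (ℕ → ℝ × Dir d × ℝ)) (n : ℕ),
      (fun n => (D.fw n p.1 p.2 0) 0) (n + 1) ≤ (fun n => (D.fw n p.1 p.2 0) 0) n + 1 :=
    fun p n => D.fw_step n p.1 p.2 0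
  rcases lt_or_ge 0 v with hv | hv
  · refine ⟨hv, ?_⟩
    have hBp : (0 : ℝ) ≤ B := by positivity
    have h1 := key (min (1 / v) B) (le_min (by positivity) hBp)
      (hae.mono fun p hp => cA_tendsto_pos (y := fun n => (D.fw n p.1 p.2 0) 0)
        (hy0 p) (hys p) hv hp B)
    have h2 := hup _ h1
    have h3 : min (1 / v) (B : ℝ) = 1 / v := by
      rcases min_choice (1 / v) (B : ℝ) with h | h
      · exact h
      · rw [h] at h2; exact absurd h2 (not_le.2 hB3)
    rw [h3] at h1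
    exact h1
  · exfalso
    have h1 := key (B : ℝ) (by positivity)
      (hae.mono fun p hp => cA_tendsto_nonpos (y := fun n => (D.fw n p.1 p.2 0) 0)
        (hy0 p) (hys p) hv hp B hB1)
    exact absurd (hup _ h1) (not_le.2 hB3)

/-- uniform rate of convergence -/
theorem hr_rate {v : ℝ} (hae : ∀ᵐ p ∂((D.PE (d := d)).prod (D.Pw d)),
      Tendsto (fun n : ℕ => ((D.fw n p.1 p.2 0) 0 : ℝ) / n) atTop (𝓝 v)) (M : ℕ) (hM : 0 < M) :
    |1 / v - D.hr d M / M| ≤ D.Cst d / M :=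
  quasi_additive (D.hr_add (d := d)) (D.hr_limit hae).2 M hM

end Dyn

end Pool.Agent.Helper90.SlowRefresh
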