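import Mathlib
import Pool.Agent.Helper90.SlowRefresh.Limit

open MeasureTheory ProbabilityTheory Filter
open scoped ENNReal Topology

namespace Pool.Agent.Helper90.SlowRefresh

set_option linter.unusedSectionVars false

variable {d : ℕ} {A : Type} [MeasurableSpace A]

namespace Dyn

variable (D : Dyn A)

/-- truncated second moment of the hitting time of level `M` -/
noncomputable def g2T (M : ℤ) : ℕ → Cfg d A → Site d → ℝ≥0∞
  | 0 => fun _ _ => 0
  | n + 1 => fun a x => if x 0 < M then 1 + (2 * D.KK (D.gT M n) a x + D.KK (g2T M n) a x) else 0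

lemma g2T_MF (M : ℤ) (n : ℕ) : MF (D.g2T (d := d) M n) := by
  induction n with
  | zero => exact fun _ => measurable_const
  | succ n ih =>
    intro x
    simp only [g2T]
    split_ifs
    · exact (((D.KK_MF (D.gT_MF M n) x).const_mul 2).add (D.KK_MF ih x)).const_add 1
    · exact measurable_const

lemma g2T_eq_sum (M : ℤ) (n : ℕ) (a : Cfg d A) (x : Site d) :
    D.g2T M n a x = ∑ j ∈ Finset.range n, (2 * (j : ℝ≥0∞) + 1) * D.sv M j a x := by
  induction n generalizing a x with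
  | zero => simp [g2T]
  | succ n ih =>
    rw [Finset.sum_range_succ']
    simp only [g2T]
    split_ifs with h
    · have e1 : D.gT (d := d) M n = fun a x => ∑ j ∈ Finset.range n, D.sv M j a x := by
        funext a x; exact D.gT_eq_sum M n a x
      have e2 : D.g2T (d := d) M n =
          fun a x => ∑ j ∈ Finset.range n, (2 * (j : ℝ≥0∞) + 1) * D.sv M j a x := by
        funext a x; exact ih a x
      rw [e1, e2, D.KK_sum _ (fun j => D.sv_MF M j),
        D.KK_sum _ (fun j => fun x => (D.sv_MF M j x).const_mul _), Finset.mul_sum,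
        ← Finset.sum_add_distrib, add_comm]
      congr 1
      · refine Finset.sum_congr rfl fun j _ => ?_
        rw [D.KK_const_mul (D.sv_MF M j)]
        simp only [sv, if_pos h]
        push_cast
        ring
      · simp [sv, h]
    · have : ∀ j, D.sv M j a x = 0 := by
        intro j
        cases j with
        | zero => simp [sv, h]
        | succ j => simp [sv, h]
      simp [this]

lemma g2T_mono (M : ℤ) (a : Cfg d A) (x : Site d) : Monotone fun n => D.g2T M n a x := by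
  intro n m h
  simp only [g2T_eq_sum]
  exact Finset.sum_le_sum_of_subset (Finset.range_mono h)

/-- second moment of the hitting time -/
noncomputable def gg2 (M : ℤ) (a : Cfg d A) (x : Site d) : ℝ≥0∞ := ⨆ n, D.g2T M n a x

lemma gg2_MF (M : ℤ) : MF (D.gg2 (d := d) M) := fun x => Measurable.iSup fun n => D.g2T_MF M n x

lemma g2T_le_gg2 (M : ℤ) (n : ℕ) (a : Cfg d A) (x : Site d) : D.g2T M n a x ≤ D.gg2 M a x :=
  le_iSup (fun n => D.g2T M n a x) n

lemma gg2_eq_tsum (M : ℤ) (a : Cfg d A) (x : Site d) :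
    D.gg2 M a x = ∑' n : ℕ, (2 * (n : ℝ≥0∞) + 1) * D.sv M n a x := by
  unfold gg2
  simp only [g2T_eq_sum]
  rw [ENNReal.tsum_eq_iSup_nat]

lemma g2T_of_ge {M : ℤ} {x : Site d} (h : M ≤ x 0) (n : ℕ) (a : Cfg d A) :
    D.g2T M n a x = 0 := by
  cases n with
  | zero => rfl
  | succ n => simp only [g2T]; rw [if_neg (not_lt.2 h)]

lemma g2T_trs (M : ℤ) (n : ℕ) (a : Cfg d A) (x y : Site d) :
    D.g2T M n (trs y a) x = D.g2T (M + y 0) n a (x + y) := by
  induction n generalizing a x with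
  | zero => rfl
  | succ n ih =>
    simp only [g2T]
    have h1 : (x 0 < M) ↔ ((x + y) 0 < M + y 0) := by simp only [Pi.add_apply]; omega
    by_cases h : x 0 < M
    · rw [if_pos h, if_pos (h1.1 h)]
      congr 1
      unfold KK op
      congr 1
      · congr 1
        refine lintegral_congr fun s => Finset.sum_congr rfl fun j _ => ?_
        rw [sh_trs, coK_trs, gT_trs, add_right_comm]
      · refine lintegral_congr fun s => Finset.sum_congr rfl fun j _ => ?_
        rw [sh_trs, coK_trs, ih, add_right_comm]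
    · rw [if_neg h, if_neg (fun h' => h (h1.2 h'))]

lemma gg2_trs (M : ℤ) (a : Cfg d A) (x y : Site d) :
    D.gg2 M (trs y a) x = D.gg2 (M + y 0) a (x + y) := by
  unfold gg2
  simp only [g2T_trs]

lemma RL_gg2_eq (L M : ℤ) (a : Cfg d A) (x : Site d) (hx : x 0 = L) :
    D.RL L (D.gg2 M) a x = D.RL 0 (D.gg2 (M - L)) (trs x a) 0 := by
  unfold RL
  have h1 : ∀ r : Cfg d A, D.gg2 M (splice L a r) x =
      D.gg2 (M - L) (splice 0 (trs x a) (trs x r)) 0 := by
    intro r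
    have h2 := trs_splice x 0 a r
    rw [zero_add, hx] at h2
    rw [← h2, gg2_trs, zero_add, hx, sub_add_cancel]
  simp only [h1]
  exact (D.trs_mp x).lintegral_comp (f := fun r => D.gg2 (M - L) (splice 0 (trs x a) r) 0)
    ((D.gg2_MF _ _).comp (splice_meas_right 0 _))

/-- supremum over the left environment of the second moment -/
noncomputable def hi2 (d : ℕ) (k : ℤ) : ℝ≥0∞ := ⨆ a : Cfg d A, D.RL 0 (D.gg2 k) a 0

lemma RL_gg2_le_hi2 (L M : ℤ) (a : Cfg d A) (x : Site d) (hx : x 0 = L) :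
    D.RL L (D.gg2 M) a x ≤ D.hi2 d (M - L) := by
  rw [D.RL_gg2_eq L M a x hx]
  exact le_iSup (fun a : Cfg d A => D.RL 0 (D.gg2 (M - L)) a 0) (trs x a)

lemma RL_g2T_succ {L M : ℤ} (n : ℕ) (a : Cfg d A) (x : Site d) (h1 : x 0 < L) (h2 : x 0 < M) :
    D.RL L (D.g2T M (n + 1)) a x =
      1 + (2 * D.KK (D.RL L (D.gT M n)) a x + D.KK (D.RL L (D.g2T M n)) a x) := by
  have h3 : D.RL L (D.g2T M (n + 1)) a x =
      D.RL L (fun a x => 1 + (2 * D.KK (D.gT M n) a x + D.KK (D.g2T M n) a x)) a x :=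
    D.RL_congr L x (fun a' => by simp only [g2T]; rw [if_pos h2]) a
  rw [h3, D.RL_const_add, D.RL_add L (f := fun a x => 2 * D.KK (D.gT M n) a x)
    (fun x => (D.KK_MF (D.gT_MF M n) x).const_mul 2), D.RL_const_mul L (D.KK_MF (D.gT_MF M n)),
    D.RL_KK h1 (D.gT_MF M n), D.RL_KK h1 (D.g2T_MF M n)]

lemma hit2_upper {L M : ℤ} (hLM : L ≤ M) (n : ℕ) : ∀ (a : Cfg d A) (y : Site d), y 0 ≤ L →
    D.RL L (D.g2T M n) a y ≤ D.RL L (D.g2T L n) a y +
      (2 * D.hi d (M - L) * D.RL L (D.gT L n) a y + D.hi2 d (M - L)) := by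
  induction n with
  | zero => intro a y _; simp [g2T, RL]
  | succ n ih =>
    intro a y hy
    rcases lt_or_ge (y 0) L with h | h
    · rw [D.RL_g2T_succ n a y h (lt_of_lt_of_le h hLM), D.RL_g2T_succ n a y h h,
        D.RL_gT_succ n a y h h]
      set H := D.hi d (M - L)
      set H2 := D.hi2 d (M - L)
      have hstep : ∀ (a' : Cfg d A) (j : Option (Dir d)), (y + disp j) 0 ≤ L := by
        intro a' j
        have := disp_le j y
        omega
      have h1 : D.KK (D.RL L (D.gT M n)) a y ≤ D.KK (D.RL L (D.gT L n)) a y + H := by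
        have : D.KK (D.RL L (D.gT M n)) a y ≤
            D.KK (fun a y => D.RL L (D.gT L n) a y + H) a y :=
          D.op_mono' _ a y fun a' j _ => D.hit_upper hLM n a' _ (hstep a' j)
        rwa [D.KK_add (D.RL_MF L (D.gT_MF L n)), D.KK_const] at this
      have h2 : D.KK (D.RL L (D.g2T M n)) a y ≤ D.KK (D.RL L (D.g2T L n)) a y +
          (2 * H * D.KK (D.RL L (D.gT L n)) a y + H2) := by
        have h3 : D.KK (D.RL L (D.g2T M n)) a y ≤
            D.KK (fun a y => D.RL L (D.g2T L n) a y +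
              (2 * H * D.RL L (D.gT L n) a y + H2)) a y :=
          D.op_mono' _ a y fun a' j _ => ih a' _ (hstep a' j)
        rwa [D.KK_add (D.RL_MF L (D.g2T_MF L n)),
          D.KK_add (f := fun a y => 2 * H * D.RL L (D.gT L n) a y)
            (fun x => (D.RL_MF L (D.gT_MF L n) x).const_mul _),
          D.KK_const, D.KK_const_mul (D.RL_MF L (D.gT_MF L n))] at h3
      calc 1 + (2 * D.KK (D.RL L (D.gT M n)) a y + D.KK (D.RL L (D.g2T M n)) a y)
          ≤ 1 + (2 * (D.KK (D.RL L (D.gT L n)) a y + H) + (D.KK (D.RL L (D.g2T L n)) a y +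
          (2 * H * D.KK (D.RL L (D.gT L n)) a y + H2))) := by gcongr
        _ = _ := by ring
    · have h1 : y 0 = L := le_antisymm hy h
      refine le_trans ?_ le_add_self
      refine le_trans ?_ le_add_self
      refine (D.RL_mono L y (fun a' => D.g2T_le_gg2 M (n + 1) a' y) a).trans ?_
      exact D.RL_gg2_le_hi2 L M a y h1

lemma hit2_upper' {L M : ℤ} (hLM : L ≤ M) (a : Cfg d A) (y : Site d) (hy : y 0 ≤ L) :
    D.RL L (D.gg2 M) a y ≤ D.RL L (D.gg2 L) a y +
      (2 * D.hi d (M - L) * D.RL L (D.gg L) a y + D.hi2 d (M - L)) := by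
  have h1 : D.RL L (D.gg2 M) a y = ⨆ n, D.RL L (D.g2T M n) a y :=
    D.RL_iSup L (fun n => D.g2T_MF M n) (fun a x => D.g2T_mono M a x) a y
  rw [h1]
  refine iSup_le fun n => (D.hit2_upper hLM n a y hy).trans ?_
  refine add_le_add (D.RL_mono L y (fun a' => D.g2T_le_gg2 L n a' y) a)
    (add_le_add_left (mul_le_mul_right ?_ _) _)
  exact D.RL_mono L y (fun a' => D.gT_le_gg L n a' y) a

lemma hi2_add (L M : ℕ) : D.hi2 d ((L + M : ℕ) : ℤ) ≤
    D.hi2 d (L : ℤ) + (2 * D.hi d (M : ℤ) * D.hi d (L : ℤ) + D.hi2 d (M : ℤ)) := by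
  unfold hi2
  refine iSup_le fun a => ?_
  rw [← D.RL_RL (L := 0) (L' := (L : ℤ)) (by positivity) (D.gg2_MF _)]
  have h1 : ∀ a' : Cfg d A, D.RL (L : ℤ) (D.gg2 ((L + M : ℕ) : ℤ)) a' 0 ≤
      D.RL (L : ℤ) (D.gg2 (L : ℤ)) a' 0 +
      (2 * D.hi d (M : ℤ) * D.RL (L : ℤ) (D.gg (L : ℤ)) a' 0 + D.hi2 d (M : ℤ)) := by
    intro a'
    have h2 := D.hit2_upper' (L := (L : ℤ)) (M := ((L + M : ℕ) : ℤ)) (by push_cast; omega)
      a' 0 (by simp)
    have h3 : ((L + M : ℕ) : ℤ) - (L : ℤ) = (M : ℤ) := by push_cast; ring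
    rw [h3] at h2
    exact h2
  have h4 : D.RL 0 (fun a' x => D.RL (L : ℤ) (D.gg2 (L : ℤ)) a' x +
      (2 * D.hi d (M : ℤ) * D.RL (L : ℤ) (D.gg (L : ℤ)) a' x + D.hi2 d (M : ℤ))) a 0 =
      D.RL 0 (D.gg2 (L : ℤ)) a 0 +
      (2 * D.hi d (M : ℤ) * D.RL 0 (D.gg (L : ℤ)) a 0 + D.hi2 d (M : ℤ)) := by
    rw [D.RL_add 0 (D.RL_MF _ (D.gg2_MF _)),
      D.RL_add 0 (f := fun a' x => 2 * D.hi d (M : ℤ) * D.RL (L : ℤ) (D.gg (L : ℤ)) a' x)
        (fun x => (D.RL_MF _ (D.gg_MF _) x).const_mul _),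
      D.RL_const_mul 0 (D.RL_MF _ (D.gg_MF _)), D.RL_const,
      D.RL_RL (by positivity) (D.gg2_MF _), D.RL_RL (by positivity) (D.gg_MF _)]
  refine (D.RL_mono 0 0 h1 a).trans (h4.le.trans ?_)
  refine add_le_add (le_iSup (fun a : Cfg d A => D.RL 0 (D.gg2 (L : ℤ)) a 0) a)
    (add_le_add_left (mul_le_mul_right ?_ _) _)
  exact le_iSup (fun a : Cfg d A => D.RL 0 (D.gg (L : ℤ)) a 0) a

lemma lo_add (L M : ℕ) : D.lo d (L : ℤ) + D.lo d (M : ℤ) ≤ D.lo d ((L + M : ℕ) : ℤ) := by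
  unfold lo
  refine le_iInf fun a => ?_
  rw [← D.RL_RL (L := 0) (L' := (L : ℤ)) (by positivity) (D.gg_MF ((L + M : ℕ) : ℤ))]
  have h1 : ∀ a' : Cfg d A, D.RL (L : ℤ) (D.gg (L : ℤ)) a' 0 + D.lo d (M : ℤ) ≤
      D.RL (L : ℤ) (D.gg ((L + M : ℕ) : ℤ)) a' 0 := by
    intro a'
    have h2 := D.hit_lower' (L := (L : ℤ)) (M := ((L + M : ℕ) : ℤ)) (by push_cast; omega)
      a' 0 (by simp)
    have h3 : ((L + M : ℕ) : ℤ) - (L : ℤ) = (M : ℤ) := by push_cast; ring
    rw [h3] at h2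
    exact h2
  have h4 : D.RL 0 (fun a' x => D.RL (L : ℤ) (D.gg (L : ℤ)) a' x + D.lo d (M : ℤ)) a 0 =
      D.RL 0 (D.gg (L : ℤ)) a 0 + D.lo d (M : ℤ) := by
    rw [D.RL_add 0 (D.RL_MF _ (D.gg_MF _)), D.RL_const,
      D.RL_RL (by positivity) (D.gg_MF _)]
  refine le_trans ?_ (D.RL_mono 0
    (f := fun a' x => D.RL (L : ℤ) (D.gg (L : ℤ)) a' x + D.lo d (M : ℤ)) 0 h1 a)
  rw [h4]
  exact add_le_add_left (iInf_le (fun a : Cfg d A => D.RL 0 (D.gg (L : ℤ)) a 0) a) _

/-- third constant, for second moments -/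
noncomputable def C3 (d : ℕ) (r lam : ℝ) : ℝ :=
  (2 * (K0 r lam : ℝ) + 1) ^ 2 + 2 * ∑' n : ℕ, ((n : ℝ) + 3) * (pol d n * r ^ n)

lemma C3_nonneg (d : ℕ) {r : ℝ} (h0 : 0 < r) (lam : ℝ) : 0 ≤ C3 d r lam := by
  unfold C3
  have : 0 ≤ ∑' n : ℕ, ((n : ℝ) + 3) * (pol d n * r ^ n) := tsum_nonneg fun n => by
    have := pol_term_nonneg d n h0; positivity
  positivity

lemma gg2_le (M : ℤ) (a : Cfg d A) (x : Site d) {j : ℕ} (hj : M - x 0 ≤ j) :
    D.gg2 M a x ≤ ENNReal.ofReal (C3 d (D.rr d) D.lam * ((j : ℝ) + 1) ^ 2) := by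
  have h0 := D.rr_pos (d := d)
  have h1 := D.rr_lt_one (d := d)
  set N := K0 (D.rr d) D.lam * j with hN
  rw [gg2_eq_tsum]
  have hnn : ∀ n : ℕ, 0 ≤ ((n : ℝ) + 3) * (pol d n * D.rr d ^ n) := fun n => by
    have := pol_term_nonneg d n h0; positivity
  have h2 : ∀ n : ℕ, (2 * (n : ℝ≥0∞) + 1) * D.sv M n a x ≤
      (if n < N then ENNReal.ofReal (2 * (N : ℝ)) else 0) +
      ENNReal.ofReal (2 * (((n : ℝ) + 3) * (pol d n * D.rr d ^ n))) := by
    intro n
    have e : (2 * (n : ℝ≥0∞) + 1) = ENNReal.ofReal (2 * (n : ℝ) + 1) := by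
      rw [ENNReal.ofReal_add (by positivity) (by norm_num), ENNReal.ofReal_mul (by norm_num)]
      simp
    split_ifs with h
    · refine le_trans ?_ le_self_add
      rw [e]
      calc ENNReal.ofReal (2 * (n : ℝ) + 1) * D.sv M n a x
          ≤ ENNReal.ofReal (2 * (n : ℝ) + 1) * 1 := mul_le_mul_right (D.sv_le_one M n a x) _
        _ ≤ ENNReal.ofReal (2 * (N : ℝ)) := by
          rw [mul_one]
          refine ENNReal.ofReal_le_ofReal ?_
          have : (n : ℝ) + 1 ≤ N := by exact_mod_cast h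
          linarith
    · rw [zero_add, e]
      have h3 := D.sv_le_pol M n a x hj (not_lt.1 h)
      refine (mul_le_mul_right h3 _).trans ?_
      rw [← ENNReal.ofReal_mul (by positivity)]
      refine ENNReal.ofReal_le_ofReal ?_
      have := pol_term_nonneg d n h0
      nlinarith
  refine (ENNReal.tsum_le_tsum h2).trans ?_
  rw [ENNReal.tsum_add, ← ENNReal.ofReal_tsum_of_nonneg (fun n => by have := hnn n; linarith)
    ((summable_pol1 d h0 h1).mul_left 2)]
  have h3 : ∑' n : ℕ, (if n < N then ENNReal.ofReal (2 * (N : ℝ)) else 0) =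
      ENNReal.ofReal (2 * (N : ℝ) * N) := by
    rw [tsum_eq_sum (s := Finset.range N)]
    · rw [Finset.sum_congr rfl (g := fun _ => ENNReal.ofReal (2 * (N : ℝ))) (fun n hn => by
        rw [if_pos (Finset.mem_range.1 hn)])]
      simp only [Finset.sum_const, Finset.card_range, nsmul_eq_mul]
      rw [← ENNReal.ofReal_natCast, ← ENNReal.ofReal_mul (by positivity)]
      congr 1; ring
    · intro n hn
      rw [if_neg (by simpa using hn)]
  rw [h3, tsum_mul_left, ← ENNReal.ofReal_add (by positivity)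
    (mul_nonneg (by norm_num) (tsum_nonneg hnn))]
  refine ENNReal.ofReal_le_ofReal ?_
  unfold C3
  set S := ∑' n : ℕ, ((n : ℝ) + 3) * (pol d n * D.rr d ^ n)
  have hS : 0 ≤ S := tsum_nonneg hnn
  have e1 : (N : ℝ) = (K0 (D.rr d) D.lam : ℝ) * j := by rw [hN]; push_cast; ring
  rw [e1]
  set K : ℝ := (K0 (D.rr d) D.lam : ℝ)
  have hK : 0 ≤ K := Nat.cast_nonneg _
  have hj0 : (0 : ℝ) ≤ j := Nat.cast_nonneg _
  have h5 : 2 * (K * j) * (K * j) ≤ (2 * K + 1) ^ 2 * ((j : ℝ) + 1) ^ 2 := by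
    have : (K * j) ≤ (2 * K + 1) * ((j : ℝ) + 1) := by nlinarith
    have h6 : 0 ≤ K * j := by positivity
    nlinarith [mul_nonneg hK hj0]
  have h7 : 2 * S ≤ 2 * S * ((j : ℝ) + 1) ^ 2 := by
    have : (1 : ℝ) ≤ ((j : ℝ) + 1) ^ 2 := by nlinarith
    nlinarith
  nlinarith

end Dyn

end Pool.Agent.Helper90.SlowRefresh
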