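import Mathlib
import Pool.Agent.Helper90.SlowRefresh.Second

open MeasureTheory ProbabilityTheory Filter
open scoped ENNReal Topology

namespace Pool.Agent.Helper90.SlowRefresh

set_option linter.unusedSectionVars false

section Deterministic

/-- from dyadic multiples to the full sequence -/
lemma grid_tendsto {f : ℕ → ℝ} (hf : Monotone f) {τ : ℝ} (hτ : 0 < τ)
    (hg : ∀ m : ℕ, 0 < m → Tendsto (fun k : ℕ => f (m * 2 ^ k) / ((m * 2 ^ k : ℕ) : ℝ)) atTop
      (𝓝 τ)) : Tendsto (fun M : ℕ => f M / M) atTop (𝓝 τ) := by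
  rw [Metric.tendsto_atTop]
  intro ε hε
  -- choose δ and N
  obtain ⟨δ, hδ0, hδ1, hδ2⟩ : ∃ δ : ℝ, 0 < δ ∧ δ < τ ∧ δ < ε / 4 := by
    refine ⟨min (τ / 2) (ε / 8), by positivity, ?_, ?_⟩
    · exact lt_of_le_of_lt (min_le_left _ _) (by linarith)
    · exact lt_of_le_of_lt (min_le_right _ _) (by linarith)
  obtain ⟨N, hN⟩ := exists_nat_gt (4 * (τ + δ) / ε + 1)
  have hN1 : (1 : ℝ) < N := by
    have : 0 < 4 * (τ + δ) / ε := by positivity
    linarith
  have hN0 : 0 < N := by exact_mod_cast (by linarith : (0 : ℝ) < N)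
  have hNε : (τ + δ) / N < ε / 4 := by
    rw [div_lt_iff₀ (by linarith)]
    have h1 : 4 * (τ + δ) / ε < N := by linarith
    rw [div_lt_iff₀ hε] at h1
    linarith
  have hK : ∀ᶠ k : ℕ in atTop, ∀ m ∈ Finset.Icc N (2 * N),
      |f (m * 2 ^ k) / ((m * 2 ^ k : ℕ) : ℝ) - τ| < δ := by
    rw [Filter.eventually_all_finset]
    intro m hm
    have hm0 : 0 < m := lt_of_lt_of_le hN0 (Finset.mem_Icc.1 hm).1
    have := (Metric.tendsto_nhds.1 (hg m hm0)) δ hδ0
    filter_upwards [this] with k hk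
    rwa [Real.dist_eq] at hk
  obtain ⟨K, hK⟩ := eventually_atTop.1 hK
  refine ⟨N * 2 ^ K, fun M hM => ?_⟩
  set k := Nat.log 2 (M / N) with hk
  have hMN : 2 ^ K ≤ M / N := (Nat.le_div_iff_mul_le hN0).2 (by rw [mul_comm]; exact hM)
  have hMN0 : M / N ≠ 0 := by
    have : 0 < 2 ^ K := by positivity
    omega
  have hkK : K ≤ k := by
    rw [hk]; exact Nat.le_log_of_pow_le (by norm_num) hMN
  have h1 : 2 ^ k ≤ M / N := Nat.pow_log_le_self 2 hMN0
  have h2 : M / N < 2 ^ (k + 1) := Nat.lt_pow_succ_log_self (by norm_num) _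
  have h3 : N * 2 ^ k ≤ M := by
    have := (Nat.le_div_iff_mul_le hN0).1 h1
    rwa [mul_comm] at this
  have h4 : M < 2 * N * 2 ^ k := by
    have := (Nat.div_lt_iff_lt_mul hN0).1 h2
    rw [pow_succ] at this
    nlinarith
  have hp : 0 < 2 ^ k := by positivity
  set m := M / 2 ^ k with hm
  have h5 : N ≤ m := (Nat.le_div_iff_mul_le hp).2 h3
  have h6 : m < 2 * N := (Nat.div_lt_iff_lt_mul hp).2 h4
  have h7 : m * 2 ^ k ≤ M := Nat.div_mul_le_self M (2 ^ k)
  have h8 : M < (m + 1) * 2 ^ k := by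
    have := Nat.lt_div_mul_add (a := M) hp
    rw [add_mul, one_mul]; exact this
  have hm0 : 0 < m := lt_of_lt_of_le hN0 h5
  have b1 := hK k hkK m (Finset.mem_Icc.2 ⟨h5, h6.le⟩)
  have b2 := hK k hkK (m + 1) (Finset.mem_Icc.2 ⟨by omega, by omega⟩)
  have hfm : f (m * 2 ^ k) ≤ f M := hf h7
  have hfM : f M ≤ f ((m + 1) * 2 ^ k) := hf h8.le
  have hmR : (0 : ℝ) < m := by exact_mod_cast hm0
  have hNR : (0 : ℝ) < N := by exact_mod_cast hN0
  have hpR : (0 : ℝ) < 2 ^ k := by positivity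
  have hMR : (0 : ℝ) < M := by
    have : 0 < M := lt_of_lt_of_le (by positivity) h7
    exact_mod_cast this
  have h7R : (m : ℝ) * 2 ^ k ≤ M := by exact_mod_cast h7
  have h8R : (M : ℝ) < ((m : ℝ) + 1) * 2 ^ k := by exact_mod_cast h8
  have h5R : (N : ℝ) ≤ m := by exact_mod_cast h5
  rw [abs_lt] at b1 b2
  push_cast at b1 b2
  have c1 : (τ - δ) * (m * 2 ^ k) < f (m * 2 ^ k) := by
    have := b1.1
    have h9 : τ - δ < f (m * 2 ^ k) / (m * 2 ^ k) := by linarith
    rwa [lt_div_iff₀ (by positivity)] at h9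
  have c2 : f ((m + 1) * 2 ^ k) < (τ + δ) * ((m + 1) * 2 ^ k) := by
    have := b2.2
    have h9 : f ((m + 1) * 2 ^ k) / ((m + 1) * 2 ^ k) < τ + δ := by linarith
    rwa [div_lt_iff₀ (by positivity)] at h9
  rw [Real.dist_eq, abs_lt]
  constructor
  · have h9 : τ - ε < f M / M := by
      rw [lt_div_iff₀ hMR]
      have e1 : (τ - δ) * (M - 2 ^ k) ≤ (τ - δ) * (m * 2 ^ k) := by
        refine mul_le_mul_of_nonneg_left ?_ (by linarith)
        linarith
      have e2 : (2 : ℝ) ^ k ≤ M / N := by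
        rw [le_div_iff₀ hNR]
        calc (2 : ℝ) ^ k * N ≤ 2 ^ k * m := by gcongr
          _ = m * 2 ^ k := by ring
          _ ≤ M := h7R
      have e3 : (τ - δ) * 2 ^ k ≤ (τ + δ) / N * M := by
        calc (τ - δ) * 2 ^ k ≤ (τ + δ) * (M / N) := by
              refine mul_le_mul (by linarith) e2 hpR.le (by linarith)
          _ = (τ + δ) / N * M := by ring
      nlinarith
    linarith
  · have h9 : f M / M < τ + ε := by
      rw [div_lt_iff₀ hMR]
      have e1 : (τ + δ) * ((m + 1) * 2 ^ k) ≤ (τ + δ) * (M + 2 ^ k) := by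
        refine mul_le_mul_of_nonneg_left ?_ (by linarith)
        linarith
      have e2 : (2 : ℝ) ^ k ≤ M / N := by
        rw [le_div_iff₀ hNR]
        calc (2 : ℝ) ^ k * N ≤ 2 ^ k * m := by gcongr
          _ = m * 2 ^ k := by ring
          _ ≤ M := h7R
      have e3 : (τ + δ) * 2 ^ k ≤ (τ + δ) / N * M := by
        calc (τ + δ) * 2 ^ k ≤ (τ + δ) * (M / N) := by gcongr
          _ = (τ + δ) / N * M := by ring
      nlinarith
    linarith

/-- from hitting times to positions -/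
lemma position_tendsto {y : ℕ → ℤ} (h0 : y 0 = 0) (hs : ∀ n, y (n + 1) ≤ y n + 1)
    {T : ℕ → ℕ} (hT1 : ∀ M : ℕ, (M : ℤ) ≤ y (T M)) (hT2 : ∀ M : ℕ, ∀ i < T M, y i < (M : ℤ))
    {τ : ℝ} (hτ : 0 < τ) (hT : Tendsto (fun M : ℕ => (T M : ℝ) / M) atTop (𝓝 τ))
    (hb : ∀ i : ℕ, 0 < i → ∀ᶠ n : ℕ in atTop, ∀ j ≤ n, y j - (n / i : ℕ) < y n) :
    Tendsto (fun n : ℕ => (y n : ℝ) / n) atTop (𝓝 (1 / τ)) := by
  classical
  -- running maximum as a natural number: largest `M ≤ n` with `T M ≤ n`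
  have hT0 : T 0 = 0 := by
    by_contra h
    have := hT2 0 0 (Nat.pos_of_ne_zero h)
    rw [h0] at this
    simp at this
  have hTM : ∀ M, M ≤ T M := fun M => by
    have h1 := hT1 M
    have h2 := le_self_of_step h0 hs (T M)
    omega
  set X : ℕ → ℕ := fun n => Nat.findGreatest (fun M => T M ≤ n) n with hX
  have hX1 : ∀ n, T (X n) ≤ n := fun n =>
    Nat.findGreatest_spec (P := fun M => T M ≤ n) (m := 0) (Nat.zero_le n) (by rw [hT0]; omega)
  have hX2 : ∀ n, n < T (X n + 1) := by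
    intro n
    by_contra h
    push Not at h
    have h1 : X n + 1 ≤ n := (hTM _).trans h
    have h2 : X n + 1 ≤ X n := Nat.le_findGreatest (P := fun M => T M ≤ n) h1 h
    omega
  have hXtop : Tendsto X atTop atTop := by
    rw [tendsto_atTop]
    intro M
    filter_upwards [eventually_ge_atTop (T M)] with n hn
    exact Nat.le_findGreatest ((hTM M).trans hn) hn
  -- `n / X n → τ`
  have hlow : Tendsto (fun n : ℕ => (T (X n) : ℝ) / X n) atTop (𝓝 τ) := hT.comp hXtop
  have hup : Tendsto (fun n : ℕ => (T (X n + 1) : ℝ) / X n) atTop (𝓝 τ) := by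
    have h1 : Tendsto (fun M : ℕ => (T (M + 1) : ℝ) / ((M + 1 : ℕ) : ℝ)) atTop (𝓝 τ) :=
      hT.comp (tendsto_add_atTop_nat 1)
    have h2 : Tendsto (fun M : ℕ => (((M + 1 : ℕ) : ℝ)) / M) atTop (𝓝 1) := by
      have h3 : Tendsto (fun M : ℕ => 1 + 1 / (M : ℝ)) atTop (𝓝 (1 + 0)) :=
        tendsto_const_nhds.add tendsto_one_div_atTop_nhds_zero_nat
      rw [add_zero] at h3
      refine h3.congr' ?_
      filter_upwards [eventually_gt_atTop 0] with M hM
      have : (M : ℝ) ≠ 0 := by positivity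
      push_cast
      field_simp
    have h4 := h1.mul h2
    rw [mul_one] at h4
    have h5 : Tendsto (fun M : ℕ => (T (M + 1) : ℝ) / M) atTop (𝓝 τ) := by
      refine h4.congr fun M => ?_
      have : ((M + 1 : ℕ) : ℝ) ≠ 0 := by positivity
      field_simp
    exact h5.comp hXtop
  have hmid : Tendsto (fun n : ℕ => (n : ℝ) / X n) atTop (𝓝 τ) := by
    refine tendsto_of_tendsto_of_tendsto_of_le_of_le hlow hup ?_ ?_
    · intro n
      exact div_le_div_of_nonneg_right (Nat.cast_le.2 (hX1 n)) (Nat.cast_nonneg _)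
    · intro n
      exact div_le_div_of_nonneg_right (Nat.cast_le.2 (hX2 n).le) (Nat.cast_nonneg _)
  have hXn : Tendsto (fun n : ℕ => (X n : ℝ) / n) atTop (𝓝 (1 / τ)) := by
    rw [one_div]
    refine (hmid.inv₀ hτ.ne').congr fun n => ?_
    rw [inv_div]
  -- compare `y n` with `X n`
  have hyX : ∀ n, y n ≤ X n := by
    intro n
    by_contra h
    push Not at h
    have h1 : n < T (X n + 1) := hX2 n
    have h2 := hT2 (X n + 1) n h1
    push_cast at h2
    omega
  have hXy : ∀ i : ℕ, 0 < i → ∀ᶠ n : ℕ in atTop, (X n : ℝ) - n / i ≤ y n := by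
    intro i hi
    filter_upwards [hb i hi] with n hn
    have h1 := hn (T (X n)) (hX1 n)
    have h2 := hT1 (X n)
    have h5 : ((n / i : ℕ) : ℝ) ≤ (n : ℝ) / i := Nat.cast_div_le
    generalize n / i = Q at h1 h5
    have h3 : (X n : ℤ) ≤ y n + Q := by omega
    have h4 : (X n : ℝ) ≤ y n + Q := by exact_mod_cast h3
    linarith
  rw [Metric.tendsto_atTop]
  intro ε hε
  obtain ⟨i, hi⟩ := exists_nat_gt (2 / ε)
  have hi0 : 0 < i := by
    have : (0 : ℝ) < i := lt_trans (by positivity) hi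
    exact_mod_cast this
  have hiR : (0 : ℝ) < i := by exact_mod_cast hi0
  have hi2 : 1 / (i : ℝ) < ε / 2 := by
    rw [div_lt_iff₀ hε] at hi
    rw [div_lt_iff₀ hiR]
    linarith
  have h1 := (Metric.tendsto_nhds.1 hXn) (ε / 2) (by positivity)
  have h2 : ∀ᶠ n : ℕ in atTop, dist ((y n : ℝ) / n) (1 / τ) < ε := by
    filter_upwards [h1, hXy i hi0, eventually_gt_atTop 0] with n hn1 hn2 hn3
    have hnR : (0 : ℝ) < n := by exact_mod_cast hn3
    rw [Real.dist_eq, abs_lt] at hn1 ⊢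
    have h3 : (y n : ℝ) / n ≤ (X n : ℝ) / n := by
      refine div_le_div_of_nonneg_right ?_ hnR.le
      exact_mod_cast hyX n
    have h4 : (X n : ℝ) / n - 1 / i ≤ (y n : ℝ) / n := by
      have : (X n : ℝ) / n - 1 / i = ((X n : ℝ) - n / i) / n := by field_simp
      rw [this]
      exact div_le_div_of_nonneg_right hn2 hnR.le
    constructor <;> linarith
  exact eventually_atTop.1 h2

end Deterministic

end Pool.Agent.Helper90.SlowRefresh
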