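import Mathlib
import Pool.Agent.Helper90.SlowRefresh.Exist

open MeasureTheory ProbabilityTheory Filter
open scoped ENNReal Topology

namespace Pool.Agent.Helper90.SlowRefresh

set_option linter.unusedSectionVars false

lemma sq_sum_le (a : ℕ → ℝ≥0∞) (ha : ∀ n, a n ≤ 1) (N : ℕ) :
    (∑ n ∈ Finset.range N, a n) ^ 2 ≤ ∑ n ∈ Finset.range N, (2 * (n : ℝ≥0∞) + 1) * a n := by
  induction N with
  | zero => simp
  | succ N ih =>
    rw [Finset.sum_range_succ, Finset.sum_range_succ]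
    have h1 : ∑ n ∈ Finset.range N, a n ≤ N := by
      calc ∑ n ∈ Finset.range N, a n ≤ ∑ n ∈ Finset.range N, 1 :=
            Finset.sum_le_sum fun n _ => ha n
        _ = N := by simp
    have h2 : a N ^ 2 ≤ a N := by
      rw [sq]
      calc a N * a N ≤ a N * 1 := mul_le_mul_right (ha N) _
        _ = a N := mul_one _
    calc (∑ n ∈ Finset.range N, a n + a N) ^ 2
        = (∑ n ∈ Finset.range N, a n) ^ 2 + (2 * (∑ n ∈ Finset.range N, a n) * a N + a N ^ 2) := by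
          ring
      _ ≤ ∑ n ∈ Finset.range N, (2 * (n : ℝ≥0∞) + 1) * a n + (2 * N * a N + a N) := by
          gcongr
      _ = _ := by ring

lemma sq_tsum_le (a : ℕ → ℝ≥0∞) (ha : ∀ n, a n ≤ 1) :
    (∑' n, a n) ^ 2 ≤ ∑' n : ℕ, (2 * (n : ℝ≥0∞) + 1) * a n := by
  have h1 : Tendsto (fun N => (∑ n ∈ Finset.range N, a n) ^ 2) atTop (𝓝 ((∑' n, a n) ^ 2)) :=
    ENNReal.Tendsto.pow (ENNReal.tendsto_nat_tsum a)
  exact le_of_tendsto' h1 fun N => (sq_sum_le a ha N).trans (ENNReal.sum_le_tsum _)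

variable {d : ℕ} {A : Type} [MeasurableSpace A]

namespace Dyn

variable (D : Dyn A)

/-- joint law -/
noncomputable def JJ (d : ℕ) : Measure (Cfg d A × (ℕ → ℝ × Dir d × ℝ)) := D.PE.prod (D.Pw d)

instance : IsProbabilityMeasure (D.JJ d) := by unfold JJ; infer_instance

/-- hitting time of level `M` as a random variable -/
noncomputable def HT (M : ℤ) (p : Cfg d A × (ℕ → ℝ × Dir d × ℝ)) : ℝ≥0∞ :=
  ∑' n, D.al M n p.1 p.2 0

lemma HT_measurable (M : ℤ) : Measurable (D.HT (d := d) M) :=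
  Measurable.tsum fun n => D.al_measurable0 M n

lemma al_le_one (M : ℤ) (n : ℕ) (p : Cfg d A × (ℕ → ℝ × Dir d × ℝ)) :
    D.al M n p.1 p.2 0 ≤ 1 := by
  unfold al; split_ifs <;> simp

lemma lintegral_HT (M : ℤ) : ∫⁻ p, D.HT M p ∂(D.JJ d) = D.hh d M := by
  unfold HT
  rw [lintegral_tsum (fun n => (D.al_measurable0 M n).aemeasurable), hh_eq_tsum]
  rfl

lemma lintegral_HT_sq (M : ℤ) : ∫⁻ p, (D.HT M p) ^ 2 ∂(D.JJ d) ≤ D.hi2 d M := by
  calc ∫⁻ p, (D.HT M p) ^ 2 ∂(D.JJ d)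
      ≤ ∫⁻ p, ∑' n : ℕ, (2 * (n : ℝ≥0∞) + 1) * D.al M n p.1 p.2 0 ∂(D.JJ d) :=
        lintegral_mono fun p => sq_tsum_le _ fun n => D.al_le_one M n p
    _ = ∑' n : ℕ, (2 * (n : ℝ≥0∞) + 1) * D.sg d M n := by
        rw [lintegral_tsum (fun n => ((D.al_measurable0 M n).const_mul _).aemeasurable)]
        refine tsum_congr fun n => ?_
        rw [lintegral_const_mul _ (D.al_measurable0 M n)]
        rfl
    _ = ∫⁻ a : Cfg d A, D.gg2 M a 0 ∂D.PE := by
        simp only [gg2_eq_tsum, sg_eq]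
        rw [lintegral_tsum (fun n => ((D.sv_MF M n 0).const_mul _).aemeasurable)]
        refine tsum_congr fun n => ?_
        rw [lintegral_const_mul _ (D.sv_MF M n 0)]
    _ = ∫⁻ a : Cfg d A, D.RL 0 (D.gg2 M) a 0 ∂D.PE :=
        (D.lintegral_splice 0 (D.gg2_MF M 0)).symm
    _ ≤ ∫⁻ _a : Cfg d A, D.hi2 d M ∂D.PE :=
        lintegral_mono fun a => le_iSup (fun a : Cfg d A => D.RL 0 (D.gg2 M) a 0) a
    _ = D.hi2 d M := by simp

lemma hi_le (M : ℕ) : D.hi d (M : ℤ) ≤ ENNReal.ofReal (C1 d (D.rr d) D.lam * ((M : ℝ) + 1)) := by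
  unfold hi
  refine iSup_le fun a => ?_
  refine (D.RL_mono 0 (g := fun _ _ => ENNReal.ofReal (C1 d (D.rr d) D.lam * ((M : ℝ) + 1))) 0
    (fun a' => D.gg_le (M : ℤ) a' 0 (j := M) (by simp)) a).trans ?_
  exact (D.RL_const 0 _ a 0).le

lemma hi2_le (M : ℕ) :
    D.hi2 d (M : ℤ) ≤ ENNReal.ofReal (C3 d (D.rr d) D.lam * ((M : ℝ) + 1) ^ 2) := by
  unfold hi2
  refine iSup_le fun a => ?_
  refine (D.RL_mono 0
    (g := fun _ _ => ENNReal.ofReal (C3 d (D.rr d) D.lam * ((M : ℝ) + 1) ^ 2)) 0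
    (fun a' => D.gg2_le (M : ℤ) a' 0 (j := M) (by simp)) a).trans ?_
  exact (D.RL_const 0 _ a 0).le

lemma hi_ne_top (M : ℕ) : D.hi d (M : ℤ) ≠ ⊤ :=
  ne_top_of_le_ne_top ENNReal.ofReal_ne_top (D.hi_le M)
lemma hi2_ne_top (M : ℕ) : D.hi2 d (M : ℤ) ≠ ⊤ :=
  ne_top_of_le_ne_top ENNReal.ofReal_ne_top (D.hi2_le M)
lemma lo_le_hi (M : ℕ) : D.lo d (M : ℤ) ≤ D.hi d (M : ℤ) :=
  (D.lo_le_hh _).trans (D.hh_le_hi _)
lemma lo_ne_top (M : ℕ) : D.lo d (M : ℤ) ≠ ⊤ := ne_top_of_le_ne_top (D.hi_ne_top M) (D.lo_le_hi M)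

/-- bound of the variance -/
noncomputable def Wv (d : ℕ) (M : ℕ) : ℝ :=
  (D.hi2 d (M : ℤ)).toReal - (D.lo d (M : ℤ)).toReal ^ 2

lemma Wv_double (M : ℕ) : D.Wv d (2 * M) ≤ 2 * D.Wv d M +
    4 * D.Cst d * (C1 d (D.rr d) D.lam * ((M : ℝ) + 1)) := by
  have hC := D.Cst_nonneg (d := d)
  have hC1 := C1_nonneg d (D.rr_pos (d := d)) D.lam
  have a1 := D.hi2_add (d := d) M M
  have a2 := D.lo_add (d := d) M M
  have e : M + M = 2 * M := by ring
  rw [e] at a1 a2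
  have b1 := ENNReal.toReal_mono (by
    refine ENNReal.add_ne_top.2 ⟨D.hi2_ne_top M, ENNReal.add_ne_top.2 ⟨?_, D.hi2_ne_top M⟩⟩
    exact ENNReal.mul_ne_top (ENNReal.mul_ne_top (by simp) (D.hi_ne_top M)) (D.hi_ne_top M)) a1
  have b2 := ENNReal.toReal_mono (D.lo_ne_top (2 * M)) a2
  rw [ENNReal.toReal_add (D.hi2_ne_top M) (ENNReal.add_ne_top.2
    ⟨ENNReal.mul_ne_top (ENNReal.mul_ne_top (by simp) (D.hi_ne_top M)) (D.hi_ne_top M),
      D.hi2_ne_top M⟩), ENNReal.toReal_add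
      (ENNReal.mul_ne_top (ENNReal.mul_ne_top (by simp) (D.hi_ne_top M)) (D.hi_ne_top M))
      (D.hi2_ne_top M), ENNReal.toReal_mul, ENNReal.toReal_mul, ENNReal.toReal_ofNat] at b1
  rw [ENNReal.toReal_add (D.lo_ne_top M) (D.lo_ne_top M)] at b2
  have c1 : (D.hi d (M : ℤ)).toReal ≤ (D.lo d (M : ℤ)).toReal + D.Cst d := by
    have := ENNReal.toReal_mono (ENNReal.add_ne_top.2 ⟨D.lo_ne_top M, ENNReal.ofReal_ne_top⟩)
      (D.osc (d := d) M)
    rwa [ENNReal.toReal_add (D.lo_ne_top M) ENNReal.ofReal_ne_top, ENNReal.toReal_ofReal hC]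
      at this
  have c2 : (D.hi d (M : ℤ)).toReal ≤ C1 d (D.rr d) D.lam * ((M : ℝ) + 1) := by
    have := ENNReal.toReal_mono ENNReal.ofReal_ne_top (D.hi_le (d := d) M)
    rwa [ENNReal.toReal_ofReal (by positivity)] at this
  have c3 : (D.lo d (M : ℤ)).toReal ≤ (D.hi d (M : ℤ)).toReal :=
    ENNReal.toReal_mono (D.hi_ne_top M) (D.lo_le_hi M)
  have c4 : 0 ≤ (D.lo d (M : ℤ)).toReal := ENNReal.toReal_nonneg
  have c5 : 0 ≤ (D.lo d ((2 * M : ℕ) : ℤ)).toReal := ENNReal.toReal_nonneg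
  unfold Wv
  set H2 := (D.hi2 d (M : ℤ)).toReal
  set H := (D.hi d (M : ℤ)).toReal
  set L := (D.lo d (M : ℤ)).toReal
  set LL := (D.lo d ((2 * M : ℕ) : ℤ)).toReal
  set K := C1 d (D.rr d) D.lam * ((M : ℝ) + 1)
  have d1 : (2 * L) ^ 2 ≤ LL ^ 2 := pow_le_pow_left₀ (by positivity) (by linarith) 2
  have d2 : (H - L) * (H + L) ≤ D.Cst d * (2 * K) := by
    refine mul_le_mul (by linarith) (by linarith) (by linarith) hC
  nlinarith

lemma Wv_pow {m : ℕ} (hm : 0 < m) (k : ℕ) : D.Wv d (m * 2 ^ k) ≤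
    2 ^ k * (D.Wv d m + 4 * D.Cst d * C1 d (D.rr d) D.lam * m * k) := by
  have hC := D.Cst_nonneg (d := d)
  have hC1 := C1_nonneg d (D.rr_pos (d := d)) D.lam
  induction k with
  | zero => simp
  | succ k ih =>
    have h1 := D.Wv_double (d := d) (m * 2 ^ k)
    have e : 2 * (m * 2 ^ k) = m * 2 ^ (k + 1) := by ring
    rw [e] at h1
    have hm1 : (1 : ℝ) ≤ m := by exact_mod_cast hm
    have h2k : (1 : ℝ) ≤ 2 ^ k := one_le_pow₀ (by norm_num)
    have h2 : ((m * 2 ^ k : ℕ) : ℝ) + 1 ≤ 2 * (m * 2 ^ k) := by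
      push_cast
      nlinarith
    have h3 : 4 * D.Cst d * (C1 d (D.rr d) D.lam * (((m * 2 ^ k : ℕ) : ℝ) + 1)) ≤
        4 * D.Cst d * (C1 d (D.rr d) D.lam * (2 * (m * 2 ^ k))) := by gcongr
    have h4 : (2 : ℝ) ^ (k + 1) * (D.Wv d m + 4 * D.Cst d * C1 d (D.rr d) D.lam * m *
        ((k + 1 : ℕ) : ℝ)) = 2 * (2 ^ k * (D.Wv d m + 4 * D.Cst d * C1 d (D.rr d) D.lam * m * k)) +
        4 * D.Cst d * (C1 d (D.rr d) D.lam * (2 * (m * 2 ^ k))) := by
      push_cast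
      ring
    rw [h4]
    linarith

/-- variance of the hitting time -/
noncomputable def Vv (M : ℕ) : ℝ≥0∞ :=
  ∫⁻ p, ENNReal.ofReal (((D.HT (M : ℤ) p).toReal - D.hr d M) ^ 2) ∂(D.JJ d)

lemma HT_ae_lt_top (M : ℕ) : ∀ᵐ p ∂(D.JJ d), D.HT (M : ℤ) p < ⊤ := by
  refine ae_lt_top (D.HT_measurable (M : ℤ)) ?_
  rw [lintegral_HT]
  exact D.hh_ne_top M

lemma Vv_le (M : ℕ) : D.Vv (d := d) M ≤ ENNReal.ofReal (D.Wv d M) := by
  set h := D.hr d M with hh
  have h0 : 0 ≤ h := ENNReal.toReal_nonneg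
  have e1 : ∀ᵐ p ∂(D.JJ d), ENNReal.ofReal (((D.HT (M : ℤ) p).toReal - h) ^ 2) +
      ENNReal.ofReal (2 * h) * D.HT (M : ℤ) p = (D.HT (M : ℤ) p) ^ 2 + ENNReal.ofReal (h ^ 2) := by
    filter_upwards [D.HT_ae_lt_top M] with p hp
    have hx0 : 0 ≤ (D.HT (M : ℤ) p).toReal := ENNReal.toReal_nonneg
    have hx : D.HT (M : ℤ) p = ENNReal.ofReal (D.HT (M : ℤ) p).toReal :=
      (ENNReal.ofReal_toReal hp.ne).symm
    set X := (D.HT (M : ℤ) p).toReal
    rw [hx, ← ENNReal.ofReal_mul (by positivity), ← ENNReal.ofReal_pow hx0,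
      ← ENNReal.ofReal_add (sq_nonneg _) (by positivity),
      ← ENNReal.ofReal_add (sq_nonneg _) (sq_nonneg _)]
    congr 1
    ring
  have hm : Measurable fun p : Cfg d A × (ℕ → ℝ × Dir d × ℝ) =>
      ENNReal.ofReal (((D.HT (M : ℤ) p).toReal - h) ^ 2) :=
    (((D.HT_measurable (M : ℤ)).ennreal_toReal.sub_const h).pow_const 2).ennreal_ofReal
  have e2 := lintegral_congr_ae e1
  rw [lintegral_add_left hm, lintegral_const_mul _ (D.HT_measurable (M : ℤ)), lintegral_HT,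
    lintegral_add_right _ measurable_const, lintegral_const, measure_univ, mul_one] at e2
  have e3 : D.hh d (M : ℤ) = ENNReal.ofReal h := (ENNReal.ofReal_toReal (D.hh_ne_top M)).symm
  rw [e3, ← ENNReal.ofReal_mul (by positivity)] at e2
  have e4 : D.Vv (d := d) M + ENNReal.ofReal (2 * h * h) ≤
      D.hi2 d (M : ℤ) + ENNReal.ofReal (h ^ 2) := by
    refine e2.le.trans ?_
    exact add_le_add_left (D.lintegral_HT_sq (M : ℤ)) _
  have e5 : ENNReal.ofReal (2 * h * h) = ENNReal.ofReal (h ^ 2) + ENNReal.ofReal (h ^ 2) := by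
    rw [← ENNReal.ofReal_add (sq_nonneg _) (sq_nonneg _)]; congr 1; ring
  rw [e5, ← add_assoc] at e4
  have e6 := (ENNReal.add_le_add_iff_right ENNReal.ofReal_ne_top).1 e4
  have hV : D.Vv (d := d) M ≠ ⊤ :=
    ne_top_of_le_ne_top (D.hi2_ne_top M) (le_trans le_self_add e6)
  have e7 := ENNReal.toReal_mono (D.hi2_ne_top M) e6
  rw [ENNReal.toReal_add hV ENNReal.ofReal_ne_top, ENNReal.toReal_ofReal (sq_nonneg _)] at e7
  have e8 : (D.lo d (M : ℤ)).toReal ≤ h := ENNReal.toReal_mono (D.hh_ne_top M) (D.lo_le_hh _)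
  have e9 : (D.lo d (M : ℤ)).toReal ^ 2 ≤ h ^ 2 :=
    pow_le_pow_left₀ ENNReal.toReal_nonneg e8 2
  rw [← ENNReal.ofReal_toReal hV]
  refine ENNReal.ofReal_le_ofReal ?_
  unfold Wv
  linarith

/-- almost sure convergence along dyadic multiples -/
lemma grid_ae {τ : ℝ} (hτ : Tendsto (fun M : ℕ => D.hr d M / M) atTop (𝓝 τ)) {m : ℕ}
    (hm : 0 < m) : ∀ᵐ p ∂(D.JJ d), Tendsto (fun k : ℕ =>
      (D.HT (((m * 2 ^ k : ℕ)) : ℤ) p).toReal / ((m * 2 ^ k : ℕ) : ℝ)) atTop (𝓝 τ) := by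
  have hC := D.Cst_nonneg (d := d)
  have hC1 := C1_nonneg d (D.rr_pos (d := d)) D.lam
  have hmR : (0 : ℝ) < m := by exact_mod_cast hm
  set f : ℕ → Cfg d A × (ℕ → ℝ × Dir d × ℝ) → ℝ≥0∞ := fun k p =>
    ENNReal.ofReal ((((D.HT (((m * 2 ^ k : ℕ)) : ℤ) p).toReal - D.hr d (m * 2 ^ k)) /
      ((m * 2 ^ k : ℕ) : ℝ)) ^ 2) with hf
  have hfm : ∀ k, Measurable (f k) := fun k =>
    ((((D.HT_measurable _).ennreal_toReal.sub_const _).div_const _).pow_const 2).ennreal_ofReal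
  set B : ℕ → ℝ := fun k => (|D.Wv d m| + 4 * D.Cst d * C1 d (D.rr d) D.lam * m * k) *
    (1 / 2) ^ k / (m : ℝ) ^ 2 with hB
  have hBs : Summable B := by
    have s1 : Summable fun k : ℕ => ((1 : ℝ) / 2) ^ k :=
      summable_geometric_of_lt_one (by norm_num) (by norm_num)
    have s2 : Summable fun k : ℕ => (k : ℝ) ^ 1 * ((1 : ℝ) / 2) ^ k :=
      summable_pow_mul_geometric_of_norm_lt_one 1 (by
        rw [Real.norm_eq_abs, abs_of_pos (by norm_num)]; norm_num)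
    have s3 := ((s1.mul_left |D.Wv d m|).add
      (s2.mul_left (4 * D.Cst d * C1 d (D.rr d) D.lam * m))).div_const ((m : ℝ) ^ 2)
    refine s3.congr fun k => ?_
    simp only [hB]
    ring
  have hB0 : ∀ k, 0 ≤ B k := fun k => by simp only [hB]; positivity
  have h1 : ∀ k, ∫⁻ p, f k p ∂(D.JJ d) ≤ ENNReal.ofReal (B k) := by
    intro k
    have hM : (0 : ℝ) < ((m * 2 ^ k : ℕ) : ℝ) := by positivity
    have e1 : ∀ p, f k p = ENNReal.ofReal ((((m * 2 ^ k : ℕ) : ℝ) ^ 2)⁻¹) *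
        ENNReal.ofReal (((D.HT (((m * 2 ^ k : ℕ)) : ℤ) p).toReal - D.hr d (m * 2 ^ k)) ^ 2) := by
      intro p
      simp only [hf]
      rw [← ENNReal.ofReal_mul (by positivity)]
      congr 1
      rw [div_pow]; ring
    simp only [e1]
    rw [lintegral_const_mul _
      ((((D.HT_measurable _).ennreal_toReal.sub_const _).pow_const 2).ennreal_ofReal)]
    refine (mul_le_mul_right (D.Vv_le (m * 2 ^ k)) _).trans ?_
    rw [← ENNReal.ofReal_mul (by positivity)]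
    refine ENNReal.ofReal_le_ofReal ?_
    have h2 := D.Wv_pow (d := d) hm k
    have h3 : D.Wv d (m * 2 ^ k) ≤ 2 ^ k * (|D.Wv d m| +
        4 * D.Cst d * C1 d (D.rr d) D.lam * m * k) := by
      refine h2.trans ?_
      have := le_abs_self (D.Wv d m)
      gcongr
    refine (mul_le_mul_of_nonneg_left h3 (by positivity)).trans (le_of_eq ?_)
    simp only [hB]
    push_cast
    rw [one_div, inv_pow]
    field_simp
  have h2 : ∫⁻ p, ∑' k, f k p ∂(D.JJ d) ≠ ⊤ := by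
    rw [lintegral_tsum (fun k => (hfm k).aemeasurable)]
    refine ne_top_of_le_ne_top (b := ∑' k, ENNReal.ofReal (B k)) ?_
      (ENNReal.tsum_le_tsum h1)
    rw [← ENNReal.ofReal_tsum_of_nonneg hB0 hBs]
    exact ENNReal.ofReal_ne_top
  have h3 := ae_lt_top (Measurable.tsum hfm) h2
  have hgrid : Tendsto (fun k : ℕ => m * 2 ^ k) atTop atTop := by
    refine tendsto_atTop_mono (f := fun k : ℕ => k) (fun k => ?_) tendsto_id
    have : k < 2 ^ k := Nat.lt_two_pow_self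
    nlinarith
  have hτ' : Tendsto (fun k : ℕ => D.hr d (m * 2 ^ k) / ((m * 2 ^ k : ℕ) : ℝ)) atTop (𝓝 τ) :=
    hτ.comp hgrid
  filter_upwards [h3] with p hp
  have h4 := ENNReal.tendsto_atTop_zero_of_tsum_ne_top hp.ne
  have h5 : Tendsto (fun k => ((((D.HT (((m * 2 ^ k : ℕ)) : ℤ) p).toReal - D.hr d (m * 2 ^ k)) /
      ((m * 2 ^ k : ℕ) : ℝ)) ^ 2)) atTop (𝓝 0) := by
    have h6 := (ENNReal.tendsto_toReal ENNReal.zero_ne_top).comp h4
    rw [ENNReal.toReal_zero] at h6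
    refine h6.congr fun k => ?_
    simp only [hf, Function.comp_apply]
    exact ENNReal.toReal_ofReal (sq_nonneg _)
  have h6 : Tendsto (fun k => (((D.HT (((m * 2 ^ k : ℕ)) : ℤ) p).toReal - D.hr d (m * 2 ^ k)) /
      ((m * 2 ^ k : ℕ) : ℝ))) atTop (𝓝 0) := by
    have h7 := h5.sqrt
    rw [Real.sqrt_zero] at h7
    have h8 : Tendsto (fun k => |(((D.HT (((m * 2 ^ k : ℕ)) : ℤ) p).toReal -
      D.hr d (m * 2 ^ k)) / ((m * 2 ^ k : ℕ) : ℝ))|) atTop (𝓝 0) := by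
      refine h7.congr fun k => ?_
      rw [Real.sqrt_sq_eq_abs]
    exact (tendsto_zero_iff_abs_tendsto_zero _).2 h8
  have h7 := h6.add hτ'
  rw [zero_add] at h7
  refine h7.congr fun k => ?_
  rw [← add_div]
  congr 1
  ring

/-- existence of the limit of expected hitting times -/
lemma exists_tau : ∃ τ : ℝ, 1 ≤ τ ∧ Tendsto (fun M : ℕ => D.hr d M / M) atTop (𝓝 τ) := by
  have hC := D.Cst_nonneg (d := d)
  have hge : ∀ M : ℕ, (M : ℝ) ≤ D.hr d M := by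
    intro M
    have h1 : ((M : ℕ) : ℝ≥0∞) ≤ D.hh d (M : ℤ) := by
      rw [← lintegral_HT]
      calc ((M : ℕ) : ℝ≥0∞) = ∫⁻ _p, ((M : ℕ) : ℝ≥0∞) ∂(D.JJ d) := by simp
        _ ≤ _ := by
          refine lintegral_mono fun p => ?_
          unfold HT
          refine le_trans ?_ (ENNReal.sum_le_tsum (Finset.range M))
          calc ((M : ℕ) : ℝ≥0∞) = ∑ n ∈ Finset.range M, 1 := by simp
            _ ≤ _ := by
              refine Finset.sum_le_sum fun n hn => ?_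
              unfold al
              rw [if_pos]
              intro j hj
              have h2 : (D.fw j p.1 p.2 0) 0 ≤ j :=
                le_self_of_step (y := fun n => (D.fw n p.1 p.2 0) 0) rfl
                  (fun n => D.fw_step n p.1 p.2 0) j
              have h3 := Finset.mem_range.1 hn
              omega
    have h2 := ENNReal.toReal_mono (D.hh_ne_top M) h1
    simpa [hr] using h2
  set u : ℕ → ℝ := fun M => D.hr d M + D.Cst d with hu
  have hsub : Subadditive u := by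
    intro L M
    have h1 := (abs_le.1 (D.hr_add (d := d) L M)).2
    simp only [hu]
    linarith
  have hbdd : BddBelow (Set.range fun n => u n / n) := by
    refine ⟨0, ?_⟩
    rintro _ ⟨n, rfl⟩
    have h1 := hge n
    have h2 : (0 : ℝ) ≤ n := Nat.cast_nonneg n
    simp only [hu]
    exact div_nonneg (by linarith) h2
  have hlim := hsub.tendsto_lim hbdd
  have h3 : Tendsto (fun M : ℕ => D.Cst d * (1 / (M : ℝ))) atTop (𝓝 (D.Cst d * 0)) :=
    tendsto_const_nhds.mul tendsto_one_div_atTop_nhds_zero_nat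
  rw [mul_zero] at h3
  have h4 := hlim.sub h3
  rw [sub_zero] at h4
  have h5 : Tendsto (fun M : ℕ => D.hr d M / M) atTop (𝓝 hsub.lim) := by
    refine h4.congr fun M => ?_
    simp only [hu]
    ring
  refine ⟨hsub.lim, ?_, h5⟩
  refine ge_of_tendsto h5 ?_
  filter_upwards [eventually_gt_atTop 0] with M hM
  have hM' : (0 : ℝ) < M := by exact_mod_cast hM
  rw [le_div_iff₀ hM', one_mul]
  exact hge M

end Dyn

end Pool.Agent.Helper90.SlowRefresh
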