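import Pool.Agent.Helper90.SlowRefresh.Path
import Mathlib

open MeasureTheory ProbabilityTheory Filter
open scoped ENNReal Topology

namespace Pool.Agent.Helper90.SlowRefresh

set_option linter.unusedSectionVars false

/-- data of one edge -/
abbrev EdgeData := ℕ → ℝ × ℝ

/-- the `k`-th partial sum of the gaps -/
noncomputable def ps (a : EdgeData) (k : ℕ) : ℝ := ∑ i ∈ Finset.range k, (a i).1

lemma ps_zero (a : EdgeData) : ps a 0 = 0 := by simp [ps]
lemma ps_succ (a : EdgeData) (k : ℕ) : ps a (k + 1) = ps a k + (a k).1 := by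
  simp [ps, Finset.sum_range_succ]

lemma ps_consSeq (z : ℝ × ℝ) (a : EdgeData) (k : ℕ) : ps (consSeq z a) (k + 1) = z.1 + ps a k := by
  unfold ps
  rw [Finset.sum_range_succ', add_comm]
  rfl

lemma ps_measurable (k : ℕ) : Measurable fun a : EdgeData => ps a k := by
  unfold ps
  exact Finset.measurable_sum _ fun i _ => measurable_fst.comp (measurable_pi_apply i)

/-- predicate defining the counter -/
def cp (p : ℝ × EdgeData) (k : ℕ) : Prop := p.1 < ps p.2 (k + 1) ∨ ∀ m, ps p.2 (m + 1) ≤ p.1

lemma cp_exists (p : ℝ × EdgeData) : ∃ k, cp p k := by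
  by_cases h : ∃ k, p.1 < ps p.2 (k + 1)
  · obtain ⟨k, hk⟩ := h
    exact ⟨k, Or.inl hk⟩
  · push Not at h
    exact ⟨0, Or.inr h⟩

open Classical in
/-- number of refreshes up to time `r` -/
noncomputable def cnt (r : ℝ) (a : EdgeData) : ℕ := Nat.find (cp_exists (r, a))

lemma cnt_measurable : Measurable fun p : ℝ × EdgeData => cnt p.1 p.2 := by
  classical
  unfold cnt
  refine measurable_find (fun p : ℝ × EdgeData => cp_exists (p.1, p.2)) fun k => ?_
  have hk : ∀ k, Measurable fun p : ℝ × EdgeData => ps p.2 (k + 1) := fun k =>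
    (ps_measurable (k + 1)).comp measurable_snd
  have : {p : ℝ × EdgeData | cp (p.1, p.2) k} =
      {p | p.1 < ps p.2 (k + 1)} ∪ ⋂ m, {p | ps p.2 (m + 1) ≤ p.1} := by
    ext p
    simp [cp]
  rw [this]
  exact (measurableSet_lt measurable_fst (hk k)).union
    (MeasurableSet.iInter fun m => measurableSet_le (hk m) measurable_fst)

/-- nondegenerate data -/
structure Good (a : EdgeData) : Prop where
  pos : ∀ i, 0 < (a i).1
  top : Tendsto (ps a) atTop atTop

lemma Good.mono {a : EdgeData} (h : Good a) : Monotone (ps a) :=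
  monotone_nat_of_le_succ fun k => by rw [ps_succ]; linarith [h.pos k]

lemma Good.ex {a : EdgeData} (h : Good a) (r : ℝ) : ∃ k, r < ps a (k + 1) := by
  have := (tendsto_add_atTop_iff_nat 1).2 h.top
  exact (this.eventually_gt_atTop r).exists

lemma Good.not_all {a : EdgeData} (h : Good a) (r : ℝ) : ¬ ∀ m, ps a (m + 1) ≤ r := by
  obtain ⟨k, hk⟩ := h.ex r
  exact fun hh => absurd (hh k) (not_le.2 hk)

lemma Good.cnt_spec {a : EdgeData} (h : Good a) (r : ℝ) : r < ps a (cnt r a + 1) := by
  classical
  have := Nat.find_spec (cp_exists (r, a))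
  rcases this with h1 | h1
  · exact h1
  · exact absurd h1 (h.not_all r)

lemma Good.cnt_min {a : EdgeData} (h : Good a) {r : ℝ} {k : ℕ} (hk : k < cnt r a) :
    ps a (k + 1) ≤ r := by
  classical
  have := Nat.find_min (cp_exists (r, a)) hk
  unfold cp at this
  push Not at this
  exact this.1

lemma Good.cnt_eq {a : EdgeData} (h : Good a) {r : ℝ} {n : ℕ} (h1 : r < ps a (n + 1))
    (h2 : ∀ k < n, ps a (k + 1) ≤ r) : cnt r a = n := by
  apply le_antisymm
  · by_contra hlt
    push Not at hlt
    exact absurd (h.cnt_min hlt) (not_le.2 h1)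
  · by_contra hlt
    push Not at hlt
    exact absurd (h2 _ hlt) (not_le.2 (h.cnt_spec r))

/-- data seen from time `r` -/
noncomputable def resid (r : ℝ) (a : EdgeData) : EdgeData := fun k =>
  (if k = 0 then ps a (cnt r a + 1) - r else (a (cnt r a + k)).1, (a (cnt r a + k)).2)

lemma resid_measurable : Measurable fun p : ℝ × EdgeData => resid p.1 p.2 := by
  refine measurable_pi_lambda _ fun k => ?_
  have hev : Measurable fun q : ℕ × EdgeData => q.2 (q.1 + k) := by
    refine measurable_from_prod_countable_right fun n => ?_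
    exact measurable_pi_apply (n + k)
  have hps : Measurable fun q : ℕ × EdgeData => ps q.2 (q.1 + 1) := by
    refine measurable_from_prod_countable_right fun n => ?_
    exact ps_measurable (n + 1)
  have h1 : Measurable fun p : ℝ × EdgeData => p.2 (cnt p.1 p.2 + k) :=
    hev.comp (cnt_measurable.prodMk measurable_snd)
  have h2 : Measurable fun p : ℝ × EdgeData => ps p.2 (cnt p.1 p.2 + 1) :=
    hps.comp (cnt_measurable.prodMk measurable_snd)
  unfold resid
  refine Measurable.prodMk ?_ (measurable_snd.comp h1)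
  by_cases hk : k = 0
  · simp only [hk, if_true]; exact h2.sub measurable_fst
  · simp only [hk, if_false]; exact measurable_fst.comp h1

lemma resid_consSeq_lt {r : ℝ} {z : ℝ × ℝ} (a : EdgeData) (h : r < z.1) :
    resid r (consSeq z a) = consSeq (z.1 - r, z.2) a := by
  classical
  have h0 : cnt r (consSeq z a) = 0 := by
    unfold cnt
    rw [Nat.find_eq_zero]
    left
    change r < ps (consSeq z a) (0 + 1)
    rw [ps_consSeq, ps_zero, add_zero]; exact h
  funext k
  unfold resid
  rw [h0]
  cases k with
  | zero => simp [ps_consSeq, ps_zero, consSeq]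
  | succ k => simp [consSeq]

lemma Good.cons {z : ℝ × ℝ} {a : EdgeData} (h : Good a) (hz : 0 < z.1) : Good (consSeq z a) := by
  refine ⟨fun i => ?_, ?_⟩
  · cases i with
    | zero => exact hz
    | succ i => exact h.pos i
  · rw [← tendsto_add_atTop_iff_nat 1]
    simp only [ps_consSeq]
    exact tendsto_atTop_add_const_left _ _ h.top

lemma resid_consSeq_ge {r : ℝ} {z : ℝ × ℝ} {a : EdgeData} (ha : Good a) (hz : 0 < z.1)
    (h : z.1 ≤ r) : resid r (consSeq z a) = resid (r - z.1) a := by
  have hg := ha.cons hz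
  have h0 : cnt r (consSeq z a) = cnt (r - z.1) a + 1 := by
    refine hg.cnt_eq ?_ ?_
    · rw [ps_consSeq]; have := ha.cnt_spec (r - z.1); linarith
    · intro k hk
      rw [ps_consSeq]
      cases k with
      | zero => rw [ps_zero]; linarith
      | succ k =>
        have := ha.cnt_min (r := r - z.1) (k := k) (by omega)
        linarith
  funext k
  unfold resid
  rw [h0, ps_consSeq]
  have e : cnt (r - z.1) a + 1 + k = (cnt (r - z.1) a + k) + 1 := by ring
  rw [e]
  refine Prod.ext ?_ rfl
  by_cases hk : k = 0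
  · simp only [hk, if_true]; ring
  · simp only [hk, if_false]; rfl

lemma Good.ps_cnt_le {a : EdgeData} (h : Good a) {r : ℝ} (hr : 0 ≤ r) : ps a (cnt r a) ≤ r := by
  rcases Nat.eq_zero_or_pos (cnt r a) with h0 | h0
  · rw [h0, ps_zero]; exact hr
  · obtain ⟨k, hk⟩ := Nat.exists_eq_succ_of_ne_zero h0.ne'
    rw [hk]
    exact h.cnt_min (by omega)

lemma ps_resid {a : EdgeData} (r : ℝ) (k : ℕ) :
    ps (resid r a) (k + 1) = ps a (cnt r a + k + 1) - r := by
  induction k with
  | zero => simp [ps_succ, ps_zero, resid]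
  | succ k ih =>
    rw [ps_succ, ih]
    have e : (resid r a (k + 1)).1 = (a (cnt r a + (k + 1))).1 := by
      simp [resid]
    rw [e, ← add_assoc, ps_succ a (cnt r a + k + 1)]
    have e2 : cnt r a + k + 1 = cnt r a + (k + 1) := by ring
    rw [e2]; ring

lemma Good.resid {a : EdgeData} (h : Good a) {r : ℝ} (hr : 0 ≤ r) : Good (resid r a) := by
  refine ⟨fun i => ?_, ?_⟩
  · by_cases hi : i = 0
    · subst hi
      have := h.cnt_spec r
      simp only [SlowRefresh.resid, if_true]; linarith
    · simp only [SlowRefresh.resid, if_neg hi]; exact h.pos _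
  · rw [← tendsto_add_atTop_iff_nat 1]
    simp only [ps_resid]
    have h1 : Tendsto (fun k => ps a (k + (cnt r a + 1))) atTop atTop :=
      (tendsto_add_atTop_iff_nat _).2 h.top
    have h2 := tendsto_atTop_add_const_right atTop (-r) h1
    refine h2.congr fun k => ?_
    rw [sub_eq_add_neg]
    congr 2
    ring

lemma cnt_add {a : EdgeData} (h : Good a) {r t : ℝ} (hr : 0 ≤ r) (ht : 0 ≤ t) :
    cnt (r + t) a = cnt r a + cnt t (resid r a) := by
  have h' := h.resid hr
  refine h.cnt_eq ?_ ?_
  · have := h'.cnt_spec t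
    rw [ps_resid] at this
    linarith
  · intro k hk
    rcases lt_or_ge k (cnt r a) with h1 | h1
    · have := h.cnt_min h1; linarith
    · have h2 := h'.cnt_min (r := t) (k := k - cnt r a) (by omega)
      rw [ps_resid] at h2
      have e : cnt r a + (k - cnt r a) + 1 = k + 1 := by omega
      rw [e] at h2
      linarith

lemma resid_resid {a : EdgeData} (h : Good a) {r t : ℝ} (hr : 0 ≤ r) (ht : 0 ≤ t) :
    resid t (resid r a) = resid (r + t) a := by
  have h1 := cnt_add h hr ht
  funext k
  have e1 : resid t (resid r a) k =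
      (if k = 0 then ps (resid r a) (cnt t (resid r a) + 1) - t
        else (resid r a (cnt t (resid r a) + k)).1, (resid r a (cnt t (resid r a) + k)).2) := rfl
  have e2 : resid (r + t) a k =
      (if k = 0 then ps a (cnt (r + t) a + 1) - (r + t)
        else (a (cnt (r + t) a + k)).1, (a (cnt (r + t) a + k)).2) := rfl
  rw [e1, e2, h1]
  refine Prod.ext ?_ ?_
  · by_cases hk : k = 0
    · simp only [hk, if_true]
      rw [ps_resid]; ring
    · simp only [hk, if_false]
      have : cnt t (resid r a) + k ≠ 0 := by omega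
      simp only [resid, this, if_false, add_assoc]
  · simp only [resid, add_assoc]

lemma resid_zero {a : EdgeData} (h : Good a) : resid 0 a = a := by
  have h0 : cnt 0 a = 0 := by
    refine h.cnt_eq ?_ (fun k hk => absurd hk (by omega))
    rw [ps_succ, ps_zero]; linarith [h.pos 0]
  funext k
  unfold resid
  rw [h0]
  by_cases hk : k = 0
  · subst hk; simp [ps_succ, ps_zero]
  · simp [hk]

lemma countUpTo_eq {a : EdgeData} (h : Good a) (r : ℝ) :
    countUpTo (fun k => (a k).1) r = cnt r a := by
  unfold countUpTo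
  have : {k : ℕ | ∑ i ∈ Finset.range (k + 1), (a i).1 ≤ r} = Set.Iio (cnt r a) := by
    ext k
    simp only [Set.mem_ofPred_eq, Set.mem_Iio]
    constructor
    · intro hk
      by_contra hlt
      push Not at hlt
      have h1 := h.cnt_spec r
      have h2 : ps a (cnt r a + 1) ≤ ps a (k + 1) := h.mono (by omega)
      have h3 : ps a (k + 1) ≤ r := hk
      linarith
    · exact fun hk => h.cnt_min hk
  rw [this, ← Finset.coe_Iio, Set.ncard_coe_finset]
  simp

end Pool.Agent.Helper90.SlowRefresh
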