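import Pool.Agent.Helper90.SlowRefresh.ExpM
import Pool.Agent.Helper90.SlowRefresh.Poisson
import Mathlib

open MeasureTheory ProbabilityTheory Filter
open scoped ENNReal Topology

namespace Pool.Agent.Helper90.SlowRefresh

set_option linter.unusedSectionVars false

lemma slln {N : Type} [MeasurableSpace N] (ν : Measure N) [IsProbabilityMeasure ν] {g : N → ℝ}
    (hg : Measurable g) (hint : Integrable g ν) :
    ∀ᵐ w ∂(Measure.infinitePi fun _ : ℕ => ν),
      Tendsto (fun n : ℕ => (∑ i ∈ Finset.range n, g (w i)) / n) atTop (𝓝 (∫ z, g z ∂ν)) := by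
  have hmp : ∀ i : ℕ, MeasurePreserving (fun w : ℕ → N => w i)
      (Measure.infinitePi fun _ : ℕ => ν) ν := fun i =>
    measurePreserving_eval_infinitePi (fun _ : ℕ => ν) i
  have h1 := strong_law_ae_real (μ := Measure.infinitePi fun _ : ℕ => ν)
    (fun i w => g (w i)) ?_ ?_ ?_
  · have h2 : ∫ w, g (w 0) ∂(Measure.infinitePi fun _ : ℕ => ν) = ∫ z, g z ∂ν := by
      rw [← (hmp 0).map_eq, integral_map (hmp 0).measurable.aemeasurable]
      rw [(hmp 0).map_eq]
      exact hg.aestronglyMeasurable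
    rw [h2] at h1
    exact h1
  · exact ((hmp 0).integrable_comp hg.aestronglyMeasurable).2 hint
  · intro i j hij
    exact (iIndepFun_infinitePi (P := fun _ : ℕ => ν) (X := fun _ => g) (fun _ => hg)).indepFun hij
  · intro i
    refine ⟨(hg.comp (hmp i).measurable).aemeasurable, (hg.comp (hmp 0).measurable).aemeasurable, ?_⟩
    have e : ∀ i : ℕ, Measure.map (fun w : ℕ → N => g (w i)) (Measure.infinitePi fun _ : ℕ => ν) =
        Measure.map g ν := by
      intro i
      rw [← (hmp i).map_eq, Measure.map_map hg (hmp i).measurable, (hmp i).map_eq]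
      rfl
    rw [e i, e 0]

variable (q : Measure ℝ) [IsProbabilityMeasure q]

/-- law of a gap and a value -/
noncomputable def nu : Measure (ℝ × ℝ) := (expMeasure 1).prod q

instance instProbExp1 : IsProbabilityMeasure (expMeasure 1) := isProbabilityMeasure_expMeasure one_pos

instance : IsProbabilityMeasure (nu q) := by unfold nu; infer_instance

/-- law of the data of one edge -/
noncomputable def eLaw : Measure EdgeData := Measure.infinitePi fun _ : ℕ => nu q

instance : IsProbabilityMeasure (eLaw q) := by unfold eLaw; infer_instance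

lemma nu_fst_mp : MeasurePreserving (Prod.fst : ℝ × ℝ → ℝ) (nu q) (expMeasure 1) :=
  measurePreserving_fst

lemma nu_ae_pos : ∀ᵐ z ∂(nu q), 0 < z.1 :=
  (nu_fst_mp q).quasiMeasurePreserving.ae (expMeasure_ae_pos one_pos)

lemma eval_mp (i : ℕ) : MeasurePreserving (fun a : EdgeData => a i) (eLaw q) (nu q) :=
  measurePreserving_eval_infinitePi (fun _ : ℕ => nu q) i

lemma ae_good : ∀ᵐ a ∂(eLaw q), Good a := by
  have h1 : ∀ᵐ a ∂(eLaw q), ∀ i, 0 < (a i).1 := by
    rw [ae_all_iff]
    intro i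
    exact (eval_mp q i).quasiMeasurePreserving.ae (nu_ae_pos q)
  have hint : Integrable (fun z : ℝ × ℝ => z.1) (nu q) :=
    ((nu_fst_mp q).integrable_comp (f := Prod.fst) (g := fun x : ℝ => x)
      measurable_id.aestronglyMeasurable).2 (integrable_id_expMeasure one_pos)
  have h2 := slln (nu q) (g := fun z : ℝ × ℝ => z.1) measurable_fst hint
  have hm : 0 < ∫ z, z.1 ∂(nu q) := by
    have e : ∫ z, z.1 ∂(nu q) = ∫ x, x ∂(expMeasure 1) := by
      rw [← (nu_fst_mp q).map_eq, integral_map measurable_fst.aemeasurable]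
      exact measurable_id.aestronglyMeasurable
    rw [e]
    exact integral_id_expMeasure_pos one_pos
  have h2' : ∀ᵐ (a : EdgeData) ∂(eLaw q), Tendsto (fun n : ℕ => ps a n / (n : ℝ)) atTop
      (𝓝 (∫ z : ℝ × ℝ, z.1 ∂(nu q))) := h2
  filter_upwards [h1, h2'] with a ha1 ha2
  refine ⟨ha1, ?_⟩
  have h3 : Tendsto (fun n : ℕ => (ps a n / n) * (n : ℝ)) atTop atTop :=
    Tendsto.pos_mul_atTop hm ha2 tendsto_natCast_atTop_atTop
  refine h3.congr' ?_
  filter_upwards [eventually_gt_atTop 0] with n hn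
  have : (n : ℝ) ≠ 0 := by positivity
  field_simp

lemma expMeasure_Ioi {t : ℝ} (ht : 0 ≤ t) :
    expMeasure 1 (Set.Ioi t) = ENNReal.ofReal (Real.exp (-t)) := by
  have h := memoryless ht (g := fun _ => 1) measurable_const
  have e : (Set.Ioi t).indicator (fun _ => (1 : ℝ≥0∞)) = (Set.Ioi t).indicator 1 := rfl
  rw [e, lintegral_indicator_one measurableSet_Ioi] at h
  simpa using h

lemma renewal {F : EdgeData → ℝ≥0∞} (hF : Measurable F) {r : ℝ} (hr : 0 ≤ r) :
    ∫⁻ a, F (resid r a) ∂(eLaw q) =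
      ENNReal.ofReal (Real.exp (-r)) * ∫⁻ a, F a ∂(eLaw q) +
      ∫⁻ x in Set.Iic r, ∫⁻ a, F (resid (r - x) a) ∂(eLaw q) ∂(expMeasure 1) := by
  have hres : Measurable fun a : EdgeData => F (resid r a) :=
    hF.comp (resid_measurable.comp (measurable_const.prodMk measurable_id))
  have hI : Measurable fun s : ℝ => ∫⁻ a, F (resid s a) ∂(eLaw q) :=
    (hF.comp resid_measurable).lintegral_prod_right'
  have hG : Measurable fun z : ℝ × ℝ => ∫⁻ w, F (consSeq z w) ∂(eLaw q) :=
    (hF.comp consSeq_measurable).lintegral_prod_right'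
  have e1 : ∫⁻ a, F (resid r a) ∂(eLaw q) =
      ∫⁻ z, ∫⁻ w, F (resid r (consSeq z w)) ∂(eLaw q) ∂(nu q) :=
    lintegral_consSeq (nu q) hres
  have e2 : ∀ᵐ z ∂(nu q), ∫⁻ w, F (resid r (consSeq z w)) ∂(eLaw q) =
      (Set.Ioi r).indicator (fun x => ∫⁻ w, F (consSeq (x - r, z.2) w) ∂(eLaw q)) z.1 +
      (Set.Iic r).indicator (fun x => ∫⁻ a, F (resid (r - x) a) ∂(eLaw q)) z.1 := by
    filter_upwards [nu_ae_pos q] with z hz
    rcases lt_or_ge r z.1 with h | h
    · rw [Set.indicator_of_mem (by exact h), Set.indicator_of_notMem (by simpa using h), add_zero]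
      refine lintegral_congr fun w => ?_
      rw [resid_consSeq_lt w h]
    · rw [Set.indicator_of_notMem (by simpa using h), Set.indicator_of_mem (by exact h), zero_add]
      refine lintegral_congr_ae ?_
      filter_upwards [ae_good q] with w hw
      rw [resid_consSeq_ge hw hz h]
  rw [e1, lintegral_congr_ae e2]
  have hm1 : Measurable fun z : ℝ × ℝ =>
      (Set.Ioi r).indicator (fun x => ∫⁻ w, F (consSeq (x - r, z.2) w) ∂(eLaw q)) z.1 := by
    have : (fun z : ℝ × ℝ =>
      (Set.Ioi r).indicator (fun x => ∫⁻ w, F (consSeq (x - r, z.2) w) ∂(eLaw q)) z.1) =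
      (Prod.fst ⁻¹' Set.Ioi r).indicator
        (fun z : ℝ × ℝ => ∫⁻ w, F (consSeq (z.1 - r, z.2) w) ∂(eLaw q)) := by
      funext z
      by_cases h : r < z.1
      · rw [Set.indicator_of_mem (by exact h), Set.indicator_of_mem (by exact h)]
      · rw [Set.indicator_of_notMem (by simpa using h),
          Set.indicator_of_notMem (by simpa using h)]
    rw [this]
    refine Measurable.indicator ?_ (measurable_fst measurableSet_Ioi)
    exact hG.comp ((measurable_fst.sub_const r).prodMk measurable_snd)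
  rw [lintegral_add_left hm1]
  congr 1
  · unfold nu
    rw [lintegral_prod_symm _ hm1.aemeasurable]
    have e3 : ∀ v : ℝ, ∫⁻ x, (Set.Ioi r).indicator
        (fun x => ∫⁻ w, F (consSeq (x - r, v) w) ∂(eLaw q)) x ∂(expMeasure 1) =
        ENNReal.ofReal (Real.exp (-r)) *
          ∫⁻ x, ∫⁻ w, F (consSeq (x, v) w) ∂(eLaw q) ∂(expMeasure 1) := by
      intro v
      exact memoryless hr (g := fun x => ∫⁻ w, F (consSeq (x, v) w) ∂(eLaw q))
        (hG.comp (measurable_id.prodMk measurable_const))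
    have hm2 : Measurable fun v : ℝ =>
        ∫⁻ x, ∫⁻ w, F (consSeq (x, v) w) ∂(eLaw q) ∂(expMeasure 1) :=
      hG.lintegral_prod_left'
    calc ∫⁻ v, ∫⁻ x, (Set.Ioi r).indicator
          (fun x => ∫⁻ w, F (consSeq (x - r, v) w) ∂(eLaw q)) x ∂(expMeasure 1) ∂q
        = ∫⁻ v, ENNReal.ofReal (Real.exp (-r)) *
          ∫⁻ x, ∫⁻ w, F (consSeq (x, v) w) ∂(eLaw q) ∂(expMeasure 1) ∂q :=
          lintegral_congr fun v => e3 v
      _ = ENNReal.ofReal (Real.exp (-r)) *
          ∫⁻ v, ∫⁻ x, ∫⁻ w, F (consSeq (x, v) w) ∂(eLaw q) ∂(expMeasure 1) ∂q :=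
          lintegral_const_mul _ hm2
      _ = ENNReal.ofReal (Real.exp (-r)) * ∫⁻ a, F a ∂(eLaw q) := by
          congr 1
          have e4 : ∫⁻ a, F a ∂(eLaw q) = ∫⁻ z, ∫⁻ w, F (consSeq z w) ∂(eLaw q) ∂(nu q) :=
            lintegral_consSeq (nu q) hF
          rw [e4]
          unfold nu
          rw [lintegral_prod_symm _ hG.aemeasurable]
  · have e5 : ∀ z : ℝ × ℝ,
        (Set.Iic r).indicator (fun x => ∫⁻ a, F (resid (r - x) a) ∂(eLaw q)) z.1 =
        ((Set.Iic r).indicator (fun x => ∫⁻ a, F (resid (r - x) a) ∂(eLaw q))) (Prod.fst z) :=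
      fun _ => rfl
    have hm3 : Measurable ((Set.Iic r).indicator
        (fun x => ∫⁻ a, F (resid (r - x) a) ∂(eLaw q))) :=
      (hI.comp (measurable_const.sub measurable_id)).indicator measurableSet_Iic
    rw [← lintegral_indicator measurableSet_Iic]
    exact (nu_fst_mp q).lintegral_comp hm3

lemma resid_bound {F : EdgeData → ℝ≥0∞} (hF : Measurable F) (hF1 : ∀ a, F a ≤ 1) {R : ℝ}
    (n : ℕ) : ∀ r : ℝ, 0 ≤ r → r ≤ R →
    (∫⁻ a, F (resid r a) ∂(eLaw q) ≤ ∫⁻ a, F a ∂(eLaw q) +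
        ENNReal.ofReal (1 - Real.exp (-R)) ^ n) ∧
    (∫⁻ a, F a ∂(eLaw q) ≤ ∫⁻ a, F (resid r a) ∂(eLaw q) +
        ENNReal.ofReal (1 - Real.exp (-R)) ^ n) := by
  set Fb := ∫⁻ a, F a ∂(eLaw q) with hFb
  set θ := ENNReal.ofReal (1 - Real.exp (-R)) with hθ
  induction n with
  | zero =>
    intro r _ _
    have h1 : ∫⁻ a, F (resid r a) ∂(eLaw q) ≤ 1 := by
      calc ∫⁻ a, F (resid r a) ∂(eLaw q) ≤ ∫⁻ _a, 1 ∂(eLaw q) := lintegral_mono fun a => hF1 _
        _ = 1 := by simp
    have h2 : Fb ≤ 1 := by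
      calc Fb ≤ ∫⁻ _a, 1 ∂(eLaw q) := lintegral_mono fun a => hF1 _
        _ = 1 := by simp
    rw [pow_zero]
    exact ⟨h1.trans le_add_self, h2.trans le_add_self⟩
  | succ n ih =>
    intro r hr hrR
    have hren := renewal q hF hr
    have hsum : ENNReal.ofReal (Real.exp (-r)) + ENNReal.ofReal (1 - Real.exp (-r)) = 1 := by
      rw [← ENNReal.ofReal_add (Real.exp_pos _).le
        (by rw [sub_nonneg, Real.exp_le_one_iff]; linarith)]
      simp
    have hIic : expMeasure 1 (Set.Iic r) = ENNReal.ofReal (1 - Real.exp (-r)) := by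
      rw [expMeasure_Iic one_pos hr, one_mul]
    have hle : ENNReal.ofReal (1 - Real.exp (-r)) ≤ θ := by
      rw [hθ]
      refine ENNReal.ofReal_le_ofReal ?_
      have : Real.exp (-R) ≤ Real.exp (-r) := Real.exp_le_exp.2 (by linarith)
      linarith
    have hae : ∀ᵐ x ∂((expMeasure 1).restrict (Set.Iic r)), 0 ≤ r - x ∧ r - x ≤ R := by
      have h1 : ∀ᵐ x ∂((expMeasure 1).restrict (Set.Iic r)), 0 < x :=
        ae_restrict_of_ae (expMeasure_ae_pos one_pos)
      have h2 : ∀ᵐ x ∂((expMeasure 1).restrict (Set.Iic r)), x ∈ Set.Iic r :=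
        ae_restrict_mem measurableSet_Iic
      filter_upwards [h1, h2] with x hx1 hx2
      have : x ≤ r := hx2
      constructor <;> linarith
    constructor
    · rw [hren]
      have h3 : ∫⁻ x in Set.Iic r, ∫⁻ a, F (resid (r - x) a) ∂(eLaw q) ∂(expMeasure 1) ≤
          ENNReal.ofReal (1 - Real.exp (-r)) * (Fb + θ ^ n) := by
        calc ∫⁻ x in Set.Iic r, ∫⁻ a, F (resid (r - x) a) ∂(eLaw q) ∂(expMeasure 1)
            ≤ ∫⁻ _x in Set.Iic r, (Fb + θ ^ n) ∂(expMeasure 1) :=
              lintegral_mono_ae (hae.mono fun x hx => (ih (r - x) hx.1 hx.2).1)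
          _ = _ := by rw [setLIntegral_const, hIic, mul_comm]
      calc ENNReal.ofReal (Real.exp (-r)) * Fb + _
          ≤ ENNReal.ofReal (Real.exp (-r)) * Fb +
            ENNReal.ofReal (1 - Real.exp (-r)) * (Fb + θ ^ n) := add_le_add_right h3 _
        _ = (ENNReal.ofReal (Real.exp (-r)) + ENNReal.ofReal (1 - Real.exp (-r))) * Fb +
            ENNReal.ofReal (1 - Real.exp (-r)) * θ ^ n := by ring
        _ ≤ Fb + θ ^ (n + 1) := by
            rw [hsum, one_mul, pow_succ']
            exact add_le_add_right (mul_le_mul_left hle _) _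
    · rw [hren]
      have h3 : ENNReal.ofReal (1 - Real.exp (-r)) * Fb ≤
          ∫⁻ x in Set.Iic r, ∫⁻ a, F (resid (r - x) a) ∂(eLaw q) ∂(expMeasure 1) +
          ENNReal.ofReal (1 - Real.exp (-r)) * θ ^ n := by
        calc ENNReal.ofReal (1 - Real.exp (-r)) * Fb
            = ∫⁻ _x in Set.Iic r, Fb ∂(expMeasure 1) := by rw [setLIntegral_const, hIic, mul_comm]
          _ ≤ ∫⁻ x in Set.Iic r, (∫⁻ a, F (resid (r - x) a) ∂(eLaw q) + θ ^ n) ∂(expMeasure 1) :=
              lintegral_mono_ae (hae.mono fun x hx => (ih (r - x) hx.1 hx.2).2)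
          _ = _ := by
              rw [lintegral_add_right _ measurable_const, setLIntegral_const, hIic,
                mul_comm (θ ^ n)]
      calc Fb = ENNReal.ofReal (Real.exp (-r)) * Fb + ENNReal.ofReal (1 - Real.exp (-r)) * Fb := by
            rw [← add_mul, hsum, one_mul]
        _ ≤ ENNReal.ofReal (Real.exp (-r)) * Fb +
            (∫⁻ x in Set.Iic r, ∫⁻ a, F (resid (r - x) a) ∂(eLaw q) ∂(expMeasure 1) +
            ENNReal.ofReal (1 - Real.exp (-r)) * θ ^ n) := add_le_add_right h3 _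
        _ = (ENNReal.ofReal (Real.exp (-r)) * Fb +
            ∫⁻ x in Set.Iic r, ∫⁻ a, F (resid (r - x) a) ∂(eLaw q) ∂(expMeasure 1)) +
            ENNReal.ofReal (1 - Real.exp (-r)) * θ ^ n := by ring
        _ ≤ _ := by
            rw [pow_succ']
            exact add_le_add_right (mul_le_mul_left hle _) _

lemma resid_invariant {F : EdgeData → ℝ≥0∞} (hF : Measurable F) (hF1 : ∀ a, F a ≤ 1) {r : ℝ}
    (hr : 0 ≤ r) : ∫⁻ a, F (resid r a) ∂(eLaw q) = ∫⁻ a, F a ∂(eLaw q) := by
  have hlt : ENNReal.ofReal (1 - Real.exp (-r)) < 1 := by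
    rw [← ENNReal.ofReal_one]
    refine (ENNReal.ofReal_lt_ofReal_iff one_pos).2 ?_
    have := Real.exp_pos (-r); linarith
  have hlim := ENNReal.tendsto_pow_atTop_nhds_zero_of_lt_one hlt
  have h := fun n => resid_bound q hF hF1 n r hr (le_refl r)
  apply le_antisymm
  · refine ge_of_tendsto' (f := fun n : ℕ => ∫⁻ a, F a ∂(eLaw q) +
        ENNReal.ofReal (1 - Real.exp (-r)) ^ n) (x := atTop) ?_ fun n => (h n).1
    simpa using (tendsto_const_nhds (x := ∫⁻ a, F a ∂(eLaw q))).add hlim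
  · refine ge_of_tendsto' (f := fun n : ℕ => ∫⁻ a, F (resid r a) ∂(eLaw q) +
        ENNReal.ofReal (1 - Real.exp (-r)) ^ n) (x := atTop) ?_ fun n => (h n).2
    simpa using (tendsto_const_nhds (x := ∫⁻ a, F (resid r a) ∂(eLaw q))).add hlim

lemma resid_mp {r : ℝ} (hr : 0 ≤ r) : MeasurePreserving (resid r) (eLaw q) (eLaw q) := by
  have hm : Measurable (resid r) :=
    resid_measurable.comp (measurable_const.prodMk measurable_id)
  refine ⟨hm, ?_⟩
  ext s hs
  rw [Measure.map_apply hm hs]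
  have h := resid_invariant q (F := s.indicator 1) (measurable_one.indicator hs)
    (fun a => Set.indicator_le_self' (fun _ _ => zero_le) a) hr
  rw [lintegral_indicator_one hs] at h
  rw [← h, ← lintegral_indicator_one (hm hs)]
  rfl

end Pool.Agent.Helper90.SlowRefresh
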