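import Mathlib
import Pool.Agent.Helper90.SlowRefresh.PoissonInv

open MeasureTheory ProbabilityTheory Filter
open scoped ENNReal Topology

namespace Pool.Agent.Helper90.SlowRefresh

set_option linter.unusedSectionVars false

/-- parameters of the model -/
structure Par where
  q : Measure ℝ
  prob : IsProbabilityMeasure q
  c : ℝ
  κ : ℝ
  lam : ℝ
  hc : 0 < c
  hck : c ≤ κ
  hlam : 0 < lam

attribute [instance] Par.prob

namespace Par

variable (P : Par) (d : ℕ)

lemma κ_pos : 0 < P.κ := P.hc.trans_le P.hck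

lemma rate_pos : 0 < 2 * ((d : ℝ) + 1) * clockRate P.κ P.lam := by
  unfold clockRate
  have := P.κ_pos
  positivity

/-- value of an edge, clamped to `[c, κ]` -/
noncomputable def val (a : EdgeData) : ℝ := max P.c (min P.κ (a 0).2)

lemma val_measurable : Measurable P.val := by
  unfold val
  exact measurable_const.max (measurable_const.min
    (measurable_snd.comp (measurable_pi_apply 0)))

/-- the refreshed dynamics as an abstract dynamics -/
noncomputable def dyn (μ : ℝ) (hμ : 0 ≤ μ) : Dyn EdgeData where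
  PA := eLaw P.q
  prob := inferInstance
  Th := fun s a => resid (μ * max s 0) a
  hTh := by
    refine resid_measurable.comp (Measurable.prodMk ?_ measurable_snd)
    exact measurable_const.mul (measurable_fst.max measurable_const)
  hinv := fun s => resid_mp P.q (mul_nonneg hμ (le_max_right _ _))
  ph := P.val
  hph := P.val_measurable
  c := P.c
  κ := P.κ
  lam := P.lam
  hc := P.hc
  hlo := fun _ => le_max_left _ _
  hhi := fun _ => max_le P.hck (min_le_left _ _)
  hlam := P.hlam
  xi := expMeasure (2 * ((d : ℝ) + 1) * clockRate P.κ P.lam)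
  hxi := isProbabilityMeasure_expMeasure (P.rate_pos d)

/-- the static environment as an abstract dynamics -/
noncomputable def stat : Dyn EdgeData where
  PA := eLaw P.q
  prob := inferInstance
  Th := fun _ a => a
  hTh := measurable_snd
  hinv := fun _ => MeasurePreserving.id _
  ph := P.val
  hph := P.val_measurable
  c := P.c
  κ := P.κ
  lam := P.lam
  hc := P.hc
  hlo := fun _ => le_max_left _ _
  hhi := fun _ => max_le P.hck (min_le_left _ _)
  hlam := P.hlam
  xi := expMeasure (2 * ((d : ℝ) + 1) * clockRate P.κ P.lam)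
  hxi := isProbabilityMeasure_expMeasure (P.rate_pos d)

/-- nondegenerate configurations -/
structure GoodCfg (a : EnvNoise d) : Prop where
  good : ∀ e, Good (a e)
  lo : ∀ e i, P.c ≤ (a e i).2
  hi : ∀ e i, (a e i).2 ≤ P.κ

/-- nondegenerate walk noise -/
structure GoodW (w : WalkNoise d) : Prop where
  pos : ∀ k, 0 < (w k).1

end Par

lemma ringTime_zero {d : ℕ} (w : WalkNoise d) : ringTime w 0 = 0 := by simp [ringTime]
lemma ringTime_succ {d : ℕ} (w : WalkNoise d) (n : ℕ) :
    ringTime w (n + 1) = ringTime w n + (w n).1 := by simp [ringTime, Finset.sum_range_succ]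

lemma Par.GoodW.ringTime_nonneg {d : ℕ} {w : WalkNoise d} (h : Par.GoodW d w) (n : ℕ) :
    0 ≤ ringTime w n := Finset.sum_nonneg fun k _ => (h.pos k).le

/-- positions by recursion on the first ring -/
noncomputable def rp {d : ℕ} (κ lam : ℝ) (env : ℝ → Edge d → ℝ) (w : WalkNoise d) :
    ℕ → ℕ → Site d → Site d
  | 0, _, x => x
  | n + 1, m, x => rp κ lam env w n (m + 1)
      (ringStep κ lam (env (ringTime w (m + 1))) x (w m).2.1 (w m).2.2)

lemma rp_succ' {d : ℕ} (κ lam : ℝ) (env : ℝ → Edge d → ℝ) (w : WalkNoise d) (n : ℕ) :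
    ∀ (m : ℕ) (x : Site d), rp κ lam env w (n + 1) m x =
      ringStep κ lam (env (ringTime w (m + n + 1))) (rp κ lam env w n m x)
        (w (m + n)).2.1 (w (m + n)).2.2 := by
  induction n with
  | zero => intro m x; rfl
  | succ n ih =>
    intro m x
    have h1 : rp κ lam env w (n + 1 + 1) m x = rp κ lam env w (n + 1) (m + 1)
      (ringStep κ lam (env (ringTime w (m + 1))) x (w m).2.1 (w m).2.2) := rfl
    rw [h1, ih]
    have h2 : m + 1 + n = m + (n + 1) := by ring
    rw [h2]
    rfl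

lemma rp_eq_ringPos {d : ℕ} (κ lam : ℝ) (env : ℝ → Edge d → ℝ) (w : WalkNoise d) (n : ℕ) :
    rp κ lam env w n 0 0 = ringPos κ lam env w n := by
  induction n with
  | zero => rfl
  | succ n ih =>
    rw [rp_succ', ih, zero_add]
    rfl

namespace Par

variable (P : Par) {d : ℕ}

lemma val_eq {a : EdgeData} (h1 : P.c ≤ (a 0).2) (h2 : (a 0).2 ≤ P.κ) : P.val a = (a 0).2 := by
  unfold val
  rw [min_eq_right h2, max_eq_right h1]

lemma dyn_sh_sh {μ : ℝ} (hμ : 0 ≤ μ) {a : EnvNoise d} (ha : P.GoodCfg d a) {s t : ℝ}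
    (hs : 0 ≤ s) (ht : 0 ≤ t) :
    (P.dyn d μ hμ).sh t ((P.dyn d μ hμ).sh s a) = (P.dyn d μ hμ).sh (s + t) a := by
  funext e
  change resid (μ * max t 0) (resid (μ * max s 0) (a e)) = resid (μ * max (s + t) 0) (a e)
  rw [max_eq_left hs, max_eq_left ht, max_eq_left (add_nonneg hs ht),
    resid_resid (ha.good e) (mul_nonneg hμ hs) (mul_nonneg hμ ht), mul_add]

lemma dyn_env0 {μ : ℝ} (hμ : 0 ≤ μ) {a : EnvNoise d} (ha : P.GoodCfg d a) {t : ℝ}
    (ht : 0 ≤ t) : (P.dyn d μ hμ).env0 ((P.dyn d μ hμ).sh t a) = dynEnv μ a t := by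
  funext e
  change P.val (resid (μ * max t 0) (a e)) = (a e (countUpTo (fun k => (a e k).1) (μ * t))).2
  rw [max_eq_left ht, countUpTo_eq (ha.good e)]
  have h0 : (resid (μ * t) (a e) 0).2 = (a e (cnt (μ * t) (a e))).2 := by simp [resid]
  rw [P.val_eq]
  · exact h0
  · rw [h0]; exact ha.lo e _
  · rw [h0]; exact ha.hi e _

lemma dyn_fw_eq {μ : ℝ} (hμ : 0 ≤ μ) {a : EnvNoise d} (ha : P.GoodCfg d a) {w : WalkNoise d}
    (hw : GoodW d w) (n : ℕ) : ∀ (m : ℕ) (x : Site d),
    (P.dyn d μ hμ).fw n ((P.dyn d μ hμ).sh (ringTime w m) a) (fun k => w (m + k)) x =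
      rp P.κ P.lam (dynEnv μ a) w n m x := by
  induction n with
  | zero => intro m x; rfl
  | succ n ih =>
    intro m x
    have h1 : (P.dyn d μ hμ).sh (w (m + 0)).1 ((P.dyn d μ hμ).sh (ringTime w m) a) =
        (P.dyn d μ hμ).sh (ringTime w (m + 1)) a := by
      rw [P.dyn_sh_sh hμ ha (hw.ringTime_nonneg m) (hw.pos _).le, ringTime_succ]
      rfl
    have h2 : (fun k => w (m + (k + 1))) = fun k => w (m + 1 + k) := by
      funext k; congr 1; ring
    simp only [Dyn.fw, rp]
    rw [h1, h2, P.dyn_env0 hμ ha (hw.ringTime_nonneg (m + 1))]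
    exact ih (m + 1) _

lemma dyn_fw {μ : ℝ} (hμ : 0 ≤ μ) {a : EnvNoise d} (ha : P.GoodCfg d a) {w : WalkNoise d}
    (hw : GoodW d w) (n : ℕ) :
    (P.dyn d μ hμ).fw n a w 0 = ringPos P.κ P.lam (dynEnv μ a) w n := by
  have h := P.dyn_fw_eq hμ ha hw n 0 0
  rw [rp_eq_ringPos] at h
  have h1 : (P.dyn d μ hμ).sh (ringTime w 0) a = a := by
    funext e
    change resid (μ * max (ringTime w 0) 0) (a e) = a e
    rw [ringTime_zero]
    simp [resid_zero (ha.good e)]
  rw [h1] at h
  simpa using h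

lemma stat_fw_eq {a : EnvNoise d} (ha : P.GoodCfg d a) (w : WalkNoise d)
    (n : ℕ) : ∀ (m : ℕ) (x : Site d),
    (P.stat d).fw n a (fun k => w (m + k)) x = rp P.κ P.lam (staticEnv a) w n m x := by
  induction n with
  | zero => intro m x; rfl
  | succ n ih =>
    intro m x
    have h2 : (fun k => w (m + (k + 1))) = fun k => w (m + 1 + k) := by
      funext k; congr 1; ring
    simp only [Dyn.fw, rp]
    have h3 : (P.stat d).sh (w (m + 0)).1 a = a := rfl
    have h4 : (P.stat d).env0 a = staticEnv a (ringTime w (m + 1)) := by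
      funext e
      exact P.val_eq (ha.lo e 0) (ha.hi e 0)
    rw [h3, h2, h4]
    exact ih (m + 1) _

lemma stat_fw {a : EnvNoise d} (ha : P.GoodCfg d a) (w : WalkNoise d) (n : ℕ) :
    (P.stat d).fw n a w 0 = ringPos P.κ P.lam (staticEnv a) w n := by
  have h := P.stat_fw_eq ha w n 0 0
  rw [rp_eq_ringPos] at h
  simpa using h

/-- for small refresh rate the first `n` positions agree with the static ones -/
lemma eventually_eq {a : EnvNoise d} (ha : P.GoodCfg d a) (w : WalkNoise d)
    (n : ℕ) : ∀ (m : ℕ) (x : Site d), ∀ᶠ μ in 𝓝[>] (0 : ℝ),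
    rp P.κ P.lam (dynEnv μ a) w n m x = rp P.κ P.lam (staticEnv a) w n m x := by
  induction n with
  | zero => intro m x; exact Eventually.of_forall fun μ => rfl
  | succ n ih =>
    intro m x
    have h1 : ∀ᶠ μ in 𝓝[>] (0 : ℝ), dynEnv μ a (ringTime w (m + 1)) (edgeAt x (w m).2.1) =
        staticEnv a (ringTime w (m + 1)) (edgeAt x (w m).2.1) := by
      set e := edgeAt x (w m).2.1
      have hlim : Tendsto (fun μ : ℝ => μ * ringTime w (m + 1)) (𝓝[>] (0 : ℝ)) (𝓝 0) := by
        have : Tendsto (fun μ : ℝ => μ * ringTime w (m + 1)) (𝓝 (0 : ℝ))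
            (𝓝 (0 * ringTime w (m + 1))) := (continuous_id.mul continuous_const).tendsto 0
        rw [zero_mul] at this
        exact this.mono_left nhdsWithin_le_nhds
      have h2 := hlim.eventually (gt_mem_nhds ((ha.good e).pos 0))
      filter_upwards [h2] with μ hμ
      have h3 : cnt (μ * ringTime w (m + 1)) (a e) = 0 := by
        refine (ha.good e).cnt_eq ?_ (fun k hk => absurd hk (by omega))
        rw [ps_succ, ps_zero, zero_add]; exact hμ
      unfold dynEnv staticEnv
      rw [countUpTo_eq (ha.good e), h3]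
    filter_upwards [h1, ih (m + 1) (ringStep P.κ P.lam (staticEnv a (ringTime w (m + 1))) x
      (w m).2.1 (w m).2.2)] with μ h3 h4
    simp only [rp]
    have h5 : ringStep P.κ P.lam (dynEnv μ a (ringTime w (m + 1))) x (w m).2.1 (w m).2.2 =
        ringStep P.κ P.lam (staticEnv a (ringTime w (m + 1))) x (w m).2.1 (w m).2.2 := by
      unfold ringStep
      rw [h3]
    rw [h5]
    exact h4

lemma joint_eq (D : Dyn EdgeData) (hPA : D.PA = eLaw P.q)
    (hxi : D.xi = expMeasure (2 * ((d : ℝ) + 1) * clockRate P.κ P.lam)) :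
    (D.PE (d := d)).prod (D.Pw d) = jointLaw d P.q P.κ P.lam := by
  unfold Dyn.PE Dyn.Pw Dyn.ringL jointLaw envLaw walkLaw ringLaw
  rw [hPA, hxi]
  rfl

instance : IsProbabilityMeasure (envLaw d P.q) := by
  unfold envLaw; infer_instance

instance : IsProbabilityMeasure (ringLaw d P.κ P.lam) := by
  have := isProbabilityMeasure_expMeasure (P.rate_pos d)
  unfold ringLaw; infer_instance

instance : IsProbabilityMeasure (walkLaw d P.κ P.lam) := by
  unfold walkLaw; infer_instance

instance : IsProbabilityMeasure (jointLaw d P.q P.κ P.lam) := by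
  unfold jointLaw; infer_instance

lemma ae_goodCfg (hq : ∀ᵐ x ∂P.q, x ∈ Set.Icc P.c P.κ) :
    ∀ᵐ a ∂(envLaw d P.q), P.GoodCfg d a := by
  have h1 : ∀ᵐ a ∂(envLaw d P.q), ∀ e, Good (a e) := by
    rw [ae_all_iff]
    intro e
    exact (measurePreserving_eval_infinitePi (fun _ : Edge d => eLaw P.q)
      e).quasiMeasurePreserving.ae (ae_good P.q)
  have h2 : ∀ᵐ z ∂(nu P.q), z.2 ∈ Set.Icc P.c P.κ :=
    (measurePreserving_snd (μ := expMeasure 1) (ν := P.q)).quasiMeasurePreserving.ae hq
  have h3 : ∀ᵐ a ∂(eLaw P.q), ∀ i, (a i).2 ∈ Set.Icc P.c P.κ := by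
    rw [ae_all_iff]
    intro i
    exact (eval_mp P.q i).quasiMeasurePreserving.ae h2
  have h4 : ∀ᵐ a ∂(envLaw d P.q), ∀ e i, (a e i).2 ∈ Set.Icc P.c P.κ := by
    rw [ae_all_iff]
    intro e
    exact (measurePreserving_eval_infinitePi (fun _ : Edge d => eLaw P.q)
      e).quasiMeasurePreserving.ae h3
  filter_upwards [h1, h4] with a ha1 ha2
  exact ⟨ha1, fun e i => (ha2 e i).1, fun e i => (ha2 e i).2⟩

/-- mean waiting time -/
noncomputable def mean (d : ℕ) : ℝ :=
  ∫ x, x ∂(expMeasure (2 * ((d : ℝ) + 1) * clockRate P.κ P.lam))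

lemma mean_pos : 0 < P.mean d := integral_id_expMeasure_pos (P.rate_pos d)

lemma ae_goodW : ∀ᵐ w ∂(walkLaw d P.κ P.lam), GoodW d w ∧
    Tendsto (fun n : ℕ => ringTime w n / (n : ℝ)) atTop (𝓝 (P.mean d)) := by
  have := isProbabilityMeasure_expMeasure (P.rate_pos d)
  have hfst : MeasurePreserving (Prod.fst : ℝ × Dir d × ℝ → ℝ) (ringLaw d P.κ P.lam)
      (expMeasure (2 * ((d : ℝ) + 1) * clockRate P.κ P.lam)) := measurePreserving_fst
  have h0 : ∀ᵐ z ∂(ringLaw d P.κ P.lam), 0 < z.1 :=
    hfst.quasiMeasurePreserving.ae (expMeasure_ae_pos (P.rate_pos d))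
  have h1 : ∀ᵐ w ∂(walkLaw d P.κ P.lam), ∀ k, 0 < (w k).1 := by
    rw [ae_all_iff]
    intro k
    exact (measurePreserving_eval_infinitePi (fun _ : ℕ => ringLaw d P.κ P.lam)
      k).quasiMeasurePreserving.ae h0
  have hint : Integrable (fun z : ℝ × Dir d × ℝ => z.1) (ringLaw d P.κ P.lam) :=
    (hfst.integrable_comp (f := Prod.fst) (g := fun x : ℝ => x)
      measurable_id.aestronglyMeasurable).2 (integrable_id_expMeasure (P.rate_pos d))
  have h2 := slln (ringLaw d P.κ P.lam) (g := fun z : ℝ × Dir d × ℝ => z.1) measurable_fst hint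
  have e : ∫ z : ℝ × Dir d × ℝ, z.1 ∂(ringLaw d P.κ P.lam) = P.mean d := by
    unfold mean
    rw [← hfst.map_eq, integral_map measurable_fst.aemeasurable]
    exact measurable_id.aestronglyMeasurable
  rw [e] at h2
  have h3 : ∀ᵐ (w : WalkNoise d) ∂(walkLaw d P.κ P.lam),
      Tendsto (fun n : ℕ => ringTime w n / (n : ℝ)) atTop (𝓝 (P.mean d)) := h2
  filter_upwards [h1, h3] with w hw1 hw2
  exact ⟨⟨hw1⟩, hw2⟩

lemma ringTime_top {w : WalkNoise d} (h : Tendsto (fun n : ℕ => ringTime w n / (n : ℝ)) atTop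
    (𝓝 (P.mean d))) : Tendsto (fun n => ringTime w n) atTop atTop := by
  have h3 : Tendsto (fun n : ℕ => (ringTime w n / n) * (n : ℝ)) atTop atTop :=
    Tendsto.pos_mul_atTop P.mean_pos h tendsto_natCast_atTop_atTop
  refine h3.congr' ?_
  filter_upwards [eventually_gt_atTop 0] with n hn
  have : (n : ℝ) ≠ 0 := by positivity
  field_simp

lemma walkAt_ringTime {w : WalkNoise d} (hw : GoodW d w) (env : ℝ → Edge d → ℝ) (n : ℕ) :
    walkAt P.κ P.lam env w (ringTime w n) = ringPos P.κ P.lam env w n := by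
  unfold walkAt
  congr 1
  unfold countUpTo
  have hmono : StrictMono (fun n => ringTime w n) :=
    strictMono_nat_of_lt_succ fun k => by
      change ringTime w k < ringTime w (k + 1)
      rw [ringTime_succ]; linarith [hw.pos k]
  have : {k : ℕ | ∑ i ∈ Finset.range (k + 1), (w i).1 ≤ ringTime w n} = Set.Iio n := by
    ext k
    simp only [Set.mem_ofPred_eq, Set.mem_Iio]
    have h1 : ∑ i ∈ Finset.range (k + 1), (w i).1 = ringTime w (k + 1) := rfl
    rw [h1]
    constructor
    · intro h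
      have := (hmono.le_iff_le (a := k + 1) (b := n)).1 h
      omega
    · intro h
      exact (hmono.le_iff_le (a := k + 1) (b := n)).2 (by omega)
  rw [this, ← Finset.coe_Iio, Set.ncard_coe_finset]
  simp

/-- convergence along the rings -/
lemma ring_limit {w : WalkNoise d} (hw : GoodW d w)
    (hm : Tendsto (fun n : ℕ => ringTime w n / (n : ℝ)) atTop (𝓝 (P.mean d)))
    {env : ℝ → Edge d → ℝ} {v : ℝ}
    (h : Tendsto (fun t : ℝ => (walkAt P.κ P.lam env w t 0 : ℝ) / t) atTop (𝓝 v)) :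
    Tendsto (fun n : ℕ => (ringPos P.κ P.lam env w n 0 : ℝ) / n) atTop (𝓝 (v * P.mean d)) := by
  have h1 := h.comp (P.ringTime_top hm)
  have h2 := h1.mul hm
  refine h2.congr' ?_
  filter_upwards [(P.ringTime_top hm).eventually_gt_atTop 0] with n hn
  simp only [Function.comp_apply]
  rw [P.walkAt_ringTime hw]
  field_simp

end Par

end Pool.Agent.Helper90.SlowRefresh
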