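import Mathlib
import Pool.Agent.Helper90.SlowRefresh.Link
import Pool.Agent.Helper90.SlowRefresh.Limit

open MeasureTheory ProbabilityTheory Filter
open scoped ENNReal Topology

namespace Pool.Agent.Helper90.SlowRefresh

set_option linter.unusedSectionVars false

namespace Dyn

lemma Cst_congr {A B : Type} [MeasurableSpace A] [MeasurableSpace B] (D : Dyn A) (E : Dyn B)
    (d : ℕ) (h1 : D.c = E.c) (h2 : D.κ = E.κ) (h3 : D.lam = E.lam) : D.Cst d = E.Cst d := by
  have e1 : D.ga d = E.ga d := by unfold ga; rw [h1, h2]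
  have e2 : D.rr d = E.rr d := by unfold rr th; rw [e1, h3]
  unfold Cst pp n0
  rw [e1, e2, h3]

lemma rr_congr {A B : Type} [MeasurableSpace A] [MeasurableSpace B] (D : Dyn A) (E : Dyn B)
    (d : ℕ) (h1 : D.c = E.c) (h2 : D.κ = E.κ) (h3 : D.lam = E.lam) : D.rr d = E.rr d := by
  have e1 : D.ga d = E.ga d := by unfold ga; rw [h1, h2]
  unfold rr th
  rw [e1, h3]

end Dyn

namespace Par

variable (P : Par) {d : ℕ}

/-- dynamics indexed by all real `μ` -/
noncomputable def dynp (d : ℕ) (μ : ℝ) : Dyn EdgeData := P.dyn d (max μ 0) (le_max_right μ 0)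

lemma dynp_fw {μ : ℝ} (hμ : 0 < μ) {a : EnvNoise d} (ha : P.GoodCfg d a) {w : WalkNoise d}
    (hw : GoodW d w) (n : ℕ) :
    (P.dynp d μ).fw n a w 0 = ringPos P.κ P.lam (dynEnv μ a) w n := by
  have h := P.dyn_fw (le_max_right μ 0) ha hw n
  have e : dynEnv (max μ 0) a = dynEnv μ a := by rw [max_eq_left hμ.le]
  rw [e] at h
  exact h

lemma joint_dynp (μ : ℝ) : ((P.dynp d μ).PE (d := d)).prod ((P.dynp d μ).Pw d) =
    jointLaw d P.q P.κ P.lam := P.joint_eq (P.dynp d μ) rfl rfl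

lemma joint_stat : ((P.stat d).PE (d := d)).prod ((P.stat d).Pw d) =
    jointLaw d P.q P.κ P.lam := P.joint_eq (P.stat d) rfl rfl

lemma ae_joint (hq : ∀ᵐ x ∂P.q, x ∈ Set.Icc P.c P.κ) :
    ∀ᵐ p ∂(jointLaw d P.q P.κ P.lam), P.GoodCfg d p.1 ∧ GoodW d p.2 ∧
      Tendsto (fun n : ℕ => ringTime p.2 n / (n : ℝ)) atTop (𝓝 (P.mean d)) := by
  have h1 : ∀ᵐ p ∂(jointLaw d P.q P.κ P.lam), P.GoodCfg d p.1 :=
    (measurePreserving_fst (μ := envLaw d P.q)
      (ν := walkLaw d P.κ P.lam)).quasiMeasurePreserving.ae (P.ae_goodCfg hq)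
  have h2 : ∀ᵐ p ∂(jointLaw d P.q P.κ P.lam), GoodW d p.2 ∧
      Tendsto (fun n : ℕ => ringTime p.2 n / (n : ℝ)) atTop (𝓝 (P.mean d)) :=
    (measurePreserving_snd (μ := envLaw d P.q)
      (ν := walkLaw d P.κ P.lam)).quasiMeasurePreserving.ae P.ae_goodW
  filter_upwards [h1, h2] with p hp1 hp2
  exact ⟨hp1, hp2⟩

lemma sg_tendsto (hq : ∀ᵐ x ∂P.q, x ∈ Set.Icc P.c P.κ) (M : ℤ) (n : ℕ) :
    Tendsto (fun μ => (P.dynp d μ).sg d M n) (𝓝[>] (0 : ℝ)) (𝓝 ((P.stat d).sg d M n)) := by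
  unfold Dyn.sg
  simp only [joint_dynp, joint_stat]
  refine tendsto_lintegral_filter_of_dominated_convergence (fun _ => 1) ?_ ?_ ?_ ?_
  · exact Eventually.of_forall fun μ => (P.dynp d μ).al_measurable0 M n
  · refine Eventually.of_forall fun μ => Eventually.of_forall fun p => ?_
    unfold Dyn.al
    split_ifs <;> simp
  · simp
  · filter_upwards [P.ae_joint hq] with p hp
    obtain ⟨ha, hw, -⟩ := hp
    refine tendsto_const_nhds.congr' ?_
    have h1 : ∀ᶠ μ in 𝓝[>] (0 : ℝ), ∀ j ∈ Finset.range (n + 1),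
        rp P.κ P.lam (dynEnv μ p.1) p.2 j 0 0 = rp P.κ P.lam (staticEnv p.1) p.2 j 0 0 := by
      rw [Filter.eventually_all_finset]
      intro j _
      exact P.eventually_eq ha p.2 j 0 0
    filter_upwards [h1, self_mem_nhdsWithin] with μ hμ hμ0
    have hμ0' : 0 < μ := hμ0
    have h2 : ∀ j ≤ n, (P.dynp d μ).fw j p.1 p.2 0 = (P.stat d).fw j p.1 p.2 0 := by
      intro j hj
      have h3 := P.dynp_fw hμ0' ha hw j
      have h4 := P.stat_fw ha p.2 j
      have h5 := hμ j (Finset.mem_range.2 (by omega))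
      rw [rp_eq_ringPos, rp_eq_ringPos] at h5
      rw [h3, h4, h5]
    classical
    unfold Dyn.al
    refine if_congr ?_ rfl rfl
    unfold Dyn.Alive
    constructor
    · intro h j hj; rw [h2 j hj]; exact h j hj
    · intro h j hj; rw [← h2 j hj]; exact h j hj

lemma hr_tendsto (hq : ∀ᵐ x ∂P.q, x ∈ Set.Icc P.c P.κ) (M : ℕ) :
    Tendsto (fun μ => (P.dynp d μ).hr d M) (𝓝[>] (0 : ℝ)) (𝓝 ((P.stat d).hr d M)) := by
  have hD : ∀ (D : Dyn EdgeData), D.hr d M = ∑' n, (D.sg d (M : ℤ) n).toReal := by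
    intro D
    unfold Dyn.hr
    rw [D.hh_eq_tsum, ENNReal.tsum_toReal_eq]
    exact fun n => ne_top_of_le_ne_top ENNReal.one_ne_top (D.sg_ne_top _ n)
  simp only [hD]
  set r := (P.stat d).rr d with hr
  have hr0 : 0 < r := (P.stat d).rr_pos
  have hr1 : r < 1 := (P.stat d).rr_lt_one
  have hrr : ∀ μ, (P.dynp d μ).rr d = r := fun μ =>
    Dyn.rr_congr (P.dynp d μ) (P.stat d) d rfl rfl rfl
  set bound : ℕ → ℝ := fun n =>
    (if n < K0 r P.lam * M then 1 else 0) + Dyn.pol d n * r ^ n with hb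
  have hbs : Summable bound := by
    refine Summable.add ?_ (Dyn.summable_pol0 d hr0 hr1)
    refine summable_of_ne_finset_zero (s := Finset.range (K0 r P.lam * M)) fun n hn => ?_
    rw [if_neg (by simpa using hn)]
  refine tendsto_tsum_of_dominated_convergence (bound := bound) hbs ?_ ?_
  · intro n
    have h1 := P.sg_tendsto (d := d) hq (M : ℤ) n
    have h2 : (P.stat d).sg d (M : ℤ) n ≠ ⊤ :=
      ne_top_of_le_ne_top ENNReal.one_ne_top ((P.stat d).sg_ne_top _ n)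
    exact (ENNReal.tendsto_toReal h2).comp h1
  · refine Eventually.of_forall fun μ n => ?_
    rw [Real.norm_of_nonneg ENNReal.toReal_nonneg]
    have hp := Dyn.pol_term_nonneg d n hr0
    simp only [hb]
    split_ifs with h
    · have h1 : ((P.dynp d μ).sg d (M : ℤ) n).toReal ≤ 1 := by
        have := ENNReal.toReal_mono ENNReal.one_ne_top ((P.dynp d μ).sg_ne_top (d := d) (M : ℤ) n)
        simpa using this
      linarith
    · have h2 := (P.dynp d μ).sg_le_pol (d := d) (M := M) (n := n)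
        (by rw [hrr μ]; exact not_lt.1 h)
      rw [hrr μ] at h2
      have h3 := ENNReal.toReal_mono ENNReal.ofReal_ne_top h2
      rw [ENNReal.toReal_ofReal hp] at h3
      linarith

/-- limits along the rings for a dynamic speed -/
lemma dyn_ring_limit (hq : ∀ᵐ x ∂P.q, x ∈ Set.Icc P.c P.κ) {μ v : ℝ} (hμ : 0 < μ)
    (h : IsDynamicSpeed d P.q P.κ P.lam μ v) :
    ∀ᵐ p ∂(((P.dynp d μ).PE (d := d)).prod ((P.dynp d μ).Pw d)),
      Tendsto (fun n : ℕ => (((P.dynp d μ).fw n p.1 p.2 0) 0 : ℝ) / n) atTop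
        (𝓝 (v * P.mean d)) := by
  rw [joint_dynp]
  filter_upwards [P.ae_joint hq, h] with p hp1 hp2
  obtain ⟨ha, hw, hm⟩ := hp1
  refine (P.ring_limit hw hm hp2).congr fun n => ?_
  rw [P.dynp_fw hμ ha hw n]

lemma stat_ring_limit (hq : ∀ᵐ x ∂P.q, x ∈ Set.Icc P.c P.κ) {v : ℝ}
    (h : IsStaticSpeed d P.q P.κ P.lam v) :
    ∀ᵐ p ∂(((P.stat d).PE (d := d)).prod ((P.stat d).Pw d)),
      Tendsto (fun n : ℕ => (((P.stat d).fw n p.1 p.2 0) 0 : ℝ) / n) atTop
        (𝓝 (v * P.mean d)) := by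
  rw [joint_stat]
  filter_upwards [P.ae_joint hq, h] with p hp1 hp2
  obtain ⟨ha, hw, hm⟩ := hp1
  refine (P.ring_limit hw hm hp2).congr fun n => ?_
  rw [P.stat_fw ha p.2 n]

theorem main (hq : ∀ᵐ x ∂P.q, x ∈ Set.Icc P.c P.κ) (v : ℝ → ℝ)
    (hv : ∀ μ, 0 < μ → IsDynamicSpeed d P.q P.κ P.lam μ (v μ)) (vst : ℝ)
    (hst : IsStaticSpeed d P.q P.κ P.lam vst) :
    Tendsto v (𝓝[>] (0 : ℝ)) (𝓝 vst) := by
  set m := P.mean d with hm
  have hmpos : 0 < m := P.mean_pos
  set C := (P.stat d).Cst d with hC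
  have hCμ : ∀ μ, (P.dynp d μ).Cst d = C := fun μ =>
    Dyn.Cst_congr (P.dynp d μ) (P.stat d) d rfl rfl rfl
  have hC0 : 0 ≤ C := (P.stat d).Cst_nonneg
  have hs := P.stat_ring_limit hq hst
  have hs1 := ((P.stat d).hr_limit hs).1
  have hd1 : ∀ μ, 0 < μ → 0 < v μ * m := fun μ hμ =>
    ((P.dynp d μ).hr_limit (P.dyn_ring_limit hq hμ (hv μ hμ))).1
  have hinv : Tendsto (fun μ => 1 / (v μ * m)) (𝓝[>] (0 : ℝ)) (𝓝 (1 / (vst * m))) := by
    rw [Metric.tendsto_nhds]
    intro ε hε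
    obtain ⟨M, hM0, hM⟩ : ∃ M : ℕ, 0 < M ∧ 2 * C / M < ε / 2 := by
      obtain ⟨M, hM⟩ := exists_nat_gt (2 * C / (ε / 2))
      refine ⟨M + 1, by omega, ?_⟩
      have hM' : (0 : ℝ) < ((M + 1 : ℕ) : ℝ) := by positivity
      rw [div_lt_iff₀ hM']
      rw [div_lt_iff₀ (by positivity)] at hM
      push_cast
      nlinarith
    have hMp : (0 : ℝ) < M := by exact_mod_cast hM0
    have h1 := (P.hr_tendsto (d := d) hq M)
    have h2 := (Metric.tendsto_nhds.1 (h1.div_const (M : ℝ))) (ε / 2) (by positivity)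
    filter_upwards [h2, self_mem_nhdsWithin] with μ hμ hμ0
    have hμ0' : 0 < μ := hμ0
    have r1 := (P.dynp d μ).hr_rate (P.dyn_ring_limit hq hμ0' (hv μ hμ0')) M hM0
    have r2 := (P.stat d).hr_rate hs M hM0
    rw [hCμ μ] at r1
    rw [Real.dist_eq] at hμ ⊢
    have e : 1 / (v μ * m) - 1 / (vst * m) =
        (1 / (v μ * m) - (P.dynp d μ).hr d M / M) +
        ((P.dynp d μ).hr d M / M - (P.stat d).hr d M / M) -
        (1 / (vst * m) - (P.stat d).hr d M / M) := by ring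
    rw [e]
    have e2 : C / M + C / M = 2 * C / M := by ring
    calc |(1 / (v μ * m) - (P.dynp d μ).hr d M / M) +
        ((P.dynp d μ).hr d M / M - (P.stat d).hr d M / M) -
        (1 / (vst * m) - (P.stat d).hr d M / M)|
        ≤ |1 / (v μ * m) - (P.dynp d μ).hr d M / M| +
          |(P.dynp d μ).hr d M / M - (P.stat d).hr d M / M| +
          |1 / (vst * m) - (P.stat d).hr d M / M| := by
          refine (abs_sub _ _).trans (add_le_add (abs_add_le _ _) le_rfl)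
      _ ≤ C / M + |(P.dynp d μ).hr d M / M - (P.stat d).hr d M / M| + C / M := by
          gcongr
      _ < ε := by linarith
  have h3 : Tendsto (fun μ => v μ * m) (𝓝[>] (0 : ℝ)) (𝓝 (vst * m)) := by
    have h4 := hinv.inv₀ (by positivity)
    simpa using h4
  have h5 := h3.div_const m
  have e1 : ∀ x : ℝ, x * m / m = x := fun x => by field_simp
  simpa only [e1] using h5

end Par

end Pool.Agent.Helper90.SlowRefresh
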