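import Mathlib
import Pool.Agent.Helper90.SlowRefresh.ExistProb
import Pool.Agent.Helper90.SlowRefresh.Main

open MeasureTheory ProbabilityTheory Filter
open scoped ENNReal Topology

namespace Pool.Agent.Helper90.SlowRefresh

set_option linter.unusedSectionVars false

variable {d : ℕ} {A : Type} [MeasurableSpace A]

namespace Dyn

variable (D : Dyn A)

lemma ring_KK {f : Cfg d A → Site d → ℝ≥0∞} (hf : MF f) (a : Cfg d A) (x : Site d) :
    ∫⁻ z, f (D.sh z.1 a) (ringStep D.κ D.lam (D.env0 (D.sh z.1 a)) x z.2.1 z.2.2) ∂(D.ringL d) =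
      D.KK f a x := by
  have hfm : Measurable fun p : Cfg d A × Site d => f p.1 p.2 := by
    refine measurable_from_prod_countable_left fun x => ?_
    exact hf x
  have h2 : Measurable fun z : ℝ × Dir d × ℝ => f (D.sh z.1 a)
      (ringStep D.κ D.lam (D.env0 (D.sh z.1 a)) x z.2.1 z.2.2) := by
    have h3 : Measurable fun z : ℝ × Dir d × ℝ => D.sh z.1 a :=
      D.sh_measurable.comp (measurable_fst.prodMk measurable_const)
    have h4 : Measurable fun z : ℝ × Dir d × ℝ =>
        (((D.sh z.1 a, z.2.2), (z.2.1, x)) : (Cfg d A × ℝ) × (Dir d × Site d)) :=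
      (h3.prodMk (measurable_snd.comp measurable_snd)).prodMk
        ((measurable_fst.comp measurable_snd).prodMk measurable_const)
    exact hfm.comp (h3.prodMk (D.ringStep_measurable.comp h4))
  unfold ringL
  rw [lintegral_prod _ h2.aemeasurable]
  unfold KK op
  refine lintegral_congr fun s => ?_
  have h5 : Measurable fun y : Dir d × ℝ => f (D.sh s a)
      (ringStep D.κ D.lam (D.env0 (D.sh s a)) x y.1 y.2) :=
    h2.comp (measurable_const.prodMk measurable_id)
  change ∫⁻ y : Dir d × ℝ, f (D.sh s a)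
      (ringStep D.κ D.lam (D.env0 (D.sh s a)) x y.1 y.2)
      ∂((uniformOn (Set.univ : Set (Dir d))).prod (volume.restrict (Set.Icc (0 : ℝ) 1))) = _
  rw [lintegral_prod _ h5.aemeasurable]
  exact D.ring_sum (D.sh s a) x (fun y => f (D.sh s a) y)

lemma fw_measurable_w (n : ℕ) (a : Cfg d A) (x : Site d) :
    Measurable fun w : ℕ → ℝ × Dir d × ℝ => (D.fw n a w x) 0 :=
  (measurable_pi_apply 0).comp ((D.fw_measurable n).comp
    (measurable_const.prodMk (measurable_id.prodMk measurable_const)))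

lemma kit_path (M : ℤ) (m : ℕ) : ∀ (a : Cfg d A) (x : Site d),
    ∫⁻ w, (if (D.fw m a w x) 0 < M then (1 : ℝ≥0∞) else 0) ∂(D.Pw d) =
      D.Kit m (lvl M) a x := by
  induction m with
  | zero =>
    intro a x
    have h1 : ∀ w : ℕ → ℝ × Dir d × ℝ,
        (if (D.fw 0 a w x) 0 < M then (1 : ℝ≥0∞) else 0) = lvl M a x := fun w => rfl
    simp only [h1]
    simp [Kit_zero]
  | succ m ih =>
    intro a x
    have hm : Measurable fun w : ℕ → ℝ × Dir d × ℝ =>
        (if (D.fw (m + 1) a w x) 0 < M then (1 : ℝ≥0∞) else 0) :=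
      Measurable.ite (measurableSet_lt (D.fw_measurable_w (m + 1) a x) measurable_const)
        measurable_const measurable_const
    unfold Pw
    rw [lintegral_consSeq _ hm, Kit_succ, ← D.ring_KK (D.Kit_MF (lvl_MF M) m) a x]
    refine lintegral_congr fun z => ?_
    rw [← ih]
    rfl

lemma back_bound (m k : ℕ) (j : ℕ) : ∀ (a : Cfg d A) (x : Site d),
    ∫⁻ w, (if (D.fw (j + m) a w x) 0 ≤ (D.fw j a w x) 0 - k then (1 : ℝ≥0∞) else 0) ∂(D.Pw d) ≤
      ENNReal.ofReal (pol d m * D.rr d ^ (2 * m) * Real.exp (D.lam * (1 - k))) := by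
  induction j with
  | zero =>
    intro a x
    have h1 : ∀ w : ℕ → ℝ × Dir d × ℝ,
        (if (D.fw (0 + m) a w x) 0 ≤ (D.fw 0 a w x) 0 - k then (1 : ℝ≥0∞) else 0) =
        (if (D.fw m a w x) 0 < x 0 - k + 1 then (1 : ℝ≥0∞) else 0) := by
      intro w
      rw [zero_add]
      refine if_congr ?_ rfl rfl
      change (D.fw m a w x) 0 ≤ x 0 - k ↔ _
      omega
    simp only [h1]
    rw [D.kit_path]
    refine (D.Kit_lvl_le _ m a x).trans (le_of_eq ?_)
    congr 3
    push_cast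
    ring
  | succ j ih =>
    intro a x
    have hm : Measurable fun w : ℕ → ℝ × Dir d × ℝ =>
        (if (D.fw (j + 1 + m) a w x) 0 ≤ (D.fw (j + 1) a w x) 0 - k then (1 : ℝ≥0∞) else 0) :=
      Measurable.ite (measurableSet_le (D.fw_measurable_w _ a x)
        ((D.fw_measurable_w _ a x).sub measurable_const)) measurable_const measurable_const
    have e : j + 1 + m = (j + m) + 1 := by ring
    unfold Pw
    rw [lintegral_consSeq _ hm]
    calc _ ≤ ∫⁻ _z, ENNReal.ofReal (pol d m * D.rr d ^ (2 * m) *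
            Real.exp (D.lam * (1 - k))) ∂(D.ringL d) := by
          refine lintegral_mono fun z => ?_
          refine le_trans (le_of_eq ?_) (ih (D.sh z.1 a)
            (ringStep D.κ D.lam (D.env0 (D.sh z.1 a)) x z.2.1 z.2.2))
          rw [e]
          rfl
      _ = _ := by simp

/-- backtracking event -/
def BT (n k : ℕ) : Set (Cfg d A × (ℕ → ℝ × Dir d × ℝ)) :=
  {p | ∃ j ≤ n, (D.fw n p.1 p.2 0) 0 ≤ (D.fw j p.1 p.2 0) 0 - k}

lemma fw_measurable0 (n : ℕ) :
    Measurable fun p : Cfg d A × (ℕ → ℝ × Dir d × ℝ) => (D.fw n p.1 p.2 0) 0 :=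
  (measurable_pi_apply 0).comp ((D.fw_measurable n).comp
    (measurable_fst.prodMk (measurable_snd.prodMk measurable_const)))

lemma BT_le (n k : ℕ) : D.JJ d (D.BT n k) ≤
    ENNReal.ofReal ((∑' m : ℕ, pol d m * D.rr d ^ m) * Real.exp (D.lam * (1 - k))) := by
  have h0 := D.rr_pos (d := d)
  have h1 := D.rr_lt_one (d := d)
  have hs := summable_pol0 d h0 h1
  have hsub : D.BT (d := d) n k ⊆ ⋃ j ∈ Finset.range (n + 1),
      {p | (D.fw n p.1 p.2 0) 0 ≤ (D.fw j p.1 p.2 0) 0 - k} := by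
    rintro p ⟨j, hj, hp⟩
    simp only [Set.mem_iUnion]
    exact ⟨j, Finset.mem_range.2 (by omega), hp⟩
  refine (measure_mono hsub).trans ((measure_biUnion_finset_le _ _).trans ?_)
  have hj : ∀ j ∈ Finset.range (n + 1),
      D.JJ d {p | (D.fw n p.1 p.2 0) 0 ≤ (D.fw j p.1 p.2 0) 0 - k} ≤
      ENNReal.ofReal (pol d (n - j) * D.rr d ^ (n - j) * Real.exp (D.lam * (1 - k))) := by
    intro j hj
    have hjn : j ≤ n := by have := Finset.mem_range.1 hj; omega
    have hms : MeasurableSet {p : Cfg d A × (ℕ → ℝ × Dir d × ℝ) |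
        (D.fw n p.1 p.2 0) 0 ≤ (D.fw j p.1 p.2 0) 0 - k} :=
      measurableSet_le (D.fw_measurable0 n) ((D.fw_measurable0 j).sub measurable_const)
    have e1 : D.JJ d {p | (D.fw n p.1 p.2 0) 0 ≤ (D.fw j p.1 p.2 0) 0 - k} =
        ∫⁻ p, (if (D.fw n p.1 p.2 0) 0 ≤ (D.fw j p.1 p.2 0) 0 - k then (1 : ℝ≥0∞) else 0)
          ∂(D.JJ d) := by
      rw [← lintegral_indicator_one hms]
      refine lintegral_congr fun p => ?_
      by_cases h : (D.fw n p.1 p.2 0) 0 ≤ (D.fw j p.1 p.2 0) 0 - k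
      · rw [if_pos h, Set.indicator_of_mem (by exact h)]; rfl
      · rw [if_neg h, Set.indicator_of_notMem (by exact h)]
    have hm2 : Measurable fun p : Cfg d A × (ℕ → ℝ × Dir d × ℝ) =>
        (if (D.fw n p.1 p.2 0) 0 ≤ (D.fw j p.1 p.2 0) 0 - k then (1 : ℝ≥0∞) else 0) :=
      Measurable.ite hms measurable_const measurable_const
    rw [e1]
    unfold JJ
    rw [lintegral_prod _ hm2.aemeasurable]
    calc _ ≤ ∫⁻ _a : Cfg d A, ENNReal.ofReal (pol d (n - j) * D.rr d ^ (n - j) *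
            Real.exp (D.lam * (1 - k))) ∂D.PE := by
          refine lintegral_mono fun a => ?_
          have h2 := D.back_bound (n - j) k j a 0
          have e2 : j + (n - j) = n := by omega
          rw [e2] at h2
          refine h2.trans (ENNReal.ofReal_le_ofReal ?_)
          have h3 : D.rr d ^ (2 * (n - j)) ≤ D.rr d ^ (n - j) :=
            pow_le_pow_of_le_one h0.le h1.le (by omega)
          have h4 := one_le_pol d (n - j)
          gcongr
      _ = _ := by simp
  refine (Finset.sum_le_sum hj).trans ?_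
  have h5 : ∑ j ∈ Finset.range (n + 1), ENNReal.ofReal (pol d (n - j) * D.rr d ^ (n - j) *
      Real.exp (D.lam * (1 - k))) = ∑ m ∈ Finset.range (n + 1), ENNReal.ofReal (pol d m *
        D.rr d ^ m * Real.exp (D.lam * (1 - k))) := by
    have := Finset.sum_range_reflect (fun m => ENNReal.ofReal (pol d m *
        D.rr d ^ m * Real.exp (D.lam * (1 - k)))) (n + 1)
    rw [← this]
    refine Finset.sum_congr rfl fun j hj => ?_
    have e3 : n + 1 - 1 - j = n - j := by omega
    rw [e3]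
  rw [h5]
  refine (ENNReal.sum_le_tsum _).trans (le_of_eq ?_)
  rw [← ENNReal.ofReal_tsum_of_nonneg (fun m => by
    have := pol_term_nonneg d m h0
    positivity) (hs.mul_right _), tsum_mul_right]

lemma back_ae {i : ℕ} (hi : 0 < i) : ∀ᵐ p ∂(D.JJ d), ∀ᶠ n : ℕ in atTop, ∀ j ≤ n,
    (D.fw j p.1 p.2 0) 0 - (n / i : ℕ) < (D.fw n p.1 p.2 0) 0 := by
  have h0 := D.rr_pos (d := d)
  have h1 := D.rr_lt_one (d := d)
  have hl := D.hlam
  have hiR : (0 : ℝ) < i := by exact_mod_cast hi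
  set S := ∑' m : ℕ, pol d m * D.rr d ^ m with hS
  have hS0 : 0 ≤ S := tsum_nonneg fun m => pol_term_nonneg d m h0
  have h2 : ∑' n : ℕ, D.JJ d (D.BT n (n / i)) ≠ ⊤ := by
    refine ne_top_of_le_ne_top (b := ∑' n : ℕ, ENNReal.ofReal (S * Real.exp (2 * D.lam) *
      Real.exp (-(D.lam / i)) ^ n)) ?_ (ENNReal.tsum_le_tsum fun n => ?_)
    · have hg : Summable fun n : ℕ => S * Real.exp (2 * D.lam) * Real.exp (-(D.lam / i)) ^ n := by
        refine Summable.mul_left _ (summable_geometric_of_lt_one (Real.exp_pos _).le ?_)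
        rw [Real.exp_lt_one_iff]
        have : 0 < D.lam / i := by positivity
        linarith
      rw [← ENNReal.ofReal_tsum_of_nonneg (fun n => by positivity) hg]
      exact ENNReal.ofReal_ne_top
    · refine (D.BT_le n (n / i)).trans (ENNReal.ofReal_le_ofReal ?_)
      rw [← hS, mul_assoc]
      refine mul_le_mul_of_nonneg_left ?_ hS0
      rw [← Real.exp_nat_mul, ← Real.exp_add]
      refine Real.exp_le_exp.2 ?_
      have h3 : (n : ℝ) / i < ((n / i : ℕ) : ℝ) + 1 := by
        rw [div_lt_iff₀ hiR]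
        have := Nat.lt_div_mul_add (a := n) hi
        have h4 : (n : ℝ) < ((n / i : ℕ) : ℝ) * i + i := by exact_mod_cast this
        linarith
      have h5 : (n : ℝ) * -(D.lam / i) = - (D.lam * (n / i)) := by ring
      rw [h5]
      nlinarith
  filter_upwards [ae_eventually_notMem h2] with p hp
  filter_upwards [hp] with n hn
  intro j hj
  by_contra h
  push Not at h
  exact hn ⟨j, hj, h⟩

/-- almost sure existence of the speed along the rings -/
theorem exists_ring_speed : ∃ v : ℝ, 0 < v ∧ ∀ᵐ p ∂((D.PE (d := d)).prod (D.Pw d)),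
    Tendsto (fun n : ℕ => ((D.fw n p.1 p.2 0) 0 : ℝ) / n) atTop (𝓝 v) := by
  classical
  obtain ⟨τ, hτ1, hτ⟩ := D.exists_tau (d := d)
  have hτ0 : 0 < τ := by linarith
  refine ⟨1 / τ, by positivity, ?_⟩
  have a1 : ∀ᵐ p ∂(D.JJ d), ∀ M : ℕ, D.HT (M : ℤ) p < ⊤ := by
    rw [ae_all_iff]; exact fun M => D.HT_ae_lt_top M
  have a2 : ∀ᵐ p ∂(D.JJ d), ∀ m : ℕ, 0 < m → Tendsto (fun k : ℕ =>
      (D.HT (((m * 2 ^ k : ℕ)) : ℤ) p).toReal / ((m * 2 ^ k : ℕ) : ℝ)) atTop (𝓝 τ) := by
    rw [ae_all_iff]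
    intro m
    by_cases hm : 0 < m
    · filter_upwards [D.grid_ae hτ hm] with p hp
      exact fun _ => hp
    · exact Eventually.of_forall fun p h => absurd h hm
  have a3 : ∀ᵐ p ∂(D.JJ d), ∀ i : ℕ, 0 < i → ∀ᶠ n : ℕ in atTop, ∀ j ≤ n,
      (D.fw j p.1 p.2 0) 0 - (n / i : ℕ) < (D.fw n p.1 p.2 0) 0 := by
    rw [ae_all_iff]
    intro i
    by_cases hi : 0 < i
    · filter_upwards [D.back_ae hi] with p hp
      exact fun _ => hp
    · exact Eventually.of_forall fun p h => absurd h hi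
  change ∀ᵐ p ∂(D.JJ d), _
  filter_upwards [a1, a2, a3] with p h1 h2 h3
  set y : ℕ → ℤ := fun n => (D.fw n p.1 p.2 0) 0 with hy
  have hy0 : y 0 = 0 := rfl
  have hys : ∀ n, y (n + 1) ≤ y n + 1 := fun n => D.fw_step n p.1 p.2 0
  have hex : ∀ M : ℕ, ∃ n, (M : ℤ) ≤ y n := by
    intro M
    by_contra hcon
    push Not at hcon
    have h4 : D.HT (M : ℤ) p = ⊤ := by
      unfold HT
      have : ∀ n, D.al (M : ℤ) n p.1 p.2 0 = 1 := by
        intro n
        unfold al
        rw [if_pos]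
        exact fun j _ => hcon j
      simp only [this]
      exact ENNReal.tsum_const_eq_top_of_ne_zero one_ne_zero
    exact absurd h4 (h1 M).ne
  set T : ℕ → ℕ := fun M => Nat.find (hex M) with hT
  have hT1 : ∀ M : ℕ, (M : ℤ) ≤ y (T M) := fun M => Nat.find_spec (hex M)
  have hT2 : ∀ M : ℕ, ∀ i < T M, y i < (M : ℤ) := fun M i hi => by
    have := Nat.find_min (hex M) hi
    omega
  have hHT : ∀ M : ℕ, (D.HT (M : ℤ) p).toReal = T M := by
    intro M
    have h4 : ∀ n, D.al (M : ℤ) n p.1 p.2 0 = if n < T M then 1 else 0 := by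
      intro n
      have hiff : D.Alive (M : ℤ) n p.1 p.2 0 ↔ n < T M := by
        constructor
        · intro h
          by_contra hj
          push Not at hj
          exact absurd (h (T M) hj) (not_lt.2 (hT1 M))
        · intro hj i hi
          exact hT2 M i (by omega)
      unfold al
      by_cases h : n < T M
      · rw [if_pos h, if_pos (hiff.2 h)]
      · rw [if_neg h, if_neg (fun hh => h (hiff.1 hh))]
    unfold HT
    simp only [h4]
    rw [tsum_eq_sum (s := Finset.range (T M))]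
    · rw [Finset.sum_congr rfl (g := fun _ => (1 : ℝ≥0∞)) (fun n hn => by
        rw [if_pos (Finset.mem_range.1 hn)])]
      simp
    · intro n hn
      rw [if_neg (by simpa using hn)]
  have hTmono : Monotone T := by
    intro M M' h
    refine Nat.find_min' (hex M) ?_
    have h4 := hT1 M'
    have h5 : (M : ℤ) ≤ (M' : ℤ) := by exact_mod_cast h
    exact h5.trans h4
  have hgrid : Tendsto (fun M : ℕ => (T M : ℝ) / M) atTop (𝓝 τ) := by
    refine grid_tendsto (f := fun M => (T M : ℝ)) (fun M M' h => Nat.cast_le.2 (hTmono h))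
      hτ0 fun m hm => ?_
    refine (h2 m hm).congr fun k => ?_
    rw [hHT]
  exact position_tendsto hy0 hys hT1 hT2 hτ0 hgrid h3

end Dyn

namespace Par

variable (P : Par) {d : ℕ}

/-- from the rings to continuous time -/
lemma cont_limit {w : WalkNoise d} (hw : GoodW d w)
    (hm : Tendsto (fun n : ℕ => ringTime w n / (n : ℝ)) atTop (𝓝 (P.mean d)))
    {env : ℝ → Edge d → ℝ} {v : ℝ}
    (h : Tendsto (fun n : ℕ => (ringPos P.κ P.lam env w n 0 : ℝ) / n) atTop (𝓝 v)) :
    Tendsto (fun t : ℝ => (walkAt P.κ P.lam env w t 0 : ℝ) / t) atTop (𝓝 (v / P.mean d)) := by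
  set a : EdgeData := fun k => ((w k).1, 0) with ha
  have hps : ∀ n, ps a n = ringTime w n := fun n => rfl
  have hg : Good a := ⟨hw.pos, P.ringTime_top hm⟩
  have hcnt : ∀ t, countUpTo (fun k => (w k).1) t = cnt t a := fun t => countUpTo_eq hg t
  have hmp := P.mean_pos (d := d)
  have htop : Tendsto (fun t : ℝ => cnt t a) atTop atTop := by
    rw [tendsto_atTop]
    intro n
    filter_upwards [eventually_ge_atTop (ps a n)] with t ht
    by_contra hlt
    push Not at hlt
    have h1 := hg.cnt_spec t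
    have h2 : ps a (cnt t a + 1) ≤ ps a n := hg.mono (by omega)
    linarith
  have hlow : Tendsto (fun t : ℝ => ps a (cnt t a) / (cnt t a : ℝ)) atTop (𝓝 (P.mean d)) :=
    hm.comp htop
  have hup : Tendsto (fun t : ℝ => ps a (cnt t a + 1) / (cnt t a : ℝ)) atTop (𝓝 (P.mean d)) := by
    have h1 : Tendsto (fun n : ℕ => ps a (n + 1) / ((n + 1 : ℕ) : ℝ)) atTop (𝓝 (P.mean d)) :=
      hm.comp (tendsto_add_atTop_nat 1)
    have h2 : Tendsto (fun M : ℕ => (((M + 1 : ℕ) : ℝ)) / M) atTop (𝓝 1) := by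
      have h3 : Tendsto (fun M : ℕ => 1 + 1 / (M : ℝ)) atTop (𝓝 (1 + 0)) :=
        tendsto_const_nhds.add tendsto_one_div_atTop_nhds_zero_nat
      rw [add_zero] at h3
      refine h3.congr' ?_
      filter_upwards [eventually_gt_atTop 0] with M hM
      have : (M : ℝ) ≠ 0 := by positivity
      push_cast
      field_simp
    have h4 := h1.mul h2
    rw [mul_one] at h4
    have h5 : Tendsto (fun n : ℕ => ps a (n + 1) / (n : ℝ)) atTop (𝓝 (P.mean d)) := by
      refine h4.congr fun M => ?_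
      have : ((M + 1 : ℕ) : ℝ) ≠ 0 := by positivity
      field_simp
    exact h5.comp htop
  have hmid : Tendsto (fun t : ℝ => t / (cnt t a : ℝ)) atTop (𝓝 (P.mean d)) := by
    refine tendsto_of_tendsto_of_tendsto_of_le_of_le' hlow hup ?_ ?_
    · filter_upwards [eventually_ge_atTop 0] with t ht
      exact div_le_div_of_nonneg_right (hg.ps_cnt_le ht) (Nat.cast_nonneg _)
    · filter_upwards with t
      exact div_le_div_of_nonneg_right (hg.cnt_spec t).le (Nat.cast_nonneg _)
  have h6 : Tendsto (fun t : ℝ => (ringPos P.κ P.lam env w (cnt t a) 0 : ℝ) / (cnt t a : ℝ)) atTop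
      (𝓝 v) := h.comp htop
  have h7 := h6.div hmid hmp.ne'
  refine h7.congr' ?_
  filter_upwards [htop.eventually_gt_atTop 0, eventually_gt_atTop 0] with t ht1 ht2
  have hc : (0 : ℝ) < (cnt t a : ℝ) := by exact_mod_cast ht1
  unfold walkAt
  rw [hcnt]
  simp only [Pi.div_apply]
  field_simp

lemma exists_dynamic (hq : ∀ᵐ x ∂P.q, x ∈ Set.Icc P.c P.κ) {μ : ℝ} (hμ : 0 < μ) :
    ∃ v, 0 < v ∧ IsDynamicSpeed d P.q P.κ P.lam μ v := by
  obtain ⟨v, hv0, hv⟩ := (P.dynp d μ).exists_ring_speed (d := d)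
  rw [joint_dynp] at hv
  refine ⟨v / P.mean d, div_pos hv0 P.mean_pos, ?_⟩
  unfold IsDynamicSpeed
  filter_upwards [P.ae_joint hq, hv] with p hp1 hp2
  obtain ⟨ha, hw, hm⟩ := hp1
  refine P.cont_limit hw hm (hp2.congr fun n => ?_)
  rw [P.dynp_fw hμ ha hw n]

lemma exists_static (hq : ∀ᵐ x ∂P.q, x ∈ Set.Icc P.c P.κ) :
    ∃ v, 0 < v ∧ IsStaticSpeed d P.q P.κ P.lam v := by
  obtain ⟨v, hv0, hv⟩ := (P.stat d).exists_ring_speed (d := d)
  rw [joint_stat] at hv
  refine ⟨v / P.mean d, div_pos hv0 P.mean_pos, ?_⟩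
  unfold IsStaticSpeed
  filter_upwards [P.ae_joint hq, hv] with p hp1 hp2
  obtain ⟨ha, hw, hm⟩ := hp1
  refine P.cont_limit hw hm (hp2.congr fun n => ?_)
  rw [P.stat_fw ha p.2 n]

lemma dynamic_unique {μ v v' : ℝ} (h : IsDynamicSpeed d P.q P.κ P.lam μ v)
    (h' : IsDynamicSpeed d P.q P.κ P.lam μ v') : v = v' := by
  obtain ⟨p, hp⟩ := (h.and h').exists
  exact tendsto_nhds_unique hp.1 hp.2

lemma static_unique {v v' : ℝ} (h : IsStaticSpeed d P.q P.κ P.lam v)
    (h' : IsStaticSpeed d P.q P.κ P.lam v') : v = v' := by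
  obtain ⟨p, hp⟩ := (h.and h').exists
  exact tendsto_nhds_unique hp.1 hp.2

theorem full (hq : ∀ᵐ x ∂P.q, x ∈ Set.Icc P.c P.κ) :
    ∃ (v : ℝ → ℝ) (vst : ℝ),
      (∀ μ, 0 < μ → ∀ w, IsDynamicSpeed d P.q P.κ P.lam μ w ↔ w = v μ) ∧
      (∀ w, IsStaticSpeed d P.q P.κ P.lam w ↔ w = vst) ∧
      Tendsto v (𝓝[>] (0 : ℝ)) (𝓝 vst) := by
  classical
  choose! v hv using fun (μ : ℝ) (hμ : 0 < μ) => P.exists_dynamic (d := d) hq hμ
  obtain ⟨vst, hst0, hst⟩ := P.exists_static (d := d) hq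
  refine ⟨v, vst, ?_, ?_, P.main hq v (fun μ hμ => (hv μ hμ).2) vst hst⟩
  · intro μ hμ w
    constructor
    · intro h; exact P.dynamic_unique h (hv μ hμ).2
    · rintro rfl; exact (hv μ hμ).2
  · intro w
    constructor
    · intro h; exact P.static_unique h hst
    · rintro rfl; exact hst

end Par

end Pool.Agent.Helper90.SlowRefresh
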