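import Mathlib

open MeasureTheory ProbabilityTheory Filter
open scoped ENNReal Topology

namespace Pool.Agent.Helper90.SlowRefresh

set_option linter.unusedSectionVars false

lemma expMeasure_eq (r : ℝ) : expMeasure r = volume.withDensity (exponentialPDF r) := rfl

lemma measurable_exponentialPDF (r : ℝ) : Measurable (exponentialPDF r) :=
  (measurable_exponentialPDFReal r).ennreal_ofReal

lemma lintegral_expMeasure (r : ℝ) {g : ℝ → ℝ≥0∞} (hg : Measurable g) :
    ∫⁻ x, g x ∂(expMeasure r) = ∫⁻ x, exponentialPDF r x * g x := by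
  rw [expMeasure_eq, lintegral_withDensity_eq_lintegral_mul _ (measurable_exponentialPDF r) hg]
  rfl

lemma expMeasure_Iic {r : ℝ} (hr : 0 < r) {t : ℝ} (ht : 0 ≤ t) :
    expMeasure r (Set.Iic t) = ENNReal.ofReal (1 - Real.exp (-(r * t))) := by
  rw [expMeasure_eq, withDensity_apply _ measurableSet_Iic,
    lintegral_exponentialPDF_eq_antiDeriv hr t, if_pos ht]

lemma expMeasure_ae_pos {r : ℝ} (hr : 0 < r) : ∀ᵐ x ∂(expMeasure r), 0 < x := by
  rw [ae_iff]
  have : {x : ℝ | ¬ 0 < x} = Set.Iic 0 := by ext x; simp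
  rw [this, expMeasure_Iic hr le_rfl]
  simp

/-- memoryless property -/
lemma memoryless {t : ℝ} (ht : 0 ≤ t) {g : ℝ → ℝ≥0∞} (hg : Measurable g) :
    ∫⁻ x, (Set.Ioi t).indicator (fun x => g (x - t)) x ∂(expMeasure 1) =
      ENNReal.ofReal (Real.exp (-t)) * ∫⁻ x, g x ∂(expMeasure 1) := by
  have hg' : Measurable fun x : ℝ => g (x - t) := hg.comp (measurable_id.sub_const t)
  have hm : Measurable fun x : ℝ => exponentialPDF 1 x * g x :=
    (measurable_exponentialPDF 1).mul hg
  rw [lintegral_expMeasure 1 (hg'.indicator measurableSet_Ioi),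
    lintegral_expMeasure 1 hg, ← lintegral_const_mul _ hm]
  rw [← lintegral_add_right_eq_self (μ := volume) _ t]
  refine lintegral_congr_ae ?_
  have h0 : ∀ᵐ x : ℝ ∂volume, x ≠ 0 := by
    rw [ae_iff]; simp
  filter_upwards [h0] with x hx
  by_cases h : 0 < x
  · rw [Set.indicator_of_mem (by simp only [Set.mem_Ioi]; linarith), add_sub_cancel_right,
      exponentialPDF_of_nonneg (by linarith), exponentialPDF_of_nonneg h.le, ← mul_assoc,
      ← ENNReal.ofReal_mul (Real.exp_pos _).le]
    congr 2
    rw [one_mul, one_mul, one_mul, one_mul, ← Real.exp_add]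
    congr 1; ring
  · have h' : x < 0 := lt_of_le_of_ne (not_lt.1 h) hx
    rw [Set.indicator_of_notMem (by simp only [Set.mem_Ioi]; linarith),
      exponentialPDF_of_neg h']
    simp

lemma integrable_id_expMeasure {r : ℝ} (hr : 0 < r) : Integrable (fun x : ℝ => x) (expMeasure r) := by
  refine ⟨measurable_id.aestronglyMeasurable, ?_⟩
  rw [hasFiniteIntegral_iff_norm, lintegral_expMeasure r (by fun_prop)]
  have h1 : ∀ x : ℝ, exponentialPDF r x * ENNReal.ofReal ‖x‖ ≤
      (Set.Ioi (0 : ℝ)).indicator (fun x => ENNReal.ofReal (2 * Real.exp (-(r / 2) * x))) x := by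
    intro x
    rcases lt_trichotomy x 0 with h | h | h
    · rw [exponentialPDF_of_neg h]; simp
    · subst h; simp
    · rw [Set.indicator_of_mem (by exact h), exponentialPDF_of_nonneg h.le,
        ← ENNReal.ofReal_mul (by positivity)]
      refine ENNReal.ofReal_le_ofReal ?_
      rw [Real.norm_of_nonneg h.le]
      have h2 : r / 2 * x ≤ Real.exp (r / 2 * x) := by
        have := Real.add_one_le_exp (r / 2 * x); linarith
      have h3 : Real.exp (-(r * x)) = Real.exp (-(r / 2) * x) * Real.exp (-(r / 2 * x)) := by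
        rw [← Real.exp_add]; congr 1; ring
      have h4 : Real.exp (-(r / 2 * x)) * Real.exp (r / 2 * x) = 1 := by
        rw [← Real.exp_add]; simp
      have h5 := Real.exp_pos (-(r / 2) * x)
      have h6 := Real.exp_pos (-(r / 2 * x))
      rw [h3]
      have h7 : r / 2 * x * Real.exp (-(r / 2 * x)) ≤ 1 := by
        rw [← h4, mul_comm]; gcongr
      nlinarith
  refine lt_of_le_of_lt (lintegral_mono h1) ?_
  rw [lintegral_indicator measurableSet_Ioi]
  have h2 : IntegrableOn (fun x => 2 * Real.exp (-(r / 2) * x)) (Set.Ioi (0 : ℝ)) :=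
    (exp_neg_integrableOn_Ioi 0 (by positivity)).const_mul 2
  have h3 := h2.setLIntegral_lt_top
  exact h3

lemma integral_id_expMeasure_pos {r : ℝ} (hr : 0 < r) : 0 < ∫ x, x ∂(expMeasure r) := by
  have := isProbabilityMeasure_expMeasure hr
  have h0 := expMeasure_ae_pos hr
  rw [integral_pos_iff_support_of_nonneg_ae (h0.mono fun x hx => hx.le)
    (integrable_id_expMeasure hr)]
  have h1 : (expMeasure r) (Function.support fun x : ℝ => x) = 1 := by
    have hm : MeasurableSet (Function.support fun x : ℝ => x) :=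
      measurableSet_support measurable_id
    rw [← mem_ae_iff_prob_eq_one hm]
    filter_upwards [h0] with x hx
    exact hx.ne'
  rw [h1]; exact one_pos

end Pool.Agent.Helper90.SlowRefresh
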